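import Pool.Statements.S00011
import Pool.Agent.Lib.MP_0b0414_ag.Main

set_option autoImplicit false
open Pool Pool.MP_0b0414_ag

namespace Pool.Agent.S00011

/-- For all prime powers q, m≥1, 1≤d<q, 1≤r≤C(m+d,d), some r independent degree-d forms over F_q have the most F_q-points among such systems, and each such point lies on a linear irreducible component of their zero set over the algebraic closure. -/
theorem result :
    ∀ (p : ℕ) [Fact (Nat.Prime p)] (n : ℕ), 0 < n →
    ∀ (m d r : ℕ), 1 ≤ m → 1 ≤ d → d < p ^ n → 1 ≤ r → r ≤ (m + d).choose d →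
    ∃ F : Fin r → MvPolynomial (Fin (m + 1)) (GaloisField p n),
      (∀ i, (F i).IsHomogeneous d) ∧
      LinearIndependent (GaloisField p n) F ∧
      (∀ G : Fin r → MvPolynomial (Fin (m + 1)) (GaloisField p n),
        (∀ i, (G i).IsHomogeneous d) →
        LinearIndependent (GaloisField p n) G →
        {x : Projectivization (GaloisField p n) (Fin (m + 1) → GaloisField p n) |
            ∀ i, MvPolynomial.eval x.rep (G i) = 0}.ncard ≤
        {x : Projectivization (GaloisField p n) (Fin (m + 1) → GaloisField p n) |
            ∀ i, MvPolynomial.eval x.rep (F i) = 0}.ncard) ∧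
      (∀ x : Projectivization (GaloisField p n) (Fin (m + 1) → GaloisField p n),
        (∀ i, MvPolynomial.eval x.rep (F i) = 0) →
        ∃ P ∈ (Ideal.span (Set.range (fun i =>
              MvPolynomial.map
                (algebraMap (GaloisField p n) (AlgebraicClosure (GaloisField p n))) (F i)))).minimalPrimes,
          (∃ S : Set (MvPolynomial (Fin (m + 1)) (AlgebraicClosure (GaloisField p n))),
            (∀ f ∈ S, f.IsHomogeneous 1) ∧ P = Ideal.span S) ∧
          ∀ f ∈ P, MvPolynomial.eval
            (fun j => algebraMap (GaloisField p n) (AlgebraicClosure (GaloisField p n)) (x.rep j)) f = 0) := by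
  intro p _ n hn m d r hm hd1 hd hr1 hr
  exact B04.main p n hn m d r hm hd1 hd hr1 hr

end Pool.Agent.S00011
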