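import Pool.Statements.S00904
import Pool.Agent.Lib.MP_20522e_al.Final

set_option autoImplicit false
open Pool Pool.MP_20522e_al

namespace Pool.Agent.S00904

/-- The negation of the preceding statement: For every set X with at least 3 elements, the free alternative ring over the integers on X (free nonassociative ring modulo all associators (u,u,v),(v,u,u)) has a nonzero two-sided ideal all of whose elements commute with everything. -/
theorem result :
    ¬ (∀ (X : Type), 3 ≤ Cardinal.mk X →
      ∃ I : AddSubgroup (MonoidAlgebra ℤ (FreeMagma X)),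
        (∀ a ∈ I, ∀ b : MonoidAlgebra ℤ (FreeMagma X), a * b ∈ I ∧ b * a ∈ I) ∧
        (∃ a ∈ I, ¬ (ringConGen (fun x y : MonoidAlgebra ℤ (FreeMagma X) =>
            ∃ u v : MonoidAlgebra ℤ (FreeMagma X),
              (x = (u * u) * v - u * (u * v) ∨ x = (v * u) * u - v * (u * u)) ∧ y = 0)) a 0) ∧
        (∀ a ∈ I, ∀ b : MonoidAlgebra ℤ (FreeMagma X),
          (ringConGen (fun x y : MonoidAlgebra ℤ (FreeMagma X) =>
            ∃ u v : MonoidAlgebra ℤ (FreeMagma X),
              (x = (u * u) * v - u * (u * v) ∨ x = (v * u) * u - v * (u * u)) ∧ y = 0))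
            (a * b - b * a) 0)) := by
  intro h
  obtain ⟨I, hI, ⟨a, ha, hna⟩, hc⟩ := h (Fin 3) (by rw [Cardinal.mk_fin]; norm_num)
  exact hna (Pool.Agent.Lib.MP_20522e_al.final_thm I hI hc a ha)

end Pool.Agent.S00904
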