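import Pool.Statements.S01314
import Pool.Agent.Lib.MP_424f45_al.Final

set_option autoImplicit false
open Pool Pool.MP_424f45_al

namespace Pool.Agent.S01314

/-- The negation of the preceding statement: For all c and d≥2 there is a rational function W=P/Q over ℚ such that, for all but finitely many primes p and every ring of integers O of a finite extension of ℚ_p with residue size q, the graded ideal zeta function of the free class-c nilpotent Lie algebra over O equals W(q,q^{-s}). -/
theorem result :
    ¬ (∀ c d : ℕ, 2 ≤ d →
    ∃ P Q : Polynomial (Polynomial ℚ), ∃ S : Finset ℕ,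
    ∀ (p : ℕ) [Fact (Nat.Prime p)], p ∉ S →
    ∀ (O : Type) [CommRing O] [IsDomain O] [IsDiscreteValuationRing O]
      [Algebra (PadicInt p) O] [Module.Finite (PadicInt p) O],
    ∀ (L : Type) [LieRing L] [LieAlgebra O L]
      (π : FreeLieAlgebra O (Fin d) →ₗ⁅O⁆ L),
      Function.Surjective π →
      π.ker = LieModule.lowerCentralSeries O (FreeLieAlgebra O (Fin d))
        (FreeLieAlgebra O (Fin d)) c →
      Q.map (Polynomial.evalRingHom ((Nat.card (IsLocalRing.ResidueField O) : ℕ) : ℚ)) ≠ 0 ∧
      (↑(Q.map (Polynomial.evalRingHom ((Nat.card (IsLocalRing.ResidueField O) : ℕ) : ℚ)))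
          : PowerSeries ℚ) *
        PowerSeries.mk (fun k : ℕ =>
          ((Set.ncard {I : LieIdeal O L |
              (I : Submodule O L) =
                (⨆ i : ℕ, ((I : Submodule O L) ⊓
                  Submodule.span O {y : L | ∃ (j : Fin d) (w : List (Fin d)),
                    w.length = i ∧
                    y = List.foldr (fun (k : Fin d) (a : L) => ⁅π (FreeLieAlgebra.of O k), a⁆)
                      (π (FreeLieAlgebra.of O j)) w})) ∧
              Nat.card (L ⧸ (I : Submodule O L)) =
                (Nat.card (IsLocalRing.ResidueField O)) ^ k} : ℕ) : ℚ))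
        = (↑(P.map (Polynomial.evalRingHom ((Nat.card (IsLocalRing.ResidueField O) : ℕ) : ℚ)))
            : PowerSeries ℚ)) :=
  Pool.Agent.Lib.MP_424f45_al.final

end Pool.Agent.S01314
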