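import Pool.Statements.S01563
import Pool.Agent.Lib.MP_59c382_al.MkData
import Pool.Agent.Lib.MP_59c382_al.MainE

set_option autoImplicit false
open Pool Pool.MP_59c382_al

namespace Pool.Agent.S01563

/-- Every group of derived length at most 2 that admits an automatic structure has a finite-index abelian subgroup. Automatic means: a regular language over finite generators maps onto the group with the fellow-traveller property. -/
theorem result :
  ∀ (G : Type) [Group G],
    derivedSeries G 2 = ⊥ →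
    (∃ (n : ℕ) (s : Fin n → G) (σ : Type) (_ : Fintype σ) (M : DFA (Fin n) σ) (k : ℕ),
      (∀ g : G, ∃ w ∈ M.accepts, (w.map s).prod = g) ∧
      ∀ u ∈ M.accepts, ∀ v ∈ M.accepts, ∀ a : G, (a = 1 ∨ a ∈ Set.range s) →
        (u.map s).prod * a = (v.map s).prod →
        ∀ t : ℕ, ∃ l : List G, l.length ≤ k ∧
          (∀ x ∈ l, x ∈ Set.range s ∨ x⁻¹ ∈ Set.range s) ∧
          ((u.take t).map s).prod * l.prod = ((v.take t).map s).prod) →
    ∃ H : Subgroup G, H.FiniteIndex ∧ ∀ x ∈ H, ∀ y ∈ H, x * y = y * x := by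
  intro G _ hder haut
  obtain ⟨n, s, σ, hσ, M, k, hsurj, hfellow⟩ := haut
  let S : Pool.Agent.Lib.MP_59c382_al.Aut G :=
    { n := n, s := s, σ := σ, fin := hσ, M := M, k := k, surj := hsurj, fellow := hfellow }
  have hfin : (Set.range s).Finite := Set.finite_range s
  have hgen : Subgroup.closure (Set.range s) = ⊤ := by
    rw [eq_top_iff]
    intro g _
    obtain ⟨w, _, hw⟩ := hsurj g
    rw [← hw]
    apply Subgroup.list_prod_mem
    intro x hx
    obtain ⟨i, _, hi⟩ := List.mem_map.mp hx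
    rw [← hi]
    exact Subgroup.subset_closure ⟨i, rfl⟩
  obtain ⟨R, _, N, _, _, _, _, Δ, hΔ⟩ :=
    Pool.Agent.Lib.MP_59c382_al.exists_modData G hfin hgen hder
  obtain ⟨k', hk', m, hPL⟩ := Δ.positive_law S.combing hfin hgen
  have hQ : ∃ e : ℕ, 0 < e ∧ ∀ g : G, ∀ c : ℕ, 0 < c → g ^ c ∈ Δ.A → g ^ e ∈ Δ.A := by
    rw [hΔ]
    exact Pool.Agent.Lib.MP_59c382_al.exists_eQ G hfin hgen
  obtain ⟨e, he, hRP⟩ := Δ.root_property S.combing hfin hgen hQ
  exact S.partD hk' hPL he hRP

end Pool.Agent.S01563
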