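import Pool.Statements.S01692
import Pool.Agent.GrowthOR.Final

set_option autoImplicit false
open Pool Pool.MP_620157_al

namespace Pool.Agent.S01692

/-- The negation of the preceding statement: For every one-relator group ⟨x1..xn ∣ r⟩, the series sum over k of the number of elements of word length exactly k (in the generators x_i) satisfies a nonzero polynomial equation over Q[t], i.e. it is algebraic. -/
theorem result :
    ¬ (∀ (n : ℕ) (r : FreeGroup (Fin n)),
      ∃ P : Polynomial (Polynomial ℚ), P ≠ 0 ∧
        Polynomial.eval₂ (Polynomial.coeToPowerSeries.ringHom)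
          (PowerSeries.mk fun k : ℕ =>
            ((Nat.card
              {g : FreeGroup (Fin n) ⧸ Subgroup.normalClosure ({r} : Set (FreeGroup (Fin n))) //
                ∃ w : FreeGroup (Fin n),
                  (QuotientGroup.mk w :
                      FreeGroup (Fin n) ⧸ Subgroup.normalClosure ({r} : Set (FreeGroup (Fin n)))) = g ∧
                  (FreeGroup.toWord w).length = k ∧
                  ∀ w' : FreeGroup (Fin n),
                    (QuotientGroup.mk w' :
                      FreeGroup (Fin n) ⧸ Subgroup.normalClosure ({r} : Set (FreeGroup (Fin n)))) = g →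
                    k ≤ (FreeGroup.toWord w').length} : ℕ) : ℚ)) P = 0) := by
  intro H
  obtain ⟨P, hP, hP0⟩ := H 2 Pool.Agent.GrowthOR.rel
  refine Pool.Agent.GrowthOR.not_alg ⟨P, hP, ?_⟩
  have h : (fun k : ℕ => ((Pool.Agent.GrowthOR.sph k : ℕ) : ℚ)) = fun k : ℕ =>
      ((Nat.card
        {g : FreeGroup (Fin 2) ⧸ Subgroup.normalClosure
            ({Pool.Agent.GrowthOR.rel} : Set (FreeGroup (Fin 2))) //
          ∃ w : FreeGroup (Fin 2),
            (QuotientGroup.mk w :
                FreeGroup (Fin 2) ⧸ Subgroup.normalClosure
                  ({Pool.Agent.GrowthOR.rel} : Set (FreeGroup (Fin 2)))) = g ∧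
            (FreeGroup.toWord w).length = k ∧
            ∀ w' : FreeGroup (Fin 2),
              (QuotientGroup.mk w' :
                FreeGroup (Fin 2) ⧸ Subgroup.normalClosure
                  ({Pool.Agent.GrowthOR.rel} : Set (FreeGroup (Fin 2)))) = g →
              k ≤ (FreeGroup.toWord w').length} : ℕ) : ℚ) := by
    funext k
    rw [Pool.Agent.GrowthOR.card_eq k]
    rfl
  rw [h]
  exact hP0

end Pool.Agent.S01692
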