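import Pool.Statements.S01729
import Pool.Agent.Lib.MP_6567fb_al.Main

set_option autoImplicit false
open Pool Pool.MP_6567fb_al

namespace Pool.Agent.S01729

/-- If a finitely generated subgroup G of Aut(F_n) consists of generalised Dehn twists, each with respect to its own ordered basis, then some finite-index subgroup of G consists of generalised Dehn twists with respect to one common basis. -/
theorem result :
    ∀ n : ℕ, ∀ G : Subgroup (MulAut (FreeGroup (Fin n))), G.FG →
      (∀ φ ∈ G, ∃ b : FreeGroupBasis (Fin n) (FreeGroup (Fin n)),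
        ∃ k : ℕ, 0 < k ∧ ∀ i : Fin n,
          ∃ w ∈ Subgroup.closure (Set.image (fun j => b j) {j : Fin n | j < i}),
          ∃ v ∈ Subgroup.closure (Set.image (fun j => b j) {j : Fin n | j < i}),
            (φ ^ k) (b i) = w * b i * v) →
      ∃ b : FreeGroupBasis (Fin n) (FreeGroup (Fin n)),
        ∃ H : Subgroup (MulAut (FreeGroup (Fin n))), H ≤ G ∧ (H.subgroupOf G).FiniteIndex ∧
          ∀ φ ∈ H, ∃ k : ℕ, 0 < k ∧ ∀ i : Fin n,
            ∃ w ∈ Subgroup.closure (Set.image (fun j => b j) {j : Fin n | j < i}),
            ∃ v ∈ Subgroup.closure (Set.image (fun j => b j) {j : Fin n | j < i}),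
              (φ ^ k) (b i) = w * b i * v := by
  exact Pool.Agent.Lib.MP_6567fb_al.mainThm

end Pool.Agent.S01729
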