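import Pool.Statements.S02189
import Pool.Agent.Lib.MP_88e1a1_al.Even.Final

set_option autoImplicit false
open Pool Pool.MP_88e1a1_al

namespace Pool.Agent.S02189

/-- There is N such that for every n ≥ N, every matrix in SU(n) equals [[x,y],[x^2,y^2]] for some x, y in SU(n), where [u,v] = u v u* v* is the group commutator. -/
theorem result :
    ∃ N : ℕ, ∀ n : ℕ, N ≤ n →
      ∀ g : Matrix (Fin n) (Fin n) ℂ, g ∈ Matrix.specialUnitaryGroup (Fin n) ℂ →
        ∃ x y : Matrix (Fin n) (Fin n) ℂ,
          x ∈ Matrix.specialUnitaryGroup (Fin n) ℂ ∧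
          y ∈ Matrix.specialUnitaryGroup (Fin n) ℂ ∧
          (x * y * star x * star y) * (x ^ 2 * y ^ 2 * star (x ^ 2) * star (y ^ 2)) *
            star (x * y * star x * star y) *
            star (x ^ 2 * y ^ 2 * star (x ^ 2) * star (y ^ 2)) = g := by
  exact ⟨1, fun n hn g hg => Pool.Agent.Lib.MP_88e1a1_al.Even.result_all n hn g hg⟩

end Pool.Agent.S02189
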