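import Pool.Statements.S02286

set_option autoImplicit false
open Pool Pool.MP_91b10e_al

namespace Pool.Agent.S02286

/-- The finite non-abelian group used in the counterexample. -/
abbrev S3 : Type := Equiv.Perm (Fin 3)

/-- Evaluation of a word with constants at a point. -/
noncomputable def ev {G : Type} [Group G] (w : Monoid.Coprod G (Multiplicative ℤ)) (x : G) : G :=
  Monoid.Coprod.lift (MonoidHom.id G) (zpowersHom G x) w

/-- In a topological group, evaluation of a word with constants is continuous. -/
theorem continuous_ev {G : Type} [Group G] [TopologicalSpace G] [IsTopologicalGroup G]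
    (w : Monoid.Coprod G (Multiplicative ℤ)) : Continuous (fun x : G => ev w x) := by
  induction w using Monoid.Coprod.induction_on' with
  | one => simpa [ev] using (continuous_const : Continuous (fun _ : G => (1 : G)))
  | inl_mul m x ih =>
    have : (fun x_1 : G => ev (Monoid.Coprod.inl m * x) x_1) = fun y => m * ev x y := by
      funext y; simp [ev]
    rw [this]; exact continuous_const.mul ih
  | inr_mul n x ih =>
    have : (fun x_1 : G => ev (Monoid.Coprod.inr n * x) x_1) =
        fun y => y ^ (Multiplicative.toAdd n) * ev x y := by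
      funext y; simp [ev]
    rw [this]
    exact (continuous_zpow _).mul ih

/-- A compact Hausdorff topological group has compact Zariski topology: the Zariski topology is
coarser than the given topology. -/
theorem compact_of_compact {G : Type} [Group G] [TopologicalSpace G] [IsTopologicalGroup G]
    [T2Space G] [CompactSpace G] :
    @IsCompact G
        (TopologicalSpace.generateFrom
          {U : Set G | ∃ w : Monoid.Coprod G (Multiplicative ℤ),
            U = {x : G | Monoid.Coprod.lift (MonoidHom.id G) (zpowersHom G x) w ≠ 1}})
        Set.univ := by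
  rename_i _ τ _ _ _
  have hle : τ ≤ TopologicalSpace.generateFrom
          {U : Set G | ∃ w : Monoid.Coprod G (Multiplicative ℤ),
            U = {x : G | Monoid.Coprod.lift (MonoidHom.id G) (zpowersHom G x) w ≠ 1}} := by
    apply le_generateFrom
    rintro U ⟨w, rfl⟩
    have h := continuous_ev w
    exact isOpen_compl_singleton.preimage h
  have h1 : @IsCompact G τ Set.univ := isCompact_univ
  have h2 := @IsCompact.image G G τ (TopologicalSpace.generateFrom
          {U : Set G | ∃ w : Monoid.Coprod G (Multiplicative ℤ),
            U = {x : G | Monoid.Coprod.lift (MonoidHom.id G) (zpowersHom G x) w ≠ 1}}) Set.univ id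
            h1 (continuous_id_of_le hle)
  simpa using h2

/-- The Zariski topology of the full power `S₃^ℕ` is compact. -/
theorem compact_prod :
    @IsCompact (ℕ → S3)
        (TopologicalSpace.generateFrom
          {U : Set (ℕ → S3) | ∃ w : Monoid.Coprod (ℕ → S3) (Multiplicative ℤ),
            U = {x : ℕ → S3 |
              Monoid.Coprod.lift (MonoidHom.id (ℕ → S3)) (zpowersHom (ℕ → S3) x) w ≠ 1}})
        Set.univ := by
  let _ : TopologicalSpace S3 := ⊥
  have _ : DiscreteTopology S3 := ⟨rfl⟩
  have _ : IsTopologicalGroup S3 := by infer_instance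
  have _ : CompactSpace S3 := by infer_instance
  exact compact_of_compact

/-- The Zariski topology of the full power `S₃^ℕ` is not Noetherian. -/
theorem not_noetherian_prod :
    ¬ @TopologicalSpace.NoetherianSpace (ℕ → S3)
        (TopologicalSpace.generateFrom
          {U : Set (ℕ → S3) | ∃ w : Monoid.Coprod (ℕ → S3) (Multiplicative ℤ),
            U = {x : ℕ → S3 |
              Monoid.Coprod.lift (MonoidHom.id (ℕ → S3)) (zpowersHom (ℕ → S3) x) w ≠ 1}}) := by
  intro hN
  let _ : TopologicalSpace (ℕ → S3) := (TopologicalSpace.generateFrom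
          {U : Set (ℕ → S3) | ∃ w : Monoid.Coprod (ℕ → S3) (Multiplicative ℤ),
            U = {x : ℕ → S3 |
              Monoid.Coprod.lift (MonoidHom.id (ℕ → S3)) (zpowersHom (ℕ → S3) x) w ≠ 1}})
  have _ := hN
  let a : S3 := Equiv.swap 0 1
  let b : S3 := Equiv.swap 1 2
  have hab : b * a * b⁻¹ * a⁻¹ ≠ 1 := by decide
  let U : ℕ → Set (ℕ → S3) := fun n => {x | x n * a * (x n)⁻¹ * a⁻¹ ≠ 1}
  have hU : ∀ n, IsOpen (U n) := by
    intro n
    apply TopologicalSpace.isOpen_generateFrom_of_mem
    refine ⟨Monoid.Coprod.inr (Multiplicative.ofAdd 1) * Monoid.Coprod.inl (Pi.mulSingle n a)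
      * Monoid.Coprod.inr (Multiplicative.ofAdd (-1))
      * Monoid.Coprod.inl (Pi.mulSingle n a)⁻¹, ?_⟩
    ext x
    simp only [U, Set.mem_ofPred_eq, ne_eq, not_iff_not]
    simp only [map_mul, Monoid.Coprod.lift_apply_inl, Monoid.Coprod.lift_apply_inr,
      MonoidHom.id_apply, zpowersHom_apply, toAdd_ofAdd, zpow_one, zpow_neg]
    constructor
    · intro h
      funext j
      by_cases hj : j = n
      · subst hj
        simpa using h
      · simp [Pi.mulSingle_eq_of_ne hj]
    · intro h
      have := congrFun h n
      simpa using this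
  have hc : IsCompact (⋃ n, U n) := TopologicalSpace.NoetherianSpace.isCompact _
  obtain ⟨t, ht⟩ := hc.elim_finite_subcover U hU (le_refl _)
  obtain ⟨N, hN'⟩ := t.exists_notMem
  have hmem : (Pi.mulSingle N b : ℕ → S3) ∈ ⋃ n, U n := by
    refine Set.mem_iUnion.2 ⟨N, ?_⟩
    simpa [U] using hab
  obtain ⟨n, hn⟩ := Set.mem_iUnion.1 (ht hmem)
  obtain ⟨hnt, hn⟩ := Set.mem_iUnion.1 hn
  have hne : n ≠ N := fun h => hN' (h ▸ hnt)
  simp [U, Pi.mulSingle_eq_of_ne hne] at hn

/-- The negation of the preceding statement: For every group G, if the Zariski topology (closed subbasis: solution sets of one-variable equations with constants from G) is compact, then it is Noetherian. -/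
theorem result :
    ¬ (∀ (G : Type) [Group G],
      @IsCompact G
        (TopologicalSpace.generateFrom
          {U : Set G | ∃ w : Monoid.Coprod G (Multiplicative ℤ),
            U = {x : G | Monoid.Coprod.lift (MonoidHom.id G) (zpowersHom G x) w ≠ 1}})
        Set.univ →
      @TopologicalSpace.NoetherianSpace G
        (TopologicalSpace.generateFrom
          {U : Set G | ∃ w : Monoid.Coprod G (Multiplicative ℤ),
            U = {x : G | Monoid.Coprod.lift (MonoidHom.id G) (zpowersHom G x) w ≠ 1}})) := by
  intro h
  exact not_noetherian_prod (h (ℕ → S3) compact_prod)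

end Pool.Agent.S02286
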