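import Pool.Statements.S02499
import Pool.Agent.Lib.MP_9f0b3e_al.Final
import Pool.Agent.Lib.MP_9f0b3e_al.Re

set_option autoImplicit false
open Pool Pool.MP_9f0b3e_al

namespace Pool.Agent.S02499

/-- There is an algorithm that takes finite multiplication and hyperaddition tables and decides whether they are isomorphic to the quotient hyperfield K/G for some infinite field K and subgroup G of its unit group. -/
theorem result :
    ComputablePred (fun c : ℕ × List (List ℕ) × List (List (List ℕ)) =>
      ∃ (K : Type) (inst : Field K), Infinite K ∧ ∃ G : Subgroup Kˣ, ∃ f : K → ℕ,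
        (∀ x : K, f x < c.1) ∧
        (∀ i : ℕ, i < c.1 → ∃ x : K, f x = i) ∧
        (∀ x y : K, f x = f y ↔
          ((x = 0 ∧ y = 0) ∨ (∃ hx : x ≠ 0, ∃ hy : y ≠ 0, Units.mk0 x hx / Units.mk0 y hy ∈ G))) ∧
        (∀ x y : K, f (x * y) = (c.2.1.getD (f x) []).getD (f y) 0) ∧
        (∀ x y : K, ∀ z : ℕ, z < c.1 →
          (z ∈ (c.2.2.getD (f x) []).getD (f y) [] ↔
            ∃ x' y' : K, f x' = f x ∧ f y' = f y ∧ f (x' + y') = z))) :=
  HypQ.CoRe.computable_of_re (HypQ.re_tabOK.of_eq (fun c => (HypQ.real_iff_tabOK c).symm))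

end Pool.Agent.S02499
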