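import Pool.Statements.S02777
import Pool.Agent.Lib.MP_b4ba8e_al.Adm
import Pool.Agent.Lib.MP_b4ba8e_al.Fin
import Pool.Agent.Lib.MP_b4ba8e_al.Topo
import Pool.Agent.Lib.MP_b4ba8e_al.TreeB

set_option autoImplicit false
open Pool Pool.MP_b4ba8e_al

namespace Pool.Agent.S02777

/-- For a locally finite tree with all degrees at least 3, every closed automorphism group acting 2-transitively on the ends has the property that each irreducible unitary representation maps every L1 function to a compact operator. -/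
theorem result :
    ∀ (V : Type) (T : SimpleGraph V), T.IsTree → (∀ v : V, (T.neighborSet v).Finite) →
    (∀ v : V, 3 ≤ (T.neighborSet v).ncard) →
    ∀ (G : Type) [Group G] [TopologicalSpace G] [IsTopologicalGroup G] [MeasurableSpace G]
      [BorelSpace G] [MulAction G V] [FaithfulSMul G V],
    (∀ (g : G) (u v : V), T.Adj (g • u) (g • v) ↔ T.Adj u v) →
    (∀ v : V, IsOpen {g : G | g • v = v}) →
    (∀ U : Set G, U ∈ nhds (1 : G) → ∃ F : Finset V, {g : G | ∀ v ∈ F, g • v = v} ⊆ U) →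
    (∀ σ : T ≃g T, (∀ F : Finset V, ∃ g : G, ∀ v ∈ F, g • v = σ v) →
      ∃ g : G, ∀ v : V, g • v = σ v) →
    (∀ r₁ r₂ s₁ s₂ : ℕ → V,
      Function.Injective r₁ → (∀ n, T.Adj (r₁ n) (r₁ (n + 1))) →
      Function.Injective r₂ → (∀ n, T.Adj (r₂ n) (r₂ (n + 1))) →
      Function.Injective s₁ → (∀ n, T.Adj (s₁ n) (s₁ (n + 1))) →
      Function.Injective s₂ → (∀ n, T.Adj (s₂ n) (s₂ (n + 1))) →
      ¬ (∃ k m : ℕ, ∀ n, r₁ (n + k) = r₂ (n + m)) →
      ¬ (∃ k m : ℕ, ∀ n, s₁ (n + k) = s₂ (n + m)) →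
      ∃ g : G, (∃ k m : ℕ, ∀ n, g • r₁ (n + k) = s₁ (n + m)) ∧
        (∃ k m : ℕ, ∀ n, g • r₂ (n + k) = s₂ (n + m))) →
    ∀ (μ : MeasureTheory.Measure G) [μ.IsHaarMeasure]
      (H : Type) [NormedAddCommGroup H] [InnerProductSpace ℂ H] [CompleteSpace H] [Nontrivial H]
      (π : G →* unitary (H →L[ℂ] H)),
    (∀ v : H, Continuous (fun g : G => (π g : H →L[ℂ] H) v)) →
    (∀ K : Submodule ℂ H, IsClosed (K : Set H) →
      (∀ g : G, ∀ v ∈ K, (π g : H →L[ℂ] H) v ∈ K) → K = ⊥ ∨ K = ⊤) →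
    ∀ f : G → ℂ, MeasureTheory.Integrable f μ →
      ∃ A : H →L[ℂ] H, IsCompactOperator A ∧
        ∀ x y : H, inner ℂ x (A y) = ∫ g, f g * inner ℂ x ((π g : H →L[ℂ] H) y) ∂μ := by
  intro V T hT hfin hdeg G _ _ _ _ _ _ _ hadj hopen hbasis hclosed h2 μ _ H _ _ _ _ π hcont hirr f hf
  obtain ⟨hsc, ht2, hcomp, hW⟩ := Pool.MP_b4ba8e.topo T hT hfin hadj hopen hbasis hclosed
  obtain ⟨v⟩ : Nonempty V := hT.1.nonempty
  obtain ⟨a, L, hC⟩ := Pool.MP_b4ba8e.exists_cartan T hT hdeg hadj h2 v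
  refine Pool.MP_b4ba8e.compact_of_admissible (MulAction.stabilizer G v) (hopen v) (hcomp v) μ π
    hcont ?_ f hf
  intro U hU
  obtain ⟨W, hWU, hWo, hWK, hWn⟩ := hW v U hU
  exact ⟨W, hWU, Pool.MP_b4ba8e.finiteDimensional_fixedVec (MulAction.stabilizer G v) (hopen v)
    (hcomp v) a L hC W hWo hWK hWn π hirr⟩

end Pool.Agent.S02777
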