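import Pool.Statements.S02973
import Pool.Agent.PIRing.Main

set_option autoImplicit false
open Pool Pool.MP_c252cb_al

namespace Pool.Agent.S02973

/-- Every finitely generated ring satisfying a multilinear integer identity whose identity-permutation coefficient is 1 satisfies every noncommutative integer polynomial identity of the n by n integer matrices, for some n. -/
theorem result :
  ∀ (R : Type) [Ring R], Algebra.FiniteType ℤ R →
    (∃ (d : ℕ) (c : Equiv.Perm (Fin d) → ℤ), c 1 = 1 ∧
        ∀ r : Fin d → R,
          ∑ σ : Equiv.Perm (Fin d), c σ • (List.ofFn (fun i => r (σ i))).prod = 0) →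
    ∃ n : ℕ, ∀ (k : ℕ) (g : FreeAlgebra ℤ (Fin k)),
      (∀ v : Fin k → Matrix (Fin n) (Fin n) ℤ, FreeAlgebra.lift ℤ v g = 0) →
      ∀ r : Fin k → R, FreeAlgebra.lift ℤ r g = 0 := by
  intro R _ hR h
  exact Pool.Agent.PIRing.main_theorem R hR h

end Pool.Agent.S02973
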