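import Pool.Statements.S03792
import Pool.Agent.Lib.MP_0c2aee_an.Transfer

set_option autoImplicit false
open scoped MeasureTheory
open Pool Pool.MP_0c2aee_an

namespace Pool.Agent.S03792

/-- The negation of the preceding statement: For every bounded planar domain Ω and 0<L<H¹(∂Ω), any closed convex K with nonempty interior in closure Ω, perimeter L, minimizing the first Dirichlet eigenvalue of Ω∖K among such sets, meets ∂Ω. -/
theorem result :
    ¬ (∀ lam : Set (EuclideanSpace ℝ (Fin 2)) → ENNReal,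
    (∀ U : Set (EuclideanSpace ℝ (Fin 2)),
      lam U = ⨅ (u : EuclideanSpace ℝ (Fin 2) → ℝ)
        (_ : ContDiff ℝ 1 u ∧ HasCompactSupport u ∧ tsupport u ⊆ U ∧ u ≠ 0),
          ENNReal.ofReal ((∫ x, ‖fderiv ℝ u x‖ ^ 2) / (∫ x, u x ^ 2))) →
  ∀ Ω : Set (EuclideanSpace ℝ (Fin 2)),
    IsOpen Ω → IsConnected Ω → Bornology.IsBounded Ω →
  ∀ L : ℝ, 0 < L → ENNReal.ofReal L < μH[1] (frontier Ω) →
  ∀ K : Set (EuclideanSpace ℝ (Fin 2)),
    IsClosed K → Convex ℝ K → (interior K).Nonempty → K ⊆ closure Ω →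
    μH[1] (frontier K) = ENNReal.ofReal L →
    (∀ K' : Set (EuclideanSpace ℝ (Fin 2)),
      IsClosed K' → Convex ℝ K' → (interior K').Nonempty → K' ⊆ closure Ω →
      μH[1] (frontier K') = ENNReal.ofReal L →
      lam (Ω \ K) ≤ lam (Ω \ K')) →
    (K ∩ frontier Ω).Nonempty) := by
  intro hall
  obtain ⟨Ω, L, K, h1, h2, h3, h4, h5, h6, h7, h8, h9, h10, h11, h12⟩ :=
    Pool.Agent.MP0c2.exists_exampleE
  exact h12 (hall Pool.Agent.MP0c2.lamE (fun U => rfl) Ω h1 h2 h3 L h4 h5 K h6 h7 h8 h9 h10 h11)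

end Pool.Agent.S03792
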