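import Pool.Statements.S04202

/-!
# A holomorphic operator group of hypercyclic operators without common hypercyclic vectors

The space is `ℓ²(ℕ, ℂ)`, which we view as a Hilbert space of entire functions of very slow growth
(order zero); the group is `T z = exp (z A)` with `A` a weighted backward shift, i.e. the
translation group `f ↦ f(· + z)`.

* Every `T z` with `z ≠ 0` is topologically transitive, hence hypercyclic: the vectors
  representing `t^{-(i+1)} (X - t)^i X^{i+1}` tend to `0` as `|t| → ∞`, while their translates by `t`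
  tend to the vector representing `X^i`.
* There is no common hypercyclic vector `y`: whenever `T u y` is close to the vector representing
  `z ↦ z`, the entire function of `y` has a zero at distance at most `1` from `u`.  Slow growth gives only `O(k)`
  zeros in the disc of radius `2^k`, so that, by the Borel-Cantelli lemma, almost every direction
  `1 + i s`, `s ∈ [0,1]`, is visited only finitely often.
-/

set_option autoImplicit false
open Filter Topology
open Pool Pool.MP_2d5ed4_an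

namespace Pool.Agent.S04202

/-- The Hilbert space `ℓ²(ℕ, ℂ)`. -/
abbrev HS : Type := lp (fun _ : ℕ => ℂ) 2

/-- The weights `4^{-n}`. -/
noncomputable def w (n : ℕ) : ℝ := (1 / 4 : ℝ) ^ n

lemma w_pos (n : ℕ) : 0 < w n := by unfold w; positivity

lemma w_le_one (n : ℕ) : w n ≤ 1 := pow_le_one₀ (by norm_num) (by norm_num)

lemma shift_sum_le (x : HS) (s : Finset ℕ) :
    ∑ i ∈ s, ‖((w i : ℝ) : ℂ) * x (i + 1)‖ ^ (2 : ENNReal).toReal ≤ ‖x‖ ^ (2 : ENNReal).toReal := by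
  have hp : 0 < (2 : ENNReal).toReal := by norm_num
  have h1 : ∑ i ∈ s, ‖((w i : ℝ) : ℂ) * x (i + 1)‖ ^ (2 : ENNReal).toReal
      ≤ ∑ i ∈ s, ‖x (i + 1)‖ ^ (2 : ENNReal).toReal := by
    refine Finset.sum_le_sum fun i _ => ?_
    apply Real.rpow_le_rpow (norm_nonneg _) _ hp.le
    rw [norm_mul, Complex.norm_real, Real.norm_of_nonneg (w_pos i).le]
    exact mul_le_of_le_one_left (norm_nonneg _) (w_le_one i)
  have h2 : ∑ i ∈ s, ‖x (i + 1)‖ ^ (2 : ENNReal).toReal
      = ∑ i ∈ s.map ⟨Nat.succ, Nat.succ_injective⟩, ‖x i‖ ^ (2 : ENNReal).toReal := by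
    rw [Finset.sum_map]
    rfl
  rw [h2] at h1
  exact h1.trans (lp.sum_rpow_le_norm_rpow hp x _)

/-- The weighted backward shift `(A x)_n = 4^{-n} x_{n+1}`. -/
noncomputable def A : HS →L[ℂ] HS :=
  LinearMap.mkContinuous
    { toFun := fun x => ⟨fun n => ((w n : ℝ) : ℂ) * x (n + 1), memℓp_gen' (shift_sum_le x)⟩
      map_add' := fun x y => by
        ext n
        change ((w n : ℝ) : ℂ) * (x (n + 1) + y (n + 1))
          = ((w n : ℝ) : ℂ) * x (n + 1) + ((w n : ℝ) : ℂ) * y (n + 1)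
        ring
      map_smul' := fun c x => by
        ext n
        change ((w n : ℝ) : ℂ) * (c * x (n + 1)) = c * (((w n : ℝ) : ℂ) * x (n + 1))
        ring }
    1 (fun x => by
      rw [one_mul]
      exact lp.norm_le_of_forall_sum_le (by norm_num) (norm_nonneg _) (fun s => shift_sum_le x s))

lemma A_apply (x : HS) (n : ℕ) : (A x) n = ((w n : ℝ) : ℂ) * x (n + 1) := rfl

/-- `W k = ∏_{j<k} w j`. -/
noncomputable def W (k : ℕ) : ℝ := ∏ j ∈ Finset.range k, w j

lemma W_pos (k : ℕ) : 0 < W k := Finset.prod_pos fun j _ => w_pos j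

lemma W_succ (k : ℕ) : W (k + 1) = W k * w k := Finset.prod_range_succ _ _

lemma W_zero : W 0 = 1 := by simp [W]

lemma W_one : W 1 = 1 := by simp [W, w]

lemma W_eq (k : ℕ) : W k = (1 / 2 : ℝ) ^ (k * (k - 1)) := by
  induction k with
  | zero => simp [W]
  | succ k ih =>
    rw [W_succ, ih, w]
    have : (1 / 4 : ℝ) ^ k = (1 / 2 : ℝ) ^ (2 * k) := by
      rw [pow_mul]; norm_num
    rw [this, ← pow_add]
    congr 1
    cases k with
    | zero => simp
    | succ k => simp; ring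

lemma A_pow_apply (k : ℕ) (x : HS) (n : ℕ) :
    ((A ^ k) x) n = ((∏ j ∈ Finset.range k, w (n + j) : ℝ) : ℂ) * x (n + k) := by
  induction k generalizing x n with
  | zero => simp
  | succ k ih =>
    rw [pow_succ, mul_apply_eq_comp, ih, A_apply, Finset.prod_range_succ]
    push_cast
    rw [mul_assoc]
    rfl

lemma A_pow_apply_zero (k : ℕ) (x : HS) : ((A ^ k) x) 0 = ((W k : ℝ) : ℂ) * x k := by
  rw [A_pow_apply]
  simp [W]

/-- The group `T z = exp (z A)`. -/
noncomputable def T (z : ℂ) : HS →L[ℂ] HS := NormedSpace.exp (z • A)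

lemma T_zero : T 0 = ContinuousLinearMap.id ℂ HS := by
  unfold T
  rw [zero_smul, NormedSpace.exp_zero]
  rfl

lemma T_add (z u : ℂ) : T (z + u) = (T z).comp (T u) := by
  let _ : NormedAlgebra ℚ (HS →L[ℂ] HS) := NormedAlgebra.restrictScalars ℚ ℂ (HS →L[ℂ] HS)
  have hc : Commute (z • A) (u • A) := ((Commute.refl A).smul_left z).smul_right u
  unfold T
  rw [add_smul, NormedSpace.exp_add_of_commute hc]
  rfl

lemma T_add_apply (z u : ℂ) (x : HS) : T (z + u) x = T z (T u x) := by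
  rw [T_add]; rfl

lemma T_iterate (z : ℂ) (n : ℕ) (x : HS) : (⇑(T z))^[n] x = T (n * z) x := by
  induction n with
  | zero => simp [T_zero]
  | succ n ih =>
    rw [Function.iterate_succ_apply', ih, ← T_add_apply]
    congr 2
    push_cast
    ring

lemma T_hasDerivAt (x : HS) (z : ℂ) : HasDerivAt (fun z : ℂ => T z x) ((T z * A) x) z := by
  have h := hasDerivAt_exp_smul_const (𝕂 := ℂ) A z
  exact (ContinuousLinearMap.apply ℂ HS x).hasFDerivAt.comp_hasDerivAt z h

lemma T_continuous (x : HS) : Continuous (fun z : ℂ => T z x) :=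
  continuous_iff_continuousAt.mpr fun z => (T_hasDerivAt x z).continuousAt

lemma T_hasSum (z : ℂ) (x : HS) :
    HasSum (fun n : ℕ => ((n.factorial : ℂ)⁻¹ * z ^ n) • (A ^ n) x) (T z x) := by
  have h := NormedSpace.exp_series_hasSum_exp' (𝕂 := ℂ) (z • A)
  have h2 := h.mapL (ContinuousLinearMap.apply ℂ HS x)
  have h3 : ∀ n : ℕ, (ContinuousLinearMap.apply ℂ HS x) ((n.factorial : ℂ)⁻¹ • (z • A) ^ n)
      = ((n.factorial : ℂ)⁻¹ * z ^ n) • (A ^ n) x := by
    intro n
    rw [smul_pow, mul_smul]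
    rfl
  simp only [h3] at h2
  exact h2

/-! ### The polynomial vectors -/

/-- The vector representing the monomial `z ^ k`. -/
noncomputable def E (k : ℕ) : HS := ((k.factorial : ℂ) / ((W k : ℝ) : ℂ)) • lp.single 2 k (1 : ℂ)

lemma E_apply (k n : ℕ) :
    (E k) n = if n = k then ((k.factorial : ℂ) / ((W k : ℝ) : ℂ)) else 0 := by
  have h : (E k) n = ((k.factorial : ℂ) / ((W k : ℝ) : ℂ)) * (lp.single 2 k (1 : ℂ) : HS) n := rfl
  rw [h]
  split_ifs with hn
  · subst hn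
    rw [lp.single_apply_self, mul_one]
  · rw [lp.single_apply_ne _ _ _ hn, mul_zero]

lemma A_E_zero : A (E 0) = 0 := by
  ext n
  rw [A_apply, E_apply]
  simp

lemma A_E_succ (k : ℕ) : A (E (k + 1)) = ((k : ℂ) + 1) • E k := by
  ext n
  have h : (((k : ℂ) + 1) • E k) n = ((k : ℂ) + 1) * (E k) n := rfl
  rw [A_apply, h, E_apply, E_apply]
  by_cases hn : n = k
  · subst hn
    simp only [if_true]
    have h1 : ((W n : ℝ) : ℂ) ≠ 0 := by exact_mod_cast (W_pos n).ne'
    have h2 : ((w n : ℝ) : ℂ) ≠ 0 := by exact_mod_cast (w_pos n).ne'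
    rw [W_succ, Nat.factorial_succ]
    push_cast
    field_simp
  · have : ¬ (n + 1 = k + 1) := by omega
    simp [hn]

lemma A_pow_E (j k : ℕ) :
    (A ^ j) (E k) = ((k.descFactorial j : ℕ) : ℂ) • E (k - j) := by
  induction j with
  | zero => simp
  | succ j ih =>
    rw [pow_succ', mul_apply_eq_comp, ih, map_smul]
    rcases lt_trichotomy (k - j) 1 with h | h | h
    · have hkj : k - j = 0 := by omega
      rw [hkj, A_E_zero, smul_zero]
      have : k.descFactorial (j + 1) = 0 := by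
        rw [Nat.descFactorial_eq_zero_iff_lt]; omega
      rw [this]; simp
    · rw [h, show (1 : ℕ) = 0 + 1 from rfl, A_E_succ]
      have h2 : k - (0 + 1 + j) = 0 := by omega
      rw [Nat.descFactorial_succ, h]
      have h3 : k - (j + (0 + 1)) = 0 := by omega
      rw [h3]
      simp
    · obtain ⟨m, hm⟩ : ∃ m, k - j = m + 1 := ⟨k - j - 1, by omega⟩
      rw [hm, A_E_succ, Nat.descFactorial_succ, hm]
      have h3 : k - (j + 1) = m := by omega
      rw [h3, smul_smul]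
      push_cast
      ring_nf

lemma T_E (t : ℂ) (k : ℕ) :
    T t (E k) = ∑ j ∈ Finset.range (k + 1), (t ^ j * (k.choose j : ℂ)) • E (k - j) := by
  have h := T_hasSum t (E k)
  have h2 : HasSum (fun n : ℕ => ((n.factorial : ℂ)⁻¹ * t ^ n) • (A ^ n) (E k))
      (∑ j ∈ Finset.range (k + 1), ((j.factorial : ℂ)⁻¹ * t ^ j) • (A ^ j) (E k)) := by
    apply hasSum_sum_of_ne_finset_zero
    intro j hj
    rw [Finset.mem_range] at hj
    rw [A_pow_E]
    have : k.descFactorial j = 0 := by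
      rw [Nat.descFactorial_eq_zero_iff_lt]; omega
    rw [this]; simp
  rw [h.unique h2]
  refine Finset.sum_congr rfl fun j _ => ?_
  rw [A_pow_E, smul_smul]
  congr 1
  have h3 : ((k.descFactorial j : ℕ) : ℂ) = (j.factorial : ℂ) * (k.choose j : ℂ) := by
    rw [Nat.descFactorial_eq_factorial_mul_choose]; push_cast; ring
  have h4 : (j.factorial : ℂ) ≠ 0 := by exact_mod_cast j.factorial_ne_zero
  rw [h3]
  field_simp

/-- The linear map sending a polynomial to the vector representing it. -/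
noncomputable def Φ : Polynomial ℂ →ₗ[ℂ] HS :=
  Polynomial.lsum fun k => (LinearMap.id : ℂ →ₗ[ℂ] ℂ).smulRight (E k)

lemma Φ_monomial (k : ℕ) (c : ℂ) : Φ (Polynomial.monomial k c) = c • E k := by
  unfold Φ
  rw [Polynomial.lsum_apply, Polynomial.sum_monomial_index]
  · simp
  · simp

lemma Φ_X_pow (k : ℕ) : Φ (Polynomial.X ^ k) = E k := by
  rw [← Polynomial.monomial_one_right_eq_X_pow, Φ_monomial, one_smul]

lemma Φ_C_mul (c : ℂ) (p : Polynomial ℂ) : Φ (Polynomial.C c * p) = c • Φ p := by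
  rw [← Polynomial.smul_eq_C_mul, map_smul]

/-- `T t` acts on polynomial vectors as the translation by `t`. -/
lemma T_Φ (t : ℂ) (p : Polynomial ℂ) :
    T t (Φ p) = Φ (p.comp (Polynomial.X + Polynomial.C t)) := by
  induction p using Polynomial.induction_on' with
  | add p q hp hq => rw [map_add, map_add, hp, hq, Polynomial.add_comp, map_add]
  | monomial k c =>
    rw [Φ_monomial, map_smul, T_E, Polynomial.monomial_comp, Φ_C_mul,
      add_comm Polynomial.X (Polynomial.C t), add_pow, map_sum]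
    congr 1
    refine Finset.sum_congr rfl fun j _ => ?_
    have : (Polynomial.C t) ^ j * Polynomial.X ^ (k - j) * ((k.choose j : ℕ) : Polynomial ℂ)
        = Polynomial.C (t ^ j * (k.choose j : ℂ)) * Polynomial.X ^ (k - j) := by
      rw [Polynomial.C_mul, Polynomial.C_pow, Polynomial.C_eq_natCast]
      ring
    rw [this, Φ_C_mul, Φ_X_pow]

/-! ### Hypercyclicity of each `T a`, `a ≠ 0` -/

lemma continuous_aux (R : Polynomial ℂ) (c : ℂ) (k : ℕ) :
    Continuous (fun s : ℂ => Φ (R * (Polynomial.C s * Polynomial.X + Polynomial.C c) ^ k)) := by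
  have h : ∀ s : ℂ, Φ (R * (Polynomial.C s * Polynomial.X + Polynomial.C c) ^ k)
      = ∑ j ∈ Finset.range (k + 1),
        s ^ j • Φ (R * (Polynomial.X ^ j * Polynomial.C c ^ (k - j)
          * ((k.choose j : ℕ) : Polynomial ℂ))) := by
    intro s
    rw [add_pow, Finset.mul_sum, map_sum]
    refine Finset.sum_congr rfl fun j _ => ?_
    rw [← Φ_C_mul]
    congr 1
    rw [mul_pow, Polynomial.C_pow]
    ring
  simp only [h]
  fun_prop

/-- Vectors near `0` that are sent near `E i` by `T (s⁻¹)`, `s → 0`. -/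
noncomputable def uvec (i : ℕ) (s : ℂ) : HS :=
  s • Φ (Polynomial.X ^ (i + 1) * (Polynomial.C s * Polynomial.X + Polynomial.C (-1)) ^ i)

noncomputable def vvec (i : ℕ) (s : ℂ) : HS :=
  Φ (Polynomial.X ^ i * (Polynomial.C s * Polynomial.X + Polynomial.C 1) ^ (i + 1))

lemma tendsto_uvec (i : ℕ) : Tendsto (uvec i) (𝓝[≠] 0) (𝓝 0) := by
  have hc : Continuous (uvec i) := continuous_id.smul (continuous_aux _ _ _)
  have := hc.tendsto 0
  have h0 : uvec i 0 = 0 := by simp [uvec]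
  rw [h0] at this
  exact this.mono_left nhdsWithin_le_nhds

lemma tendsto_vvec (i : ℕ) : Tendsto (vvec i) (𝓝[≠] 0) (𝓝 (E i)) := by
  have hc : Continuous (vvec i) := continuous_aux _ _ _
  have := hc.tendsto 0
  have h0 : vvec i 0 = E i := by simp [vvec, Φ_X_pow]
  rw [h0] at this
  exact this.mono_left nhdsWithin_le_nhds

lemma T_uvec (i : ℕ) (s : ℂ) (hs : s ≠ 0) : T s⁻¹ (uvec i s) = vvec i s := by
  unfold uvec vvec
  rw [map_smul, T_Φ, ← Φ_C_mul]
  congr 1
  have h1 : Polynomial.C s * Polynomial.C s⁻¹ = (1 : Polynomial ℂ) := by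
    rw [← Polynomial.C_mul, mul_inv_cancel₀ hs, Polynomial.C_1]
  simp only [Polynomial.mul_comp, Polynomial.pow_comp, Polynomial.add_comp, Polynomial.X_comp,
    Polynomial.C_comp]
  have h2 : Polynomial.C s * (Polynomial.X + Polynomial.C s⁻¹) + Polynomial.C (-1)
      = Polynomial.C s * Polynomial.X := by
    rw [mul_add, h1, Polynomial.C_neg, Polynomial.C_1]; ring
  have h3 : Polynomial.C s * (Polynomial.X + Polynomial.C s⁻¹)
      = Polynomial.C s * Polynomial.X + Polynomial.C 1 := by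
    rw [mul_add, h1, Polynomial.C_1]
  rw [h2]
  calc Polynomial.C s * ((Polynomial.X + Polynomial.C s⁻¹) ^ (i + 1)
        * (Polynomial.C s * Polynomial.X) ^ i)
      = Polynomial.X ^ i * (Polynomial.C s * (Polynomial.X + Polynomial.C s⁻¹)) ^ (i + 1) := by
        rw [mul_pow (Polynomial.C s) Polynomial.X, mul_pow (Polynomial.C s) (_ + _)]
        ring
    _ = _ := by rw [h3]

/-- The set of vectors reachable from `0`. -/
noncomputable def D : Submodule ℂ HS where
  carrier := {x | ∃ u : ℂ → HS, Tendsto u (𝓝[≠] 0) (𝓝 0) ∧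
    Tendsto (fun s => T s⁻¹ (u s)) (𝓝[≠] 0) (𝓝 x)}
  add_mem' := by
    rintro x y ⟨u, hu1, hu2⟩ ⟨v, hv1, hv2⟩
    refine ⟨fun s => u s + v s, ?_, ?_⟩
    · simpa using hu1.add hv1
    · simpa using hu2.add hv2
  zero_mem' := ⟨fun _ => 0, tendsto_const_nhds, by simp⟩
  smul_mem' := by
    rintro c x ⟨u, hu1, hu2⟩
    refine ⟨fun s => c • u s, ?_, ?_⟩
    · simpa using hu1.const_smul c
    · simpa using hu2.const_smul c

lemma E_mem_D (i : ℕ) : E i ∈ D := by
  refine ⟨uvec i, tendsto_uvec i, ?_⟩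
  refine (tendsto_vvec i).congr' ?_
  filter_upwards [self_mem_nhdsWithin] with s hs
  exact (T_uvec i s hs).symm

lemma single_mem_D (i : ℕ) (c : ℂ) : (lp.single 2 i c : HS) ∈ D := by
  have h1 : ((W i : ℝ) : ℂ) ≠ 0 := by exact_mod_cast (W_pos i).ne'
  have h2 : (i.factorial : ℂ) ≠ 0 := by exact_mod_cast i.factorial_ne_zero
  have h : (lp.single 2 i c : HS) = (c * ((W i : ℝ) : ℂ) / (i.factorial : ℂ)) • E i := by
    unfold E
    rw [smul_smul, ← lp.single_smul]
    congr 1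
    rw [smul_eq_mul]
    field_simp
  rw [h]
  exact D.smul_mem _ (E_mem_D i)

lemma dense_D : Dense (D : Set HS) := by
  intro x
  have h := lp.hasSum_single (p := 2) (by norm_num) x
  refine mem_closure_of_tendsto h (Eventually.of_forall fun s => ?_)
  exact D.sum_mem fun i _ => single_mem_D i _

instance : SecondCountableTopology HS := by
  have hsep : TopologicalSpace.IsSeparable (Set.univ : Set HS) := by
    have h1 : TopologicalSpace.IsSeparable
        (Submodule.span ℂ (Set.range fun i : ℕ => (lp.single 2 i (1 : ℂ) : HS)) : Set HS) :=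
      (Set.countable_range _).isSeparable.span
    refine h1.closure.mono ?_
    intro x _
    have h := lp.hasSum_single (p := 2) (by norm_num) x
    refine mem_closure_of_tendsto h (Eventually.of_forall fun s => ?_)
    refine Submodule.sum_mem _ fun i _ => ?_
    have : (lp.single 2 i (x i) : HS) = (x i) • (lp.single 2 i (1 : ℂ) : HS) := by
      rw [← lp.single_smul]; simp
    rw [this]
    exact Submodule.smul_mem _ _ (Submodule.subset_span ⟨i, rfl⟩)
  have : TopologicalSpace.SeparableSpace HS :=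
    TopologicalSpace.isSeparable_univ_iff.mp hsep
  exact UniformSpace.secondCountable_of_separable HS

lemma tendsto_seq (a : ℂ) (ha : a ≠ 0) :
    Tendsto (fun n : ℕ => ((n : ℂ) * a)⁻¹) atTop (𝓝[≠] 0) := by
  rw [tendsto_nhdsWithin_iff]
  constructor
  · have h : Tendsto (fun n : ℕ => ((n : ℂ))⁻¹ * a⁻¹) atTop (𝓝 (0 * a⁻¹)) :=
      (tendsto_inv_atTop_nhds_zero_nat (𝕜 := ℂ)).mul_const _
    rw [zero_mul] at h
    exact h.congr fun n => (mul_inv _ _).symm
  · filter_upwards [eventually_gt_atTop 0] with n hn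
    have : (n : ℂ) ≠ 0 := by exact_mod_cast hn.ne'
    exact inv_ne_zero (mul_ne_zero this ha)

/-- Topological transitivity of `T a`. -/
lemma transitive (a : ℂ) (ha : a ≠ 0) (U V : Set HS) (hU : IsOpen U) (hV : IsOpen V)
    (hUn : U.Nonempty) (hVn : V.Nonempty) : ∃ n : ℕ, ∃ x ∈ U, T (n * a) x ∈ V := by
  obtain ⟨q, hqU, hqD⟩ := dense_D.inter_open_nonempty U hU hUn
  obtain ⟨p, hpV, hpD⟩ := dense_D.inter_open_nonempty V hV hVn
  obtain ⟨u, hu1, hu2⟩ := hpD
  obtain ⟨v, hv1, hv2⟩ := hqD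
  have ha' : -a ≠ 0 := neg_ne_zero.mpr ha
  have s1 := tendsto_seq a ha
  have s2 := tendsto_seq (-a) ha'
  have k1 := hu1.comp s1
  have k2 := hu2.comp s1
  have k3 := hv1.comp s2
  have k4 := hv2.comp s2
  have l1 : Tendsto (fun n : ℕ => u (((n : ℂ) * a)⁻¹) + T (n * (-a)) (v (((n : ℂ) * (-a))⁻¹)))
      atTop (𝓝 q) := by
    have := k1.add k4
    simpa using this
  have l2 : Tendsto (fun n : ℕ => T (n * a)
      (u (((n : ℂ) * a)⁻¹) + T (n * (-a)) (v (((n : ℂ) * (-a))⁻¹)))) atTop (𝓝 p) := by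
    have := k2.add k3
    rw [add_zero] at this
    refine this.congr fun n => ?_
    simp only [Function.comp_apply, inv_inv, map_add]
    congr 1
    rw [← T_add_apply]
    have : (n : ℂ) * a + n * -a = 0 := by ring
    rw [this, T_zero]
    rfl
  have e1 := l1.eventually (hU.mem_nhds hqU)
  have e2 := l2.eventually (hV.mem_nhds hpV)
  obtain ⟨n, hn1, hn2⟩ := (e1.and e2).exists
  exact ⟨n, _, hn1, hn2⟩

/-- Birkhoff's argument: `T a` is hypercyclic for `a ≠ 0`. -/
lemma exists_hypercyclic (a : ℂ) (ha : a ≠ 0) :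
    ∃ y : HS, Dense (Set.range (fun n : ℕ => (⇑(T a))^[n] y)) := by
  set B := TopologicalSpace.countableBasis HS with hB
  have hBc : B.Countable := TopologicalSpace.countable_countableBasis HS
  have hopen : ∀ V ∈ B, IsOpen (⋃ n : ℕ, (T (n * a)) ⁻¹' V) := by
    intro V hV
    refine isOpen_iUnion fun n => ?_
    exact (TopologicalSpace.isOpen_of_mem_countableBasis hV).preimage (T (n * a)).continuous
  have hdense : ∀ V ∈ B, Dense (⋃ n : ℕ, (T (n * a)) ⁻¹' V) := by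
    intro V hV
    rw [dense_iff_inter_open]
    intro U hU hUn
    obtain ⟨n, x, hx, hxV⟩ := transitive a ha U V hU
      (TopologicalSpace.isOpen_of_mem_countableBasis hV) hUn
      (TopologicalSpace.nonempty_of_mem_countableBasis hV)
    exact ⟨x, hx, Set.mem_iUnion.mpr ⟨n, hxV⟩⟩
  have hd := dense_biInter_of_isOpen hopen hBc hdense
  obtain ⟨y, hy⟩ := hd.nonempty
  refine ⟨y, ?_⟩
  rw [(TopologicalSpace.isBasis_countableBasis HS).dense_iff]
  intro V hV _
  have := Set.mem_iInter₂.mp hy V hV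
  obtain ⟨n, hn⟩ := Set.mem_iUnion.mp this
  refine ⟨T (n * a) y, hn, n, ?_⟩
  exact T_iterate a n y

/-! ### No common hypercyclic vector -/

/-- The entire function represented by `x`. -/
noncomputable def f (x : HS) (z : ℂ) : ℂ := (T z x) 0

/-- Taylor coefficients of `f x`. -/
noncomputable def coef (x : HS) (n : ℕ) : ℂ := (n.factorial : ℂ)⁻¹ * (((W n : ℝ) : ℂ) * x n)

lemma f_add (x : HS) (z u : ℂ) : f x (u + z) = f (T u x) z := by
  unfold f
  rw [add_comm, T_add_apply]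

lemma f_hasSum (x : HS) (z : ℂ) : HasSum (fun n : ℕ => coef x n * z ^ n) (f x z) := by
  have h := (T_hasSum z x).mapL (lp.evalCLM (𝕜 := ℂ) (fun _ : ℕ => ℂ) 2 0)
  have h2 : ∀ n : ℕ, (lp.evalCLM (𝕜 := ℂ) (fun _ : ℕ => ℂ) 2 0)
      (((n.factorial : ℂ)⁻¹ * z ^ n) • (A ^ n) x) = coef x n * z ^ n := by
    intro n
    have : (lp.evalCLM (𝕜 := ℂ) (fun _ : ℕ => ℂ) 2 0)
      (((n.factorial : ℂ)⁻¹ * z ^ n) • (A ^ n) x)
        = ((n.factorial : ℂ)⁻¹ * z ^ n) * ((A ^ n) x) 0 := rfl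
    rw [this, A_pow_apply_zero]
    unfold coef
    ring
  simp only [h2] at h
  exact h

lemma f_sub (x y : HS) (z : ℂ) : f (x - y) z = f x z - f y z := by
  unfold f
  rw [map_sub]
  rfl

lemma norm_coef_le (x : HS) (n : ℕ) : ‖coef x n‖ ≤ ‖x‖ * (1 / 2 : ℝ) ^ (n * (n - 1)) := by
  unfold coef
  rw [norm_mul, norm_mul, Complex.norm_real, Real.norm_of_nonneg (W_pos n).le, W_eq, norm_inv,
    Complex.norm_natCast]
  have h1 : ((n.factorial : ℝ))⁻¹ ≤ 1 := by
    apply inv_le_one_of_one_le₀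
    exact_mod_cast n.factorial_pos
  have h2 : ‖x n‖ ≤ ‖x‖ := lp.norm_apply_le_norm (by norm_num) x n
  have h3 : 0 ≤ (1 / 2 : ℝ) ^ (n * (n - 1)) := by positivity
  calc ((n.factorial : ℝ))⁻¹ * ((1 / 2 : ℝ) ^ (n * (n - 1)) * ‖x n‖)
      ≤ 1 * ((1 / 2 : ℝ) ^ (n * (n - 1)) * ‖x‖) := by
        gcongr
    _ = ‖x‖ * (1 / 2 : ℝ) ^ (n * (n - 1)) := by ring

lemma norm_f_le (x : HS) (z : ℂ) (hz : ‖z‖ ≤ 1) : ‖f x z‖ ≤ 4 * ‖x‖ := by
  have hb : ∀ n : ℕ, ‖coef x n * z ^ n‖ ≤ (2 * ‖x‖) * (1 / 2 : ℝ) ^ n := by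
    intro n
    rw [norm_mul, norm_pow]
    have h1 := norm_coef_le x n
    have h2 : ‖z‖ ^ n ≤ 1 := pow_le_one₀ (norm_nonneg _) hz
    have h3 : (1 / 2 : ℝ) ^ (n * (n - 1)) ≤ 2 * (1 / 2 : ℝ) ^ n := by
      rcases Nat.lt_or_ge n 2 with hn | hn
      · interval_cases n <;> norm_num
      · have h5 : n ≤ n * (n - 1) := Nat.le_mul_of_pos_right n (by omega)
        have h4 : (1 / 2 : ℝ) ^ (n * (n - 1)) ≤ (1 / 2 : ℝ) ^ n :=
          pow_le_pow_of_le_one (by norm_num) (by norm_num) h5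
        have : 0 ≤ (1 / 2 : ℝ) ^ n := by positivity
        linarith
    calc ‖coef x n‖ * ‖z‖ ^ n ≤ (‖x‖ * (1 / 2 : ℝ) ^ (n * (n - 1))) * 1 := by
          gcongr
      _ ≤ (‖x‖ * (2 * (1 / 2 : ℝ) ^ n)) * 1 := by gcongr
      _ = (2 * ‖x‖) * (1 / 2 : ℝ) ^ n := by ring
  have hs : HasSum (fun n : ℕ => (2 * ‖x‖) * (1 / 2 : ℝ) ^ n) ((2 * ‖x‖) * 2) :=
    hasSum_geometric_two.mul_left _
  have := tsum_of_norm_bounded hs hb
  rw [(f_hasSum x z).tsum_eq] at this
  linarith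

/-- The Taylor polynomial of degree `K + 1` of `f x`. -/
noncomputable def P (x : HS) (K : ℕ) : Polynomial ℂ :=
  ∑ j ∈ Finset.range (K + 2), Polynomial.C (coef x j) * Polynomial.X ^ j

lemma P_natDegree (x : HS) (K : ℕ) : (P x K).natDegree ≤ K + 1 := by
  unfold P
  apply Polynomial.natDegree_sum_le_of_forall_le
  intro j hj
  rw [Finset.mem_range] at hj
  exact (Polynomial.natDegree_C_mul_X_pow_le _ _).trans (by omega)

lemma P_eval (x : HS) (K : ℕ) (z : ℂ) :
    (P x K).eval z = ∑ j ∈ Finset.range (K + 2), coef x j * z ^ j := by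
  unfold P
  rw [Polynomial.eval_finsetSum]
  simp

lemma norm_f_sub_P (x : HS) (K : ℕ) (z : ℂ) (hz : ‖z‖ ≤ 2 ^ K) :
    ‖f x z - (P x K).eval z‖ ≤ ‖x‖ * (1 / 2 : ℝ) ^ (K + 1) := by
  have h := (hasSum_nat_add_iff' (K + 2)).mpr (f_hasSum x z)
  rw [← P_eval] at h
  have hb : ∀ n : ℕ, ‖coef x (n + (K + 2)) * z ^ (n + (K + 2))‖
      ≤ (‖x‖ * (1 / 2 : ℝ) ^ (K + 2)) * (1 / 2 : ℝ) ^ n := by
    intro n
    rw [norm_mul, norm_pow]
    set m := n + (K + 2) with hm
    have h1 := norm_coef_le x m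
    have h2 : ‖z‖ ^ m ≤ ((2 : ℝ) ^ K) ^ m := pow_le_pow_left₀ (norm_nonneg _) hz m
    have h3 : (1 / 2 : ℝ) ^ (m * (m - 1)) ≤ (1 / 2 : ℝ) ^ (K * m + m) := by
      apply pow_le_pow_of_le_one (by norm_num) (by norm_num)
      have h6 : K + 1 ≤ m - 1 := by omega
      calc K * m + m = m * (K + 1) := by ring
        _ ≤ m * (m - 1) := Nat.mul_le_mul_left m h6
    have h4 : (1 / 2 : ℝ) ^ (K * m + m) * ((2 : ℝ) ^ K) ^ m = (1 / 2 : ℝ) ^ m := by
      rw [pow_add, ← pow_mul, mul_right_comm, ← mul_pow]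
      norm_num
    calc ‖coef x m‖ * ‖z‖ ^ m ≤ (‖x‖ * (1 / 2 : ℝ) ^ (m * (m - 1))) * ((2 : ℝ) ^ K) ^ m := by
          gcongr
      _ ≤ (‖x‖ * (1 / 2 : ℝ) ^ (K * m + m)) * ((2 : ℝ) ^ K) ^ m := by gcongr
      _ = ‖x‖ * ((1 / 2 : ℝ) ^ (K * m + m) * ((2 : ℝ) ^ K) ^ m) := by ring
      _ = ‖x‖ * (1 / 2 : ℝ) ^ m := by rw [h4]
      _ = (‖x‖ * (1 / 2 : ℝ) ^ (K + 2)) * (1 / 2 : ℝ) ^ n := by rw [hm, pow_add]; ring
  have hs : HasSum (fun n : ℕ => (‖x‖ * (1 / 2 : ℝ) ^ (K + 2)) * (1 / 2 : ℝ) ^ n)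
      ((‖x‖ * (1 / 2 : ℝ) ^ (K + 2)) * 2) := hasSum_geometric_two.mul_left _
  have := tsum_of_norm_bounded hs hb
  rw [h.tsum_eq] at this
  calc ‖f x z - (P x K).eval z‖ ≤ (‖x‖ * (1 / 2 : ℝ) ^ (K + 2)) * 2 := this
    _ = ‖x‖ * (1 / 2 : ℝ) ^ (K + 1) := by rw [pow_succ (1 / 2 : ℝ) (K + 1)]; ring

lemma f_E_one (z : ℂ) : f (E 1) z = z := by
  unfold f
  rw [T_E]
  simp only [Finset.sum_range_succ, Finset.range_zero, Finset.sum_empty]
  have h : ((0 : HS) + (z ^ 0 * ((Nat.choose 1 0 : ℕ) : ℂ)) • E (1 - 0)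
      + (z ^ 1 * ((Nat.choose 1 1 : ℕ) : ℂ)) • E (1 - 1) : HS) 0
      = 0 + (z ^ 0 * ((Nat.choose 1 0 : ℕ) : ℂ)) * (E (1 - 0)) 0
        + (z ^ 1 * ((Nat.choose 1 1 : ℕ) : ℂ)) * (E (1 - 1)) 0 := rfl
  rw [h, E_apply, E_apply]
  simp [W_zero]

/-- A polynomial that is uniformly close to `z ↦ z` near `u` has a zero near `u`. -/
lemma exists_root_near (p : Polynomial ℂ) (u : ℂ)
    (h : ∀ z : ℂ, ‖z‖ ≤ 1 → ‖p.eval (u + z) - z‖ ≤ 1 / 5) :
    ∃ a : ℂ, p.eval a = 0 ∧ ‖a - u‖ ≤ 1 := by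
  have h0 : ‖p.eval u‖ ≤ 1 / 5 := by simpa using h 0 (by simp)
  have hs : ∀ z ∈ Metric.sphere u 1, 3 / 5 ≤ ‖p.eval z - p.eval u‖ := by
    intro z hz
    rw [mem_sphere_iff_norm] at hz
    have h1 := h (z - u) hz.le
    rw [add_sub_cancel] at h1
    have h2 : z - u = (p.eval z - p.eval u) - (p.eval z - (z - u)) + p.eval u := by ring
    have h3 : ‖z - u‖ ≤ ‖p.eval z - p.eval u‖ + ‖p.eval z - (z - u)‖ + ‖p.eval u‖ := by
      conv_lhs => rw [h2]
      exact (norm_add_le _ _).trans (by gcongr; exact norm_sub_le _ _)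
    rw [hz] at h3
    linarith
  have hd : DiffContOnCl ℂ (fun z => p.eval z) (Metric.ball u 1) :=
    p.differentiable.diffContOnCl
  have hfreq : ∃ᶠ z in 𝓝 u, p.eval z ≠ p.eval u := by
    by_contra hcon
    rw [Filter.not_frequently] at hcon
    simp only [not_not] at hcon
    -- then `p` is constant
    have hconst : p = Polynomial.C (p.eval u) := by
      apply Polynomial.eq_of_infinite_eval_eq
      obtain ⟨ε, hε, hball⟩ := Metric.eventually_nhds_iff_ball.mp hcon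
      apply Set.Infinite.mono (s := Metric.ball u ε)
      · intro z hz
        simp [hball z hz]
      · exact infinite_of_mem_nhds u (Metric.ball_mem_nhds u hε)
    have h1 := hs (u + 1) (by simp)
    rw [hconst] at h1
    norm_num at h1
  have himg := hd.ball_subset_image_closedBall (by norm_num) hs hfreq
  have hmem : (0 : ℂ) ∈ Metric.ball (p.eval u) (3 / 5 / 2) := by
    rw [mem_ball_iff_norm, zero_sub, norm_neg]
    linarith
  obtain ⟨a, ha, hpa⟩ := himg hmem
  exact ⟨a, hpa, mem_closedBall_iff_norm.mp ha⟩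


/-- If `T (n (1 + i s)) y` is close to `E 1` then the Taylor polynomial of `f y` has a zero near
`n (1 + i s)`. -/
lemma exists_root_of_close (y : HS) (K : ℕ) (u : ℂ) (hu : ‖u‖ + 1 ≤ 2 ^ K)
    (hK : ‖y‖ * (1 / 2 : ℝ) ^ (K + 1) ≤ 1 / 10) (hclose : ‖T u y - E 1‖ < 1 / 40) :
    ∃ a : ℂ, a ∈ (P y K).roots ∧ ‖a - u‖ ≤ 1 := by
  have h : ∀ z : ℂ, ‖z‖ ≤ 1 → ‖(P y K).eval (u + z) - z‖ ≤ 1 / 5 := by
    intro z hz
    have h1 : ‖f y (u + z) - (P y K).eval (u + z)‖ ≤ 1 / 10 := by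
      refine (norm_f_sub_P y K (u + z) ?_).trans hK
      exact (norm_add_le _ _).trans (by linarith)
    have h2 : ‖f y (u + z) - z‖ ≤ 1 / 10 := by
      have h3 := norm_f_le (T u y - E 1) z hz
      rw [f_sub, f_E_one, ← f_add] at h3
      linarith
    have h4 : (P y K).eval (u + z) - z
        = (f y (u + z) - z) - (f y (u + z) - (P y K).eval (u + z)) := by ring
    rw [h4]
    refine (norm_sub_le _ _).trans ?_
    linarith
  obtain ⟨a, ha, hau⟩ := exists_root_near _ u h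
  refine ⟨a, ?_, hau⟩
  rw [Polynomial.mem_roots']
  refine ⟨?_, ha⟩
  intro h0
  have h1 := h 1 (by simp)
  rw [h0] at h1
  norm_num at h1

/-- Directions `s ∈ [0,1]` for which `n (1 + i s)` comes within `1` of `a` for some `n ≥ 2 ^ k`. -/
def R (k : ℕ) (a : ℂ) : Set ℝ :=
  {s | s ∈ Set.Icc (0 : ℝ) 1 ∧ ∃ n : ℕ, 2 ^ k ≤ n ∧ ‖a - (n : ℂ) * (1 + Complex.I * (s : ℂ))‖ ≤ 1}

lemma R_dist (k : ℕ) (a : ℂ) (s t : ℝ) (hs : s ∈ R k a) (ht : t ∈ R k a) :
    |s - t| ≤ 4 / 2 ^ k := by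
  obtain ⟨hs1, n, hn, hna⟩ := hs
  obtain ⟨ht1, m, hm, hma⟩ := ht
  have hkpos : (0 : ℝ) < 2 ^ k := by positivity
  have hnR : (2 : ℝ) ^ k ≤ n := by exact_mod_cast hn
  have hmR : (2 : ℝ) ^ k ≤ m := by exact_mod_cast hm
  have hnpos : (0 : ℝ) < n := lt_of_lt_of_le hkpos hnR
  have hd : ‖(n : ℂ) * (1 + Complex.I * (s : ℂ)) - (m : ℂ) * (1 + Complex.I * (t : ℂ))‖ ≤ 2 := by
    have h1 : (n : ℂ) * (1 + Complex.I * (s : ℂ)) - (m : ℂ) * (1 + Complex.I * (t : ℂ))
        = (a - (m : ℂ) * (1 + Complex.I * (t : ℂ))) - (a - (n : ℂ) * (1 + Complex.I * (s : ℂ))) := by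
      ring
    rw [h1]
    refine (norm_sub_le _ _).trans ?_
    linarith
  have hre : |(n : ℝ) - m| ≤ 2 := by
    have := (Complex.abs_re_le_norm _).trans hd
    simpa using this
  have him : |(n : ℝ) * s - m * t| ≤ 2 := by
    have := (Complex.abs_im_le_norm _).trans hd
    simpa using this
  -- `n (s - t) = (n s - m t) - (n - m) t`
  have h2 : (n : ℝ) * (s - t) = ((n : ℝ) * s - m * t) - ((n : ℝ) - m) * t := by ring
  have h3 : |(n : ℝ) * (s - t)| ≤ 4 := by
    rw [h2]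
    refine (abs_sub _ _).trans ?_
    rw [abs_mul, abs_of_nonneg ht1.1]
    have : |(n : ℝ) - m| * t ≤ 2 * 1 := by
      apply mul_le_mul hre ht1.2 ht1.1 (by norm_num)
    linarith
  rw [abs_mul, abs_of_pos hnpos] at h3
  rw [le_div_iff₀ hkpos]
  calc |s - t| * 2 ^ k ≤ |s - t| * n := by gcongr
    _ = n * |s - t| := by ring
    _ ≤ 4 := h3

lemma volume_R_le (k : ℕ) (a : ℂ) :
    MeasureTheory.volume (R k a) ≤ ENNReal.ofReal (4 / 2 ^ k) := by
  refine (Real.volume_le_diam _).trans ?_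
  apply Metric.ediam_le
  intro s hs t ht
  rw [edist_dist, Real.dist_eq]
  exact ENNReal.ofReal_le_ofReal (R_dist k a s t hs ht)

/-- Directions `s` whose orbit comes near `E 1` at a time `n ∈ [2^k, 2^(k+1))`. -/
def S (y : HS) (k : ℕ) : Set ℝ :=
  {s | s ∈ Set.Icc (0 : ℝ) 1 ∧ ∃ n : ℕ, 2 ^ k ≤ n ∧ n < 2 ^ (k + 1) ∧
    ‖T ((n : ℂ) * (1 + Complex.I * (s : ℂ))) y - E 1‖ < 1 / 40}

lemma volume_S_le (y : HS) (k : ℕ) (hk : ‖y‖ * (1 / 2 : ℝ) ^ (k + 4) ≤ 1 / 10) :
    MeasureTheory.volume (S y k) ≤ ENNReal.ofReal ((k + 4) * (4 / 2 ^ k)) := by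
  classical
  have hsub : S y k ⊆ ⋃ a ∈ (P y (k + 3)).roots.toFinset, R k a := by
    rintro s ⟨hs, n, hn1, hn2, hclose⟩
    have hn2R : (n : ℝ) ≤ 2 ^ (k + 1) := by exact_mod_cast hn2.le
    have hnorm : ‖(n : ℂ) * (1 + Complex.I * (s : ℂ))‖ + 1 ≤ 2 ^ (k + 3) := by
      rw [norm_mul, Complex.norm_natCast]
      have h1 : ‖(1 : ℂ) + Complex.I * (s : ℂ)‖ ≤ 2 := by
        refine (norm_add_le _ _).trans ?_
        rw [norm_mul, Complex.norm_I, Complex.norm_real, Real.norm_of_nonneg hs.1, norm_one]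
        linarith [hs.2]
      have h2 : (1 : ℝ) ≤ 2 ^ (k + 1) := one_le_pow₀ (by norm_num)
      calc (n : ℝ) * ‖(1 : ℂ) + Complex.I * (s : ℂ)‖ + 1 ≤ 2 ^ (k + 1) * 2 + 2 ^ (k + 1) := by
            gcongr
        _ ≤ 2 ^ (k + 3) := by
            have h3 : (0 : ℝ) < 2 ^ k := by positivity
            rw [pow_add 2 k 1, pow_add 2 k 3]
            norm_num
            linarith
    obtain ⟨a, ha, hau⟩ := exists_root_of_close y (k + 3) _ hnorm hk hclose
    simp only [Set.mem_iUnion]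
    exact ⟨a, Multiset.mem_toFinset.mpr ha, hs, n, hn1, hau⟩
  refine (MeasureTheory.measure_mono hsub).trans ?_
  refine (MeasureTheory.measure_biUnion_finset_le _ _).trans ?_
  refine (Finset.sum_le_sum fun a _ => volume_R_le k a).trans ?_
  rw [Finset.sum_const, nsmul_eq_mul]
  have hcard : ((P y (k + 3)).roots.toFinset.card : ℝ) ≤ (k : ℝ) + 4 := by
    have h1 : (P y (k + 3)).roots.toFinset.card ≤ k + 4 :=
      (Multiset.toFinset_card_le _).trans ((Polynomial.card_roots' _).trans (P_natDegree y (k + 3)))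
    exact_mod_cast h1
  have h2 : (((P y (k + 3)).roots.toFinset.card : ℕ) : ENNReal)
      = ENNReal.ofReal ((P y (k + 3)).roots.toFinset.card : ℝ) := by
    rw [ENNReal.ofReal_natCast]
  rw [h2, ← ENNReal.ofReal_mul (by positivity)]
  apply ENNReal.ofReal_le_ofReal
  gcongr

lemma frequently_close (y : HS) (a : ℂ) (hy : Dense (Set.range (fun n : ℕ => (⇑(T a))^[n] y)))
    (M : ℕ) : ∃ n : ℕ, M ≤ n ∧ ‖T ((n : ℂ) * a) y - E 1‖ < 1 / 40 := by
  classical
  have hnt : Nontrivial HS := by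
    refine ⟨⟨E 1, 0, ?_⟩⟩
    intro h
    have h1 : (E 1) 1 = (0 : HS) 1 := by rw [h]
    rw [E_apply] at h1
    simp [W_one] at h1
  have hne : ∀ x : HS, (𝓝[≠] x).NeBot := fun x => Module.punctured_nhds_neBot ℂ HS x
  have hd := hy.sdiff_finset ((Finset.range M).image (fun n : ℕ => (⇑(T a))^[n] y))
  obtain ⟨x, hx1, hx2⟩ := hd.exists_dist_lt (E 1) (show (0 : ℝ) < 1 / 40 by norm_num)
  obtain ⟨⟨n, rfl⟩, hx3⟩ := hx1
  refine ⟨n, ?_, ?_⟩
  · by_contra hcon
    push Not at hcon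
    apply hx3
    simp only [Finset.coe_image, Set.mem_image, Finset.mem_coe, Finset.mem_range]
    exact ⟨n, hcon, rfl⟩
  · rw [dist_comm, dist_eq_norm] at hx2
    simpa [T_iterate] using hx2

/-- There is no common hypercyclic vector. -/
lemma no_common (y : HS)
    (hy : ∀ z : ℂ, z ≠ 0 → Dense (Set.range (fun n : ℕ => (⇑(T z))^[n] y))) : False := by
  -- choose `k₀` such that the tail bound holds
  have hlim : Tendsto (fun k : ℕ => ‖y‖ * (1 / 2 : ℝ) ^ (k + 4)) atTop (𝓝 (‖y‖ * 0)) := by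
    apply Tendsto.const_mul
    exact (tendsto_pow_atTop_nhds_zero_of_lt_one (by norm_num) (by norm_num)).comp
      (tendsto_add_atTop_nat 4)
  rw [mul_zero] at hlim
  obtain ⟨k₀, hk₀⟩ := (hlim.eventually (eventually_le_nhds (show (0 : ℝ) < 1 / 10 by norm_num))
    ).exists_forall_of_atTop
  -- the Borel-Cantelli lemma
  have hsum : ∑' k : ℕ, MeasureTheory.volume (S y (k + k₀)) ≠ ⊤ := by
    have hle : ∀ k : ℕ, MeasureTheory.volume (S y (k + k₀))
        ≤ ENNReal.ofReal ((((k + k₀ : ℕ) : ℝ) + 4) * (4 / 2 ^ (k + k₀))) := by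
      intro k
      exact volume_S_le y (k + k₀) (hk₀ (k + k₀) (by omega))
    have hsm : Summable (fun k : ℕ => ((k : ℝ) + 4) * (4 / 2 ^ k)) := by
      have h1 : Summable (fun k : ℕ => (k : ℝ) ^ 1 * (1 / 2 : ℝ) ^ k) :=
        summable_pow_mul_geometric_of_norm_lt_one 1 (by norm_num)
      have h2 : Summable (fun k : ℕ => (1 / 2 : ℝ) ^ k) := summable_geometric_two
      have h3 := (h1.mul_left 4).add (h2.mul_left 16)
      refine h3.congr fun k => ?_
      rw [one_div, inv_pow]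
      field_simp
      ring
    have hsm2 : Summable (fun k : ℕ => (((k + k₀ : ℕ) : ℝ) + 4) * (4 / 2 ^ (k + k₀))) :=
      (summable_nat_add_iff (f := fun k : ℕ => ((k : ℝ) + 4) * (4 / 2 ^ k)) k₀).mpr hsm
    refine ne_top_of_le_ne_top ?_ (ENNReal.tsum_le_tsum hle)
    rw [← ENNReal.ofReal_tsum_of_nonneg (fun k => by positivity) hsm2]
    exact ENNReal.ofReal_ne_top
  have hzero := MeasureTheory.measure_limsup_atTop_eq_zero hsum
  have hsub : Set.Icc (0 : ℝ) 1 ⊆ limsup (fun k : ℕ => S y (k + k₀)) atTop := by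
    intro s hs
    rw [Filter.mem_limsup_iff_frequently_mem, Filter.frequently_atTop]
    intro M
    have ha : (1 : ℂ) + Complex.I * (s : ℂ) ≠ 0 := by
      intro h
      have := congrArg Complex.re h
      simp at this
    obtain ⟨n, hn, hclose⟩ := frequently_close y _ (hy _ ha) (2 ^ (M + k₀))
    have hn0 : n ≠ 0 := by
      have : 0 < 2 ^ (M + k₀) := by positivity
      omega
    have hlog1 : 2 ^ Nat.log 2 n ≤ n := Nat.pow_log_le_self 2 hn0
    have hlog2 : n < 2 ^ (Nat.log 2 n + 1) := Nat.lt_pow_succ_log_self (by norm_num) n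
    have hlog3 : M + k₀ ≤ Nat.log 2 n := Nat.le_log_of_pow_le (by norm_num) hn
    refine ⟨Nat.log 2 n - k₀, by omega, ?_⟩
    have e : Nat.log 2 n - k₀ + k₀ = Nat.log 2 n := by omega
    simp only [e]
    exact ⟨hs, n, hlog1, hlog2, hclose⟩
  have h1 := MeasureTheory.measure_mono (μ := MeasureTheory.volume) hsub
  rw [hzero, Real.volume_Icc] at h1
  norm_num at h1


/-- The statement to be refuted, specialised to Banach spaces. -/
lemma specialise
    (H : ∀ (X : Type) [AddCommGroup X] [Module ℂ X] [UniformSpace X] [IsUniformAddGroup X]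
      [ContinuousSMul ℂ X] [LocallyConvexSpace ℝ X] [CompleteSpace X]
      [TopologicalSpace.MetrizableSpace X] (T : ℂ → (X →L[ℂ] X)),
      T 0 = ContinuousLinearMap.id ℂ X →
      (∀ z w : ℂ, T (z + w) = (T z).comp (T w)) →
      (∀ x : X, Continuous (fun z : ℂ => T z x)) →
      (∀ (x : X) (z : ℂ), ∃ v : X,
        Tendsto (fun h : ℂ => h⁻¹ • (T (z + h) x - T z x)) (𝓝[≠] (0 : ℂ)) (𝓝 v)) →
      (∀ z : ℂ, z ≠ 0 → ∃ y : X, Dense (Set.range (fun n : ℕ => (⇑(T z))^[n] y))) →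
      ∃ y : X, ∀ z : ℂ, z ≠ 0 → Dense (Set.range (fun n : ℕ => (⇑(T z))^[n] y)))
    (X : Type) [NormedAddCommGroup X] [NormedSpace ℂ X] [CompleteSpace X] (T : ℂ → (X →L[ℂ] X))
    (h0 : T 0 = ContinuousLinearMap.id ℂ X)
    (hadd : ∀ z w : ℂ, T (z + w) = (T z).comp (T w))
    (hcont : ∀ x : X, Continuous (fun z : ℂ => T z x))
    (hder : ∀ (x : X) (z : ℂ), ∃ v : X, HasDerivAt (fun z : ℂ => T z x) v z)
    (hhyp : ∀ z : ℂ, z ≠ 0 → ∃ y : X, Dense (Set.range (fun n : ℕ => (⇑(T z))^[n] y))) :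
    ∃ y : X, ∀ z : ℂ, z ≠ 0 → Dense (Set.range (fun n : ℕ => (⇑(T z))^[n] y)) := by
  have hlc : @LocallyConvexSpace ℝ X _ _ _ (Module.complexToReal X) _ :=
    @NormedSpace.toLocallyConvexSpace X _ (NormedSpace.complexToReal)
  refine H X T h0 hadd hcont (fun x z => ?_) hhyp
  obtain ⟨v, hv⟩ := hder x z
  exact ⟨v, hasDerivAt_iff_tendsto_slope_zero.mp hv⟩

/-- The negation of the preceding statement: For a complex Fréchet space X and a holomorphic, strongly continuous group of operators T_z (z in ℂ) with every T_z, z ≠ 0, hypercyclic, some single vector has a dense T_z-orbit for every nonzero z. -/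
theorem result :
    ¬ (∀ (X : Type) [AddCommGroup X] [Module ℂ X] [UniformSpace X] [IsUniformAddGroup X]
      [ContinuousSMul ℂ X] [LocallyConvexSpace ℝ X] [CompleteSpace X]
      [TopologicalSpace.MetrizableSpace X] (T : ℂ → (X →L[ℂ] X)),
      T 0 = ContinuousLinearMap.id ℂ X →
      (∀ z w : ℂ, T (z + w) = (T z).comp (T w)) →
      (∀ x : X, Continuous (fun z : ℂ => T z x)) →
      (∀ (x : X) (z : ℂ), ∃ v : X,
        Tendsto (fun h : ℂ => h⁻¹ • (T (z + h) x - T z x)) (𝓝[≠] (0 : ℂ)) (𝓝 v)) →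
      (∀ z : ℂ, z ≠ 0 → ∃ y : X, Dense (Set.range (fun n : ℕ => (⇑(T z))^[n] y))) →
      ∃ y : X, ∀ z : ℂ, z ≠ 0 → Dense (Set.range (fun n : ℕ => (⇑(T z))^[n] y))) := by
  intro H
  obtain ⟨y, hy⟩ := specialise H HS T T_zero T_add T_continuous
    (fun x z => ⟨(T z * A) x, T_hasDerivAt x z⟩) exists_hypercyclic
  exact no_common y hy

end Pool.Agent.S04202
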