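import Pool.Statements.S04415
import Pool.Agent.Lib.MP_3d22c5_an.Final

set_option autoImplicit false
open scoped TensorProduct
open Pool Pool.MP_3d22c5_an

namespace Pool.Agent.S04415

/-- If the rational 2-step nilpotent Lie algebra of a finite graph has an automorphism with integral char poly, constant term ±1 and no eigenvalue of modulus 1, then so does every rational Lie algebra whose real form is isomorphic to its real form. -/
theorem result :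
    ∀ (n : ℕ) (G : SimpleGraph (Fin n)) (N : Type) [LieRing N] [LieAlgebra ℚ N]
      [FiniteDimensional ℚ N] (b : Module.Basis (Fin n ⊕ G.edgeSet) ℚ N),
      (∀ (i j : Fin n) (h : G.Adj i j), i < j →
          ⁅b (Sum.inl i), b (Sum.inl j)⁆ = b (Sum.inr ⟨s(i, j), G.mem_edgeSet.mpr h⟩)) →
      (∀ i j : Fin n, ¬ G.Adj i j → ⁅b (Sum.inl i), b (Sum.inl j)⁆ = 0) →
      (∀ (e : G.edgeSet) (k : Fin n ⊕ G.edgeSet), ⁅b (Sum.inr e), b k⁆ = 0) →
      (∃ f : N ≃ₗ⁅ℚ⁆ N, ∃ p : Polynomial ℤ,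
          p.map (Int.castRingHom ℚ) = LinearMap.charpoly f.toLinearEquiv.toLinearMap ∧
          (p.coeff 0 = 1 ∨ p.coeff 0 = -1) ∧
          ∀ z : ℂ, (p.map (Int.castRingHom ℂ)).IsRoot z → ‖z‖ ≠ 1) →
      ∀ (M : Type) [LieRing M] [LieAlgebra ℚ M] [FiniteDimensional ℚ M],
        Nonempty ((ℝ ⊗[ℚ] M) ≃ₗ⁅ℝ⁆ (ℝ ⊗[ℚ] N)) →
        ∃ g : M ≃ₗ⁅ℚ⁆ M, ∃ q : Polynomial ℤ,
          q.map (Int.castRingHom ℚ) = LinearMap.charpoly g.toLinearEquiv.toLinearMap ∧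
          (q.coeff 0 = 1 ∨ q.coeff 0 = -1) ∧
          ∀ z : ℂ, (q.map (Int.castRingHom ℂ)).IsRoot z → ‖z‖ ≠ 1 := by
  intro n G N _ _ _ b h1 h2 h3 hf M _ _ _ hΦ
  obtain ⟨Φ⟩ := hΦ
  obtain ⟨f, p, hp, hp0, hroots⟩ := hf
  exact Pool.Agent.Lib.MP_3d22c5_an.final (b := b) ⟨h1, h2, h3⟩ f p hp hp0 hroots M Φ

end Pool.Agent.S04415
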