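import Pool.Statements.S04769
import Pool.Agent.Lib.MP_5c3535_an.Final

set_option autoImplicit false
open Pool Pool.MP_5c3535_an

namespace Pool.Agent.S04769

open Pool.Agent.Lib.MP_5c3535_an in

/-- Either some nonseparable C*-algebra with a norm-dense directed union of finite-dimensional *-subalgebras has no *-isomorphism onto its opposite, or some hyperfinite von Neumann algebra with nonseparable predual has none. -/
theorem result :
    (∃ (A : Type) (_ : NonUnitalCStarAlgebra A),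
      ¬ TopologicalSpace.SeparableSpace A ∧
      (∃ S : Set (NonUnitalStarSubalgebra ℂ A), DirectedOn (· ≤ ·) S ∧
        (∀ s ∈ S, FiniteDimensional ℂ (Submodule.span ℂ (s : Set A))) ∧
        Dense (⋃ s ∈ S, (s : Set A))) ∧
      IsEmpty (A ≃⋆ₐ[ℂ] Aᵐᵒᵖ)) ∨
    (∃ (H : Type) (_ : NormedAddCommGroup H) (_ : InnerProductSpace ℂ H) (_ : CompleteSpace H)
      (M : VonNeumannAlgebra H),
      (∃ S : Set (StarSubalgebra ℂ (H →L[ℂ] H)), DirectedOn (· ≤ ·) S ∧
        (∀ s ∈ S, FiniteDimensional ℂ (Submodule.span ℂ (s : Set (H →L[ℂ] H)))) ∧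
        Set.centralizer (Set.centralizer (⋃ s ∈ S, (s : Set (H →L[ℂ] H))))
          = (M.toStarSubalgebra : Set (H →L[ℂ] H))) ∧
      (¬ ∃ (K : Type) (_ : NormedAddCommGroup K) (_ : InnerProductSpace ℂ K) (_ : CompleteSpace K)
          (_ : TopologicalSpace.SeparableSpace K) (N : VonNeumannAlgebra K),
          Nonempty (M.toStarSubalgebra ≃⋆ₐ[ℂ] N.toStarSubalgebra)) ∧
      IsEmpty (M.toStarSubalgebra ≃⋆ₐ[ℂ] (M.toStarSubalgebra)ᵐᵒᵖ)) := by
  left
  refine ⟨AT, instAT, AT_nonsep, ⟨Set.range (fun p : Finset ℕ × Finset Col => SFG p.1 p.2),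
    ?_, ?_, SFG_dense⟩, AT_not_op⟩
  · classical
    rintro _ ⟨⟨F, G⟩, rfl⟩ _ ⟨⟨F', G'⟩, rfl⟩
    exact ⟨SFG (F ∪ F') (G ∪ G'), ⟨(F ∪ F', G ∪ G'), rfl⟩,
      SFG_mono Finset.subset_union_left Finset.subset_union_left,
      SFG_mono Finset.subset_union_right Finset.subset_union_right⟩
  · rintro _ ⟨⟨F, G⟩, rfl⟩
    exact SFG_fd F G


end Pool.Agent.S04769
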