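import Pool.Statements.S05565
import Pool.Agent.Lib.MP_9de1de_an.Final

set_option autoImplicit false
open Pool Pool.MP_9de1de_an

namespace Pool.Agent.S05565

/-- For every α in (0,1]: if f is continuous on the closed unit disc and its contour integral over each circle centered at z with radius α(1−∣z∣) vanishes for all ∣z∣<1, then f is analytic in the open unit disc. -/
theorem result :
    ∀ α : ℝ, 0 < α → α ≤ 1 →
      ∀ f : ℂ → ℂ, ContinuousOn f (Metric.closedBall (0 : ℂ) 1) →
        (∀ z : ℂ, ‖z‖ < 1 → circleIntegral f z (α * (1 - ‖z‖)) = 0) →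
          AnalyticOn ℂ f (Metric.ball (0 : ℂ) 1) := by
  intro α hα0 hα1 f hf h
  exact Pool.Agent.Lib.MP_9de1de_an.main hα0 hα1 hf h

end Pool.Agent.S05565
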