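import Pool.Statements.S06036
import Pool.Agent.Lib.MP_c2de4f_an.MAIN

set_option autoImplicit false
open Pool Pool.MP_c2de4f_an

namespace Pool.Agent.S06036

/-- The negation of the preceding statement: For every n ≥ 3 and every ball in ℝⁿ there is an operator sending each quasiconformal self-map of the boundary sphere to a quasiconformal self-map of the ball, continuous up to the boundary with those boundary values, and commuting with pre- and post-composition by Möbius self-maps of the ball. -/
theorem result :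
    ¬ (∀ n : ℕ, 3 ≤ n → ∀ c : EuclideanSpace ℝ (Fin n), ∀ r : ℝ, 0 < r →
    ∃ T : (EuclideanSpace ℝ (Fin n) → EuclideanSpace ℝ (Fin n)) →
        (EuclideanSpace ℝ (Fin n) → EuclideanSpace ℝ (Fin n)),
      (∀ φ ψ : EuclideanSpace ℝ (Fin n) → EuclideanSpace ℝ (Fin n),
          Set.EqOn φ ψ (Metric.sphere c r) → Set.EqOn (T φ) (T ψ) (Metric.ball c r)) ∧
      (∀ φ : EuclideanSpace ℝ (Fin n) → EuclideanSpace ℝ (Fin n),
        (Set.BijOn φ (Metric.sphere c r) (Metric.sphere c r) ∧
          ContinuousOn φ (Metric.sphere c r) ∧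
          ∃ H : ℝ, ∀ x ∈ Metric.sphere c r, ∃ δ > (0 : ℝ), ∀ ρ : ℝ, 0 < ρ → ρ < δ →
            ∀ y ∈ Metric.sphere c r, ∀ z ∈ Metric.sphere c r,
              dist y x = ρ → dist z x = ρ → dist (φ y) (φ x) ≤ H * dist (φ z) (φ x)) →
        (ContinuousOn (T φ) (Metric.closedBall c r) ∧
          Set.EqOn (T φ) φ (Metric.sphere c r) ∧
          Set.BijOn (T φ) (Metric.ball c r) (Metric.ball c r) ∧
          (∃ H : ℝ, ∀ x ∈ Metric.ball c r, ∃ δ > (0 : ℝ), ∀ ρ : ℝ, 0 < ρ → ρ < δ →
            ∀ y z : EuclideanSpace ℝ (Fin n),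
              dist y x = ρ → dist z x = ρ →
                dist (T φ y) (T φ x) ≤ H * dist (T φ z) (T φ x)) ∧
          ∀ g h : EuclideanSpace ℝ (Fin n) → EuclideanSpace ℝ (Fin n),
            (Set.BijOn g (Metric.closedBall c r) (Metric.closedBall c r) ∧
              ∀ a ∈ Metric.closedBall c r, ∀ b ∈ Metric.closedBall c r,
              ∀ d ∈ Metric.closedBall c r, ∀ e ∈ Metric.closedBall c r,
                dist (g a) (g d) * dist (g b) (g e) * (dist a b * dist d e) =
                  dist a d * dist b e * (dist (g a) (g b) * dist (g d) (g e))) →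
            (Set.BijOn h (Metric.closedBall c r) (Metric.closedBall c r) ∧
              ∀ a ∈ Metric.closedBall c r, ∀ b ∈ Metric.closedBall c r,
              ∀ d ∈ Metric.closedBall c r, ∀ e ∈ Metric.closedBall c r,
                dist (h a) (h d) * dist (h b) (h e) * (dist a b * dist d e) =
                  dist a d * dist b e * (dist (h a) (h b) * dist (h d) (h e))) →
            Set.EqOn (g ∘ T φ ∘ h) (T (g ∘ φ ∘ h)) (Metric.ball c r)))) := by
  exact Pool.Agent.Lib.MP_c2de4f_an.main

end Pool.Agent.S06036
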