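import Pool.Statements.S06362
import Pool.Agent.Lib.MP_da00a8_an.Main

set_option autoImplicit false
open scoped Manifold
open Pool Pool.MP_da00a8_an
open Pool.Agent.Lib.MP_da00a8_an

namespace Pool.Agent.S06362

/-- The negation of the preceding statement: Every injectively immersed smooth compact surface in C^2 contains a compact set E whose polynomial hull has a point outside E, while every holomorphic map of the unit disc into hull minus E is constant. -/
theorem result :
    ¬ (∀ (M : Type) [TopologicalSpace M] [ChartedSpace (EuclideanSpace ℝ (Fin 2)) M]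
      [IsManifold (𝓡 2) ((⊤ : ℕ∞) : WithTop ℕ∞) M] [CompactSpace M] [Nonempty M]
      (f : M → (Fin 2 → ℂ)),
      ContMDiff (𝓡 2) 𝓘(ℝ, Fin 2 → ℂ) ((⊤ : ℕ∞) : WithTop ℕ∞) f →
      Function.Injective f →
      (∀ x : M, Function.Injective (mfderiv (𝓡 2) 𝓘(ℝ, Fin 2 → ℂ) f x)) →
      ∃ E : Set (Fin 2 → ℂ), E ⊆ Set.range f ∧ IsCompact E ∧
        (∃ z : Fin 2 → ℂ,
          (∀ p : MvPolynomial (Fin 2) ℂ, ∀ c : ℝ,
            (∀ w ∈ E, ‖MvPolynomial.eval w p‖ ≤ c) → ‖MvPolynomial.eval z p‖ ≤ c) ∧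
          z ∉ E) ∧
        ∀ g : ℂ → (Fin 2 → ℂ), DifferentiableOn ℂ g (Metric.ball (0 : ℂ) 1) →
          (∀ ζ ∈ Metric.ball (0 : ℂ) 1,
            (∀ p : MvPolynomial (Fin 2) ℂ, ∀ c : ℝ,
              (∀ w ∈ E, ‖MvPolynomial.eval w p‖ ≤ c) → ‖MvPolynomial.eval (g ζ) p‖ ≤ c) ∧
            g ζ ∉ E) →
          ∃ c : Fin 2 → ℂ, ∀ ζ ∈ Metric.ball (0 : ℂ) 1, g ζ = c) := by
  intro H
  have : Fact (Module.finrank ℝ (EuclideanSpace ℝ (Fin 3)) = 2 + 1) :=
    ⟨by simp⟩
  let S := Metric.sphere (0 : EuclideanSpace ℝ (Fin 3)) 1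
  have : Nonempty S := by
    have : (Metric.sphere (0 : EuclideanSpace ℝ (Fin 3)) 1).Nonempty :=
      NormedSpace.sphere_nonempty.2 zero_le_one
    exact this.to_subtype
  have : CompactSpace S := isCompact_iff_compactSpace.1 (isCompact_sphere _ _)
  have : IsManifold (𝓡 2) ((⊤ : ℕ∞) : WithTop ℕ∞) S := IsManifold.of_le (n := ⊤) le_top
  have hcoe : ContMDiff (𝓡 2) 𝓘(ℝ, EuclideanSpace ℝ (Fin 3)) ((⊤ : ℕ∞) : WithTop ℕ∞)
      ((↑) : S → EuclideanSpace ℝ (Fin 3)) := contMDiff_coe_sphere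
  have hemb : ContMDiff 𝓘(ℝ, EuclideanSpace ℝ (Fin 3)) 𝓘(ℝ, Fin 2 → ℂ)
      ((⊤ : ℕ∞) : WithTop ℕ∞) emb := emb.contMDiff
  obtain ⟨E, hEr, hEc, ⟨z, hull, hzE⟩, hdisc⟩ := H S (fun v => emb (v : EuclideanSpace ℝ (Fin 3)))
    (hemb.comp hcoe) (fun v w h => Subtype.ext (emb_injective h)) (by
      intro x
      have h1 : mfderiv (𝓡 2) 𝓘(ℝ, Fin 2 → ℂ)
          (fun v : S => emb (v : EuclideanSpace ℝ (Fin 3))) x
          = (mfderiv 𝓘(ℝ, EuclideanSpace ℝ (Fin 3)) 𝓘(ℝ, Fin 2 → ℂ) emb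
              (x : EuclideanSpace ℝ (Fin 3))).comp
            (mfderiv (𝓡 2) 𝓘(ℝ, EuclideanSpace ℝ (Fin 3))
              ((↑) : S → EuclideanSpace ℝ (Fin 3)) x) :=
        mfderiv_comp x (hemb.mdifferentiable (by simp) _) (hcoe.mdifferentiable (by simp) _)
      rw [h1, ContinuousLinearMap.mfderiv_eq]
      exact emb_injective.comp (mfderiv_coe_sphere_injective (n := 2) x))
  have hS : ∀ w ∈ E, (w 1).im = 0 ∧ ‖w 0‖ ^ 2 + (w 1).re ^ 2 = 1 := by
    intro w hw
    obtain ⟨v, rfl⟩ := hEr hw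
    have hv : ‖(v : EuclideanSpace ℝ (Fin 3))‖ = 1 := norm_eq_of_mem_sphere v
    have hv2 : ‖(v : EuclideanSpace ℝ (Fin 3))‖ ^ 2 = 1 := by rw [hv]; norm_num
    rw [EuclideanSpace.norm_sq_eq, Fin.sum_univ_three] at hv2
    simp only [Real.norm_eq_abs, sq_abs] at hv2
    simp only [emb_zero, emb_one]
    refine ⟨Complex.ofReal_im _, ?_⟩
    rw [← Complex.normSq_eq_norm_sq, Complex.normSq_apply, Complex.ofReal_re]
    simp only
    linarith
  obtain ⟨t, r, hr0, hrt, hcirc⟩ := latitude_circle hEc hS hull hzE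
  obtain ⟨c, hc⟩ := hdisc (fun ζ => ![(r : ℂ) * ζ, (t : ℂ)]) (by
      refine Differentiable.differentiableOn ?_
      rw [differentiable_pi]
      intro i
      fin_cases i
      · exact (differentiable_id.const_mul (r : ℂ))
      · exact differentiable_const _) (by
      intro ζ hζ
      rw [mem_ball_zero_iff] at hζ
      refine ⟨fun p c hp => ?_, fun hmem => ?_⟩
      · have hd : Differentiable ℂ (fun ζ : ℂ =>
            MvPolynomial.eval (![(r : ℂ) * ζ, (t : ℂ)] : Fin 2 → ℂ) p) := by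
          refine differentiable_eval _ (fun i => ?_) p
          fin_cases i
          · exact (differentiable_id.const_mul (r : ℂ))
          · exact differentiable_const _
        have hb : Bornology.IsBounded (Metric.ball (0 : ℂ) 1) := Metric.isBounded_ball
        refine Complex.norm_le_of_forall_mem_frontier_norm_le hb hd.diffContOnCl (C := c) ?_
          (subset_closure (mem_ball_zero_iff.2 hζ))
        intro ξ hξ
        rw [frontier_ball (0 : ℂ) one_ne_zero, mem_sphere_zero_iff_norm] at hξ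
        refine hp _ (hcirc _ ?_)
        rw [norm_mul, hξ, mul_one, Complex.norm_real, Real.norm_of_nonneg hr0.le]
      · have := (hS _ hmem).2
        simp only [Matrix.cons_val_zero, Matrix.cons_val_one, Complex.ofReal_re, norm_mul,
          Complex.norm_real, Real.norm_of_nonneg hr0.le] at this
        have h1 : (r * ‖ζ‖) ^ 2 < r ^ 2 := by
          have : r * ‖ζ‖ < r := by nlinarith
          exact pow_lt_pow_left₀ this (by positivity) two_ne_zero
        linarith)
  have h0 := hc 0 (by simp)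
  have h1 := hc (1 / 2) (by rw [mem_ball_zero_iff]; norm_num)
  rw [← h1] at h0
  have h2 := congrFun h0 0
  simp at h2
  exact hr0.ne' h2

end Pool.Agent.S06362
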