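import Pool.Statements.S06601
import Pool.Agent.Lib.MP_ed8a78_an.Pair

set_option autoImplicit false
open Pool Pool.MP_ed8a78_an

namespace Pool.Agent.S06601

open Pool.Agent.Lib.MP_ed8a78_an

/-- centred values -/
noncomputable def cen (v : Fin 3 → ℝ) : ℝ × ℝ :=
  (v 0 - (v 0 + v 1 + v 2) / 3, v 1 - (v 0 + v 1 + v 2) / 3)

/-- the harmonic extension matrices -/
noncomputable def AA : Fin 3 → Matrix (Fin 3) (Fin 3) ℝ :=
  ![!![1, 0, 0; 2/5, 2/5, 1/5; 2/5, 1/5, 2/5],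
            !![2/5, 2/5, 1/5; 0, 1, 0; 1/5, 2/5, 2/5],
            !![2/5, 1/5, 2/5; 1/5, 2/5, 2/5; 0, 0, 1]]

lemma cen_AA (i : Fin 3) (v : Fin 3 → ℝ) :
    cen ((AA i).mulVec v) = (1 / 5 : ℝ) • C i (cen v) := by
  fin_cases i
  · ext <;> simp [cen, AA, Matrix.mulVec, dotProduct, Fin.sum_univ_three] <;> ring
  · ext <;> simp [cen, AA, Matrix.mulVec, dotProduct, Fin.sum_univ_three] <;> ring
  · ext <;> simp [cen, AA, Matrix.mulVec, dotProduct, Fin.sum_univ_three] <;> ring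

lemma cen_foldl (n : ℕ) (w : Fin n → Fin 3) (x : Fin 3 → ℝ) :
    cen ((List.ofFn w).foldl (fun v i => (AA i).mulVec v) x) = (1 / 5 : ℝ) ^ n • Cw n w (cen x) := by
  induction n with
  | zero => simp
  | succ n ih =>
    rw [List.ofFn_succ', List.concat_eq_append, List.foldl_append, List.foldl_cons, List.foldl_nil,
      cen_AA, ih, Cw_succ, C_smul, smul_smul, pow_succ, mul_comm]

lemma E_eq (v : Fin 3 → ℝ) :
    (v 0 - v 1) ^ 2 + (v 1 - v 2) ^ 2 + (v 0 - v 2) ^ 2 = 6 * N (cen v) := by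
  simp only [cen, N]; ring

/-- For any two nonconstant harmonic functions on the Sierpinski gasket (via boundary values and harmonic extension matrices) and any 1<p<log15/log9, the level-n sums of ν₁(cell)^p ν₂(cell)^(1−p) over all n-cells are bounded uniformly in n. -/
theorem result :
    ∀ (A : Fin 3 → Matrix (Fin 3) (Fin 3) ℝ),
      A = ![!![1, 0, 0; 2/5, 2/5, 1/5; 2/5, 1/5, 2/5],
            !![2/5, 2/5, 1/5; 0, 1, 0; 1/5, 2/5, 2/5],
            !![2/5, 1/5, 2/5; 1/5, 2/5, 2/5; 0, 0, 1]] →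
    ∀ (E : (Fin 3 → ℝ) → ℝ),
      (∀ v : Fin 3 → ℝ, E v = (v 0 - v 1) ^ 2 + (v 1 - v 2) ^ 2 + (v 0 - v 2) ^ 2) →
    ∀ (ν : (Fin 3 → ℝ) → (n : ℕ) → (Fin n → Fin 3) → ℝ),
      (∀ (x : Fin 3 → ℝ) (n : ℕ) (w : Fin n → Fin 3),
        ν x n w = (5/3 : ℝ) ^ n *
          E ((List.ofFn w).foldl (fun v i => (A i).mulVec v) x) / E x) →
    ∀ x y : Fin 3 → ℝ, E x ≠ 0 → E y ≠ 0 →
    ∀ p : ℝ, 1 < p → p < Real.log 15 / Real.log 9 →
      ∃ C : ℝ, ∀ n : ℕ,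
        ∑ w : Fin n → Fin 3, (ν x n w) ^ p * (ν y n w) ^ (1 - p) ≤ C := by
  intro A hA E hE ν hν x y hx hy p hp1 hp
  have hAA : A = AA := hA
  subst hAA
  -- exponents
  have hlog9 : Real.log 9 = 2 * Real.log 3 := by
    rw [show (9 : ℝ) = 3 ^ 2 by norm_num, Real.log_pow]; norm_num
  have hlog15 : Real.log 15 = Real.log 3 + Real.log 5 := by
    rw [show (15 : ℝ) = 3 * 5 by norm_num, Real.log_mul (by norm_num) (by norm_num)]
  have hlog3 : 0 < Real.log 3 := Real.log_pos (by norm_num)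
  have h5 : (3 : ℝ) ^ (2 * p - 1) < 5 := by
    rw [Real.rpow_def_of_pos (by norm_num : (0 : ℝ) < 3)]
    rw [← Real.lt_log_iff_exp_lt (by norm_num)]
    rw [hlog9, hlog15, lt_div_iff₀ (by positivity)] at hp
    linarith
  -- the vectors
  set g := cen x with hg
  set h := cen y with hh
  have hNg : N g ≠ 0 := by
    intro h0; apply hx; rw [hE, E_eq, ← hg, h0, mul_zero]
  have hNh : N h ≠ 0 := by
    intro h0; apply hy; rw [hE, E_eq, ← hh, h0, mul_zero]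
  have hNg' : 0 < N g := lt_of_le_of_ne (N_nonneg g) hNg.symm
  have hNh' : 0 < N h := lt_of_le_of_ne (N_nonneg h) hNh.symm
  have hg0 : g ≠ 0 := by rintro h0; exact hNg ((N_eq_zero_iff g).2 h0)
  have hh0 : h ≠ 0 := by rintro h0; exact hNh ((N_eq_zero_iff h).2 h0)
  obtain ⟨K, hK⟩ := An_bounded (s := 2 * p) (by linarith) h5 (g := g) hh0
  refine ⟨N g ^ (-p) * N h ^ (p - 1) * K, fun n => ?_⟩
  have hnu : ∀ (z : Fin 3 → ℝ) (w : Fin n → Fin 3),
      ν z n w = (15 : ℝ)⁻¹ ^ n * N (Cw n w (cen z)) / N (cen z) := by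
    intro z w
    rw [hν, hE, hE, E_eq, E_eq, cen_foldl, N_smul]
    have e : (5 / 3 : ℝ) ^ n * (((1 / 5 : ℝ) ^ n) ^ 2) = (15 : ℝ)⁻¹ ^ n := by
      rw [← pow_mul, mul_comm n 2, pow_mul, ← mul_pow]; norm_num
    calc _ = ((5 / 3 : ℝ) ^ n * (((1 / 5 : ℝ) ^ n) ^ 2)) * N (Cw n w (cen z)) * (6 / (6 * N (cen z))) := by
          ring
      _ = _ := by
          rw [e]
          rw [show (6 : ℝ) / (6 * N (cen z)) = (N (cen z))⁻¹ by
            rw [← div_div]; norm_num]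
          ring
  have hterm : ∀ w : Fin n → Fin 3, (ν x n w) ^ p * (ν y n w) ^ (1 - p)
      = N g ^ (-p) * N h ^ (p - 1) *
        ((15 : ℝ)⁻¹ ^ n * N (Cw n w h) * (nr (Cw n w g) / nr (Cw n w h)) ^ (2 * p)) := by
    intro w
    have hwg : 0 < N (Cw n w g) := N_pos (Cw_ne_zero n w hg0)
    have hwh : 0 < N (Cw n w h) := N_pos (Cw_ne_zero n w hh0)
    rw [hnu, hnu, ← hg, ← hh, mul_assoc ((15 : ℝ)⁻¹ ^ n) (N (Cw n w h)) _, An_term hwh]
    have c0 : (0 : ℝ) < (15 : ℝ)⁻¹ ^ n := by positivity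
    rw [Real.div_rpow (by positivity) hNg'.le, Real.div_rpow (by positivity) hNh'.le,
      Real.mul_rpow c0.le hwg.le, Real.mul_rpow c0.le hwh.le]
    have e1 : ((15 : ℝ)⁻¹ ^ n) ^ p * ((15 : ℝ)⁻¹ ^ n) ^ (1 - p) = (15 : ℝ)⁻¹ ^ n := by
      rw [← Real.rpow_add c0]; simp
    have e2 : N g ^ (-p) = (N g ^ p)⁻¹ := Real.rpow_neg hNg'.le p
    have e3 : N h ^ (p - 1) = (N h ^ (1 - p))⁻¹ := by
      rw [← Real.rpow_neg hNh'.le]; congr 1; ring
    rw [e2, e3]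
    calc _ = (((15 : ℝ)⁻¹ ^ n) ^ p * ((15 : ℝ)⁻¹ ^ n) ^ (1 - p)) * (N g ^ p)⁻¹ * (N h ^ (1 - p))⁻¹ *
          (N (Cw n w g) ^ p * N (Cw n w h) ^ (1 - p)) := by
          rw [div_eq_mul_inv, div_eq_mul_inv]; ring
      _ = _ := by rw [e1]; ring
  rw [Finset.sum_congr rfl (fun w _ => hterm w), ← Finset.mul_sum]
  apply mul_le_mul_of_nonneg_left (hK n)
  positivity

end Pool.Agent.S06601
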