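import Pool.Statements.S06629

set_option autoImplicit false
open Pool Pool.MP_efaf6a_an

namespace Pool.Agent.S06629

/-- Malcev: finitely generated commutative monoids are residually finite.  Two distinct elements
are separated by the monoid algebra over the field with two elements, modulo a power of a maximal
ideal. -/
theorem exists_finite_hom_ne (N : Type) [CommMonoid N] [Monoid.FG N] (a b : N) (hab : a ≠ b) :
    ∃ (Q : Type) (_ : CommMonoid Q) (_ : Finite Q) (φ : N →* Q), φ a ≠ φ b := by
  classical
  have : Fact (Nat.Prime 2) := ⟨Nat.prime_two⟩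
  let R := MonoidAlgebra (ZMod 2) N
  have : IsNoetherianRing R := Algebra.FiniteType.isNoetherianRing (ZMod 2) R
  let r : R := MonoidAlgebra.of (ZMod 2) N a - MonoidAlgebra.of (ZMod 2) N b
  have hr : r ≠ 0 := by
    intro h
    have h1 : MonoidAlgebra.of (ZMod 2) N a = MonoidAlgebra.of (ZMod 2) N b := sub_eq_zero.mp h
    exact hab (MonoidAlgebra.of_injective h1)
  -- the annihilator of `r` is proper
  let J : Ideal R := Ideal.span {x : R | x * r = 0}
  have hJ : J ≠ ⊤ := by
    intro htop
    have h1 : (1 : R) ∈ J := by rw [htop]; trivial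
    have h2 : ∀ x ∈ J, x * r = 0 := by
      intro x hx
      refine Submodule.span_induction ?_ ?_ ?_ ?_ hx
      · intro y hy; exact hy
      · simp
      · intro y z _ _ hy hz; rw [add_mul, hy, hz, add_zero]
      · intro c y _ hy; rw [smul_eq_mul, mul_assoc, hy, mul_zero]
    have := h2 1 h1
    rw [one_mul] at this
    exact hr this
  obtain ⟨m, hm, hJm⟩ := Ideal.exists_le_maximal J hJ
  have := hm
  -- residue field is finite
  let : Field (R ⧸ m) := Ideal.Quotient.field m
  have : Module.Finite (ZMod 2) (R ⧸ m) := finite_of_finite_type_of_isJacobsonRing (ZMod 2) (R ⧸ m)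
  have : Finite (R ⧸ m) := Module.finite_of_finite (ZMod 2)
  -- Krull intersection
  have hk : ∃ n : ℕ, r ∉ m ^ n := by
    by_contra hcon
    push Not at hcon
    have hmem : r ∈ (⨅ i : ℕ, m ^ i • ⊤ : Submodule R R) := by
      rw [Submodule.mem_iInf]
      intro i
      simpa using hcon i
    rw [Ideal.mem_iInf_smul_pow_eq_bot_iff] at hmem
    obtain ⟨c, hc⟩ := hmem
    have h1 : (1 - (c : R)) * r = 0 := by
      rw [sub_mul, one_mul]
      have : (c : R) * r = r := by simpa [smul_eq_mul] using hc
      rw [this, sub_self]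
    have h2 : (1 - (c : R)) ∈ m := hJm (Ideal.subset_span h1)
    have h3 : (1 : R) ∈ m := by
      have := m.add_mem h2 c.2
      simpa using this
    exact hm.ne_top ((Ideal.eq_top_iff_one m).mpr h3)
  obtain ⟨n, hn⟩ := hk
  have : Finite (R ⧸ m ^ n) := Ideal.finite_quotient_pow (IsNoetherian.noetherian m) n
  refine ⟨R ⧸ m ^ n, inferInstance, inferInstance,
    ((Ideal.Quotient.mk (m ^ n)).toMonoidHom).comp (MonoidAlgebra.of (ZMod 2) N), ?_⟩
  intro h
  apply hn
  have h' : Ideal.Quotient.mk (m ^ n) (MonoidAlgebra.of (ZMod 2) N a)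
      = Ideal.Quotient.mk (m ^ n) (MonoidAlgebra.of (ZMod 2) N b) := h
  exact Ideal.Quotient.eq.mp h'

/-- A finite subset of a finitely generated commutative monoid embeds in a finite quotient. -/
theorem exists_finite_hom_injOn (N : Type) [CommMonoid N] [Monoid.FG N] (E : Set N)
    (hE : E.Finite) :
    ∃ (Q : Type) (_ : CommMonoid Q) (_ : Finite Q) (φ : N →* Q), Set.InjOn φ E := by
  classical
  let I := {p : N × N // p.1 ∈ E ∧ p.2 ∈ E ∧ p.1 ≠ p.2}
  have : Finite I := by
    have : (E ×ˢ E).Finite := hE.prod hE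
    have := this.to_subtype
    refine Finite.of_injective (fun p : I => (⟨p.1, p.2.1, p.2.2.1⟩ : (E ×ˢ E : Set (N × N)))) ?_
    intro p q hpq
    apply Subtype.ext
    have h := congrArg (fun z : (E ×ˢ E : Set (N × N)) => z.1) hpq
    exact h
  choose Q hQm hQf φ hφ using fun p : I => exists_finite_hom_ne N p.1.1 p.1.2 p.2.2.2
  let := hQm
  have := hQf
  refine ⟨(∀ p : I, Q p), inferInstance, inferInstance, MonoidHom.pi φ, ?_⟩
  intro a ha b hb hab
  by_contra hne
  have := congrFun hab ⟨(a, b), ha, hb, hne⟩
  exact hφ ⟨(a, b), ha, hb, hne⟩ this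

/-- Compactness: an injective cellular automaton has a left inverse with finite memory. -/
theorem exists_memory (M : Type) [CommMonoid M] (A : Type) [Finite A] (S : Finset M)
    (μ : (S → A) → A)
    (hinj : Function.Injective (fun (x : M → A) (m : M) => μ (fun s : S => x (m * s.1)))) :
    ∃ F : Finset M, ∀ x y : M → A,
      (∀ f ∈ F, μ (fun s : S => x (f * s.1)) = μ (fun s : S => y (f * s.1))) → x 1 = y 1 := by
  classical
  let : TopologicalSpace A := ⊥
  have : DiscreteTopology A := ⟨rfl⟩
  by_contra hcon
  push Not at hcon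
  let K : Finset M → Set ((M → A) × (M → A)) := fun F =>
    {p | (∀ f ∈ F, μ (fun s : S => p.1 (f * s.1)) = μ (fun s : S => p.2 (f * s.1))) ∧ p.1 1 ≠ p.2 1}
  have hcont : ∀ f : M, Continuous (fun x : M → A => μ (fun s : S => x (f * s.1))) := by
    intro f
    have h1 : Continuous (fun x : M → A => (fun s : S => x (f * s.1))) :=
      continuous_pi fun s => continuous_apply _
    exact (continuous_of_discreteTopology (f := μ)).comp h1
  have hclosed : ∀ F, IsClosed (K F) := by
    intro F
    apply IsClosed.inter
    · have : {p : (M → A) × (M → A) | ∀ f ∈ F, μ (fun s : S => p.1 (f * s.1))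
          = μ (fun s : S => p.2 (f * s.1))} = ⋂ f ∈ F, {p : (M → A) × (M → A) |
            μ (fun s : S => p.1 (f * s.1)) = μ (fun s : S => p.2 (f * s.1))} := by
        ext p; simp
      change IsClosed {p : (M → A) × (M → A) | ∀ f ∈ F, μ (fun s : S => p.1 (f * s.1))
          = μ (fun s : S => p.2 (f * s.1))}
      rw [this]
      refine isClosed_biInter fun f _ => ?_
      exact isClosed_eq ((hcont f).comp continuous_fst) ((hcont f).comp continuous_snd)
    · have hc : Continuous (fun p : (M → A) × (M → A) => (p.1 1, p.2 1)) :=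
        ((continuous_apply 1).comp continuous_fst).prodMk ((continuous_apply 1).comp continuous_snd)
      exact (isClosed_discrete {q : A × A | q.1 ≠ q.2}).preimage hc
  have hne : ∀ F, (K F).Nonempty := by
    intro F
    obtain ⟨x, y, hxy, h1⟩ := hcon F
    exact ⟨(x, y), hxy, h1⟩
  have hdir : Directed (· ⊇ ·) K := by
    intro F G
    refine ⟨F ∪ G, ?_, ?_⟩
    · intro p hp
      exact ⟨fun f hf => hp.1 f (Finset.mem_union_left _ hf), hp.2⟩
    · intro p hp
      exact ⟨fun f hf => hp.1 f (Finset.mem_union_right _ hf), hp.2⟩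
  obtain ⟨p, hp⟩ := IsCompact.nonempty_iInter_of_directed_nonempty_isCompact_isClosed K hdir hne
    (fun F => (hclosed F).isCompact) hclosed
  rw [Set.mem_iInter] at hp
  have heq : p.1 = p.2 := by
    apply hinj
    funext m
    exact (hp {m}).1 m (Finset.mem_singleton_self m)
  exact (hp ∅).2 (by rw [heq])

/-- For every commutative monoid M and finite alphabet A, every cellular automaton on A^M (finite memory set S, local rule μ, x ↦ (m ↦ μ(s ↦ x(m·s)))) that is injective is also surjective. -/
theorem result :
    ∀ (M : Type) [CommMonoid M] (A : Type) [Finite A] (S : Finset M) (μ : (S → A) → A),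
      Function.Injective (fun (x : M → A) (m : M) => μ (fun s : S => x (m * s.1))) →
      Function.Surjective (fun (x : M → A) (m : M) => μ (fun s : S => x (m * s.1))) := by
  classical
  intro M _ A _ S μ hinj y
  obtain ⟨F, hF⟩ := exists_memory M A S μ hinj
  let a₀ : A := y 1
  -- the local rule of the left inverse
  let ν : (F → A) → A := fun g =>
    if h : ∃ x : M → A, ∀ f : F, μ (fun s : S => x (f.1 * s.1)) = g f then h.choose 1 else a₀
  have hν : ∀ x : M → A, ν (fun f : F => μ (fun s : S => x (f.1 * s.1))) = x 1 := by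
    intro x
    have h : ∃ x' : M → A, ∀ f : F, μ (fun s : S => x' (f.1 * s.1))
        = (fun f : F => μ (fun s : S => x (f.1 * s.1))) f := ⟨x, fun f => rfl⟩
    have : ν (fun f : F => μ (fun s : S => x (f.1 * s.1))) = h.choose 1 := by
      simp only [ν]
      rw [dif_pos h]
    rw [this]
    apply hF
    intro f hf
    exact h.choose_spec ⟨f, hf⟩
  -- the finitely generated submonoid
  let N : Submonoid M := Submonoid.closure ((S ∪ F : Finset M) : Set M)
  have hfg : Monoid.FG N := Monoid.closure_finset_fg (S ∪ F)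
  have hSN : ∀ s : S, s.1 ∈ N := fun s =>
    Submonoid.subset_closure (by simp)
  have hFN : ∀ f : F, f.1 ∈ N := fun f =>
    Submonoid.subset_closure (by simp)
  let s' : S → N := fun s => ⟨s.1, hSN s⟩
  let f' : F → N := fun f => ⟨f.1, hFN f⟩
  let E : Set N := insert 1 (Set.range fun p : S × F => s' p.1 * f' p.2)
  have hE : E.Finite := (Set.finite_range _).insert _
  obtain ⟨Q, _, _, φ, hφ⟩ := exists_finite_hom_injOn N E hE
  let τQ : (Q → A) → (Q → A) := fun x q => μ (fun s : S => x (q * φ (s' s)))
  let σQ : (Q → A) → (Q → A) := fun x q => ν (fun f : F => x (q * φ (f' f)))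
  have hleft : Function.LeftInverse σQ τQ := by
    intro x
    funext q
    let x' : M → A := fun m => if h : m ∈ N then x (q * φ ⟨m, h⟩) else a₀
    have h1 : σQ (τQ x) q = ν (fun f : F => μ (fun s : S => x' (f.1 * s.1))) := by
      simp only [σQ, τQ]
      congr 1
      funext f
      congr 1
      funext s
      have hmem : f.1 * s.1 ∈ N := N.mul_mem (hFN f) (hSN s)
      simp only [x']
      rw [dif_pos hmem, mul_assoc, ← map_mul]
      rfl
    rw [h1, hν x']
    simp only [x']
    rw [dif_pos N.one_mem]
    have : φ ⟨1, N.one_mem⟩ = 1 := φ.map_one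
    rw [this, mul_one]
  have hsurj : Function.Surjective τQ := Finite.surjective_of_injective hleft.injective
  have hright : ∀ z : Q → A, τQ (σQ z) = z := by
    intro z
    obtain ⟨x, rfl⟩ := hsurj z
    rw [hleft x]
  refine ⟨fun m => ν (fun f : F => y (m * f.1)), ?_⟩
  funext m
  -- pull back to the finite quotient
  let yQ : Q → A := fun q => if h : ∃ e ∈ E, φ e = q then y (m * (h.choose : N).1) else a₀
  have hyQ : ∀ e ∈ E, yQ (φ e) = y (m * e.1) := by
    intro e he
    have h : ∃ e' ∈ E, φ e' = φ e := ⟨e, he, rfl⟩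
    have h2 : h.choose = e := hφ h.choose_spec.1 he h.choose_spec.2
    simp only [yQ]
    rw [dif_pos h, h2]
  have key := congrFun (hright yQ) 1
  have h1 : yQ 1 = y m := by
    have := hyQ 1 (Set.mem_insert _ _)
    rw [map_one] at this
    rw [this]
    simp
  have h2 : τQ (σQ yQ) 1 = μ (fun s : S => ν (fun f : F => y (m * s.1 * f.1))) := by
    simp only [σQ, τQ]
    congr 1
    funext s
    congr 1
    funext f
    rw [one_mul, ← map_mul, hyQ _ (Set.mem_insert_of_mem _ ⟨(s, f), rfl⟩)]
    congr 1
    exact (mul_assoc m s.1 f.1).symm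
  change μ (fun s : S => ν (fun f : F => y (m * s.1 * f.1))) = y m
  rw [← h2, key, h1]

end Pool.Agent.S06629
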