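import Pool.Statements.S07316
import Pool.Agent.Lib.MP_150b74_co.StepUp

set_option autoImplicit false
open Pool Pool.MP_150b74_co

namespace Pool.Agent.S07316

open Finset Filter Asymptotics Pool.Agent.Lib.MP_150b74_co

/-- exponential growth beats polynomial growth -/
lemma exists_large (C D : ℝ) : ∃ s : ℕ, 1 ≤ s ∧
    C * ((2 * s + 2 : ℕ) : ℝ) ^ D ≤ 2 ^ s * Real.log 2 := by
  have hlog : 0 < Real.log 2 := Real.log_pos (by norm_num)
  have h1 : (fun x : ℝ => x ^ D) =o[atTop] fun x : ℝ => Real.exp (Real.log 2 / 2 * x) :=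
    isLittleO_rpow_exp_pos_mul_atTop D (by positivity)
  have h2 : (fun x : ℝ => C * x ^ D) =o[atTop] fun x : ℝ => Real.exp (Real.log 2 / 2 * x) :=
    h1.const_mul_left C
  have h3 := h2.def (show 0 < Real.log 2 / 2 by positivity)
  have h4 : Tendsto (fun s : ℕ => ((2 * s + 2 : ℕ) : ℝ)) atTop atTop := by
    apply tendsto_natCast_atTop_atTop.comp
    apply tendsto_atTop_mono (fun s : ℕ => (by omega : s ≤ 2 * s + 2)) tendsto_id
  obtain ⟨s, hs, hs1⟩ := ((h4.eventually h3).and (eventually_ge_atTop 1)).exists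
  refine ⟨s, hs1, ?_⟩
  rw [Real.norm_eq_abs, Real.norm_eq_abs, abs_of_pos (Real.exp_pos _)] at hs
  have h5 : Real.exp (Real.log 2 / 2 * ((2 * s + 2 : ℕ) : ℝ)) = 2 * 2 ^ s := by
    have : Real.log 2 / 2 * ((2 * s + 2 : ℕ) : ℝ) = ((s + 1 : ℕ) : ℝ) * Real.log 2 := by
      push_cast; ring
    rw [this, mul_comm, ← Real.rpow_def_of_pos (by norm_num : (0 : ℝ) < 2), Real.rpow_natCast,
      pow_succ]
    ring
  rw [h5] at hs
  calc C * ((2 * s + 2 : ℕ) : ℝ) ^ D ≤ |C * ((2 * s + 2 : ℕ) : ℝ) ^ D| := le_abs_self _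
    _ ≤ Real.log 2 / 2 * (2 * 2 ^ s) := hs
    _ = 2 ^ s * Real.log 2 := by ring

/-- at most `C(|S| - 1, 2)` triples of `S` contain a given point of `S` -/
lemma card_triples_le {n : ℕ} (S : Finset (Fin n)) (v : Fin n) (hv : v ∈ S) :
    ((S.powersetCard 3).filter (fun e => v ∈ e)).card ≤ (S.card - 1).choose 2 := by
  have h1 : (S.powersetCard 3).filter (fun e => v ∈ e) ⊆
      ((S.erase v).powersetCard 2).image (fun e => insert v e) := by
    intro e he
    rw [mem_filter, mem_powersetCard] at he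
    rw [mem_image]
    refine ⟨e.erase v, ?_, insert_erase he.2⟩
    rw [mem_powersetCard, card_erase_of_mem he.2, he.1.2]
    exact ⟨erase_subset_erase v he.1.1, rfl⟩
  calc ((S.powersetCard 3).filter (fun e => v ∈ e)).card
      ≤ (((S.erase v).powersetCard 2).image (fun e => insert v e)).card := card_le_card h1
    _ ≤ ((S.erase v).powersetCard 2).card := card_image_le
    _ = (S.card - 1).choose 2 := by rw [card_powersetCard, card_erase_of_mem hv]

/-- the four colours as elements of `Fin 5`; colour `4` is not used -/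
def enc (c : Bool × Bool) : Fin 5 :=
  match c with
  | (false, false) => 0
  | (false, true) => 1
  | (true, false) => 2
  | (true, true) => 3

lemma enc_inj : Function.Injective enc := by decide

lemma enc_ne (c : Bool × Bool) : enc c ≠ 4 := by revert c; decide

/-- The negation of the preceding statement: For r≥3, q≥2, ε>0 there is D such that for every ρ in [0,1]^q with sum below q−ε, some C gives, for all k≥1, an n with ln n ≤ C·k^D where every q-colouring of r-sets of [n] has an S of size ≥k and colour j with min colour-j degree in S ≥ ρ_j·C(∣S∣−1,r−1). -/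
theorem result :
    ¬ (∀ r q : ℕ, 3 ≤ r → 2 ≤ q → ∀ ε : ℝ, 0 < ε →
      ∃ D : ℝ, ∀ ρ : Fin q → ℝ, (∀ i, 0 ≤ ρ i ∧ ρ i ≤ 1) → ∑ i, ρ i < (q : ℝ) - ε →
        ∃ C : ℝ, ∀ k : ℕ, 1 ≤ k → ∃ n : ℕ, Real.log (n : ℝ) ≤ C * (k : ℝ) ^ D ∧
          ∀ φ : Finset (Fin n) → Fin q, ∃ S : Finset (Fin n), k ≤ S.card ∧ ∃ j : Fin q,
            ∀ v ∈ S, ρ j * (((S.card - 1).choose (r - 1) : ℕ) : ℝ) ≤
              (((S.powersetCard r).filter (fun e => v ∈ e ∧ φ e = j)).card : ℝ)) := by
  intro h
  obtain ⟨D, hD⟩ := h 3 5 le_rfl (by norm_num) (1 / 2) (by norm_num)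
  let ρ : Fin 5 → ℝ := ![1, 1, 1, 1, 1 / 4]
  have hρ : ∀ i, 0 ≤ ρ i ∧ ρ i ≤ 1 := by
    intro i
    fin_cases i <;> simp [ρ] <;> norm_num
  have hρ4 : ρ 4 = 1 / 4 := rfl
  have hρ1 : ∀ j : Fin 5, j ≠ 4 → ρ j = 1 := by
    intro j hj
    fin_cases j
    · rfl
    · rfl
    · rfl
    · rfl
    · exact absurd rfl hj
  have hsum : ∑ i, ρ i < ((5 : ℕ) : ℝ) - 1 / 2 := by
    simp [ρ, Fin.sum_univ_five]
    norm_num
  obtain ⟨C, hC⟩ := hD ρ hρ hsum
  obtain ⟨s, hs1, hs⟩ := exists_large C D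
  obtain ⟨n, hn, hφ⟩ := hC (2 * s + 2) (by omega)
  -- `n ≤ 2 ^ (2 ^ s)`
  have hn2 : n ≤ 2 ^ (2 ^ s) := by
    rcases Nat.eq_zero_or_pos n with h0 | h0
    · rw [h0]; positivity
    · have h1 : Real.log n ≤ Real.log ((2 : ℝ) ^ (2 ^ s)) := by
        rw [Real.log_pow]
        refine (hn.trans hs).trans (le_of_eq ?_)
        push_cast
        ring
      have h2 : (n : ℝ) ≤ (2 : ℝ) ^ (2 ^ s) :=
        (Real.log_le_log_iff (by exact_mod_cast h0) (by positivity)).mp h1
      exact_mod_cast h2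
  obtain ⟨φ, hφ0⟩ := exists_triple_coloring s hs1 n hn2
  obtain ⟨S, hS, j, hj⟩ := hφ (fun e => enc (φ e))
  have hSne : S.Nonempty := by
    rw [← card_pos]; omega
  by_cases hj4 : j = 4
  · -- the unused colour
    subst hj4
    obtain ⟨v, hv⟩ := hSne
    have h1 := hj v hv
    have h2 : ((S.powersetCard 3).filter (fun e => v ∈ e ∧ enc (φ e) = 4)).card = 0 := by
      rw [card_eq_zero, filter_eq_empty_iff]
      intro e _ he
      exact enc_ne _ he.2
    rw [h2, hρ4] at h1
    have h3 : 0 < (S.card - 1).choose (3 - 1) := Nat.choose_pos (by omega)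
    have h4 : (0 : ℝ) < (((S.card - 1).choose (3 - 1) : ℕ) : ℝ) := by exact_mod_cast h3
    push_cast at h1
    linarith
  · -- one of the four colours: monochromatic set
    have hall : ∀ e ∈ S.powersetCard 3, enc (φ e) = j := by
      intro e he
      obtain ⟨v, hv⟩ : e.Nonempty := by
        rw [← card_pos, (mem_powersetCard.mp he).2]; norm_num
      have hvS : v ∈ S := (mem_powersetCard.mp he).1 hv
      have h1 := hj v hvS
      rw [hρ1 j hj4, one_mul] at h1
      have h2 : (S.card - 1).choose (3 - 1) ≤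
          ((S.powersetCard 3).filter (fun e => v ∈ e ∧ enc (φ e) = j)).card := by
        exact_mod_cast h1
      have h3 : (S.powersetCard 3).filter (fun e => v ∈ e ∧ enc (φ e) = j) ⊆
          (S.powersetCard 3).filter (fun e => v ∈ e) := by
        intro e' he'
        rw [mem_filter] at he' ⊢
        exact ⟨he'.1, he'.2.1⟩
      have h4 := eq_of_subset_of_card_le h3 ((card_triples_le S v hvS).trans h2)
      have h5 : e ∈ (S.powersetCard 3).filter (fun e => v ∈ e) := mem_filter.mpr ⟨he, hv⟩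
      rw [← h4] at h5
      exact (mem_filter.mp h5).2.2
    -- the colour as a pair
    obtain ⟨e0, he0⟩ : (S.powersetCard 3).Nonempty := powersetCard_nonempty.mpr (by omega)
    have hmono : ∀ e ∈ S.powersetCard 3, φ e = φ e0 := by
      intro e he
      apply enc_inj
      rw [hall e he, hall e0 he0]
    have := hφ0 S (φ e0) hmono
    omega

end Pool.Agent.S07316
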