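import Pool.Statements.S07492
import Pool.Agent.Lib.MP_1d0474_co.Generic
import Pool.Agent.Lib.MP_1d0474_co.Enforcer
import Pool.Agent.Lib.MP_1d0474_co.Breaker

set_option autoImplicit false
open Pool Pool.MP_1d0474_co

namespace Pool.Agent.S07492

/-- The negation of the preceding statement: For every q and W: if for all N ≥ W one player can force the other to claim all edges of a K_q in the alternating edge game on K_N, then for all N ≥ W the first player can claim a whole K_q himself. -/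
theorem result :
    ¬ (∀ Win : ℕ → ℕ → ℕ → ℕ → Prop,
      (∀ q N p r : ℕ, Win q N p r ↔
        ∃ σ : List (Sym2 (Fin N)) → Sym2 (Fin N),
          (∀ l : List (Sym2 (Fin N)), l.Nodup → (∀ e ∈ l, ¬ e.IsDiag) →
            (∀ (i : ℕ) (h : i < l.length), i % 2 = p → l[i]'h = σ (l.take i)) →
            l.length % 2 = p →
            (∃ e : Sym2 (Fin N), ¬ e.IsDiag ∧ e ∉ l) →
            (¬ (σ l).IsDiag ∧ σ l ∉ l)) ∧
          (∀ l : List (Sym2 (Fin N)), l.Nodup → (∀ e ∈ l, ¬ e.IsDiag) →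
            (∀ e : Sym2 (Fin N), ¬ e.IsDiag → e ∈ l) →
            (∀ (i : ℕ) (h : i < l.length), i % 2 = p → l[i]'h = σ (l.take i)) →
            ∃ S : Finset (Fin N), S.card = q ∧
              ∀ a ∈ S, ∀ b ∈ S, a ≠ b →
                ∃ (i : ℕ) (h : i < l.length), i % 2 = r ∧ l[i]'h = s(a, b))) →
      ∀ q W : ℕ, (∀ N : ℕ, W ≤ N → (Win q N 0 1 ∨ Win q N 1 0)) →
        ∀ N : ℕ, W ≤ N → Win q N 0 0) := by
  intro h
  have h1 := h (fun q N p r =>
    ∃ σ : List (Sym2 (Fin N)) → Sym2 (Fin N),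
      (∀ l : List (Sym2 (Fin N)), l.Nodup → (∀ e ∈ l, ¬ e.IsDiag) →
        (∀ (i : ℕ) (h : i < l.length), i % 2 = p → l[i]'h = σ (l.take i)) →
        l.length % 2 = p →
        (∃ e : Sym2 (Fin N), ¬ e.IsDiag ∧ e ∉ l) →
        (¬ (σ l).IsDiag ∧ σ l ∉ l)) ∧
      (∀ l : List (Sym2 (Fin N)), l.Nodup → (∀ e ∈ l, ¬ e.IsDiag) →
        (∀ e : Sym2 (Fin N), ¬ e.IsDiag → e ∈ l) →
        (∀ (i : ℕ) (h : i < l.length), i % 2 = p → l[i]'h = σ (l.take i)) →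
        ∃ S : Finset (Fin N), S.card = q ∧
          ∀ a ∈ S, ∀ b ∈ S, a ≠ b →
            ∃ (i : ℕ) (h : i < l.length), i % 2 = r ∧ l[i]'h = s(a, b)))
    (fun q N p r => Iff.rfl) 4 9
  have hW : Pool.Agent.K4G.IsWin (fun q N p r =>
    ∃ σ : List (Sym2 (Fin N)) → Sym2 (Fin N),
      (∀ l : List (Sym2 (Fin N)), l.Nodup → (∀ e ∈ l, ¬ e.IsDiag) →
        (∀ (i : ℕ) (h : i < l.length), i % 2 = p → l[i]'h = σ (l.take i)) →
        l.length % 2 = p →
        (∃ e : Sym2 (Fin N), ¬ e.IsDiag ∧ e ∉ l) →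
        (¬ (σ l).IsDiag ∧ σ l ∉ l)) ∧
      (∀ l : List (Sym2 (Fin N)), l.Nodup → (∀ e ∈ l, ¬ e.IsDiag) →
        (∀ e : Sym2 (Fin N), ¬ e.IsDiag → e ∈ l) →
        (∀ (i : ℕ) (h : i < l.length), i % 2 = p → l[i]'h = σ (l.take i)) →
        ∃ S : Finset (Fin N), S.card = q ∧
          ∀ a ∈ S, ∀ b ∈ S, a ≠ b →
            ∃ (i : ℕ) (h : i < l.length), i % 2 = r ∧ l[i]'h = s(a, b))) :=
    fun q N p r => Iff.rfl
  exact Pool.Agent.K4G.not_win_of_bw9 hW Pool.Agent.K4G.bw9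
    (h1 (Pool.Agent.K4G.win_of_ew9 hW Pool.Agent.K4G.ew9) 9 le_rfl)

end Pool.Agent.S07492
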