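import Pool.Statements.S08140
import Pool.Agent.Lib.MP_3884c4_co.Glue
import Pool.Agent.Lib.MP_3884c4_co.KRep
import Pool.Agent.Lib.MP_3884c4_co.Pair
import Pool.Agent.Lib.MP_3884c4_co.Edge

set_option autoImplicit false
open Pool Pool.MP_3884c4_co

namespace Pool.Agent.S08140

/-- The negation of the preceding statement: For every ε>0 there is k such that, for every δ>0 and all large n, ℝ^n can be coloured with at most (1+ε+δ)^n colours so that no k+1 points at pairwise distance 1 (a unit regular k-simplex) all get the same colour. -/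
theorem result :
    ¬ (∀ ε : ℝ, 0 < ε → ∃ k : ℕ, ∀ δ : ℝ, 0 < δ →
      ∀ᶠ n : ℕ in Filter.atTop, ∃ m : ℕ, (m : ℝ) ≤ (1 + ε + δ) ^ n ∧
        ∃ c : EuclideanSpace ℝ (Fin n) → Fin m,
          ∀ x : Fin (k + 1) → EuclideanSpace ℝ (Fin n),
            (∀ i j, i ≠ j → dist (x i) (x j) = 1) →
              ¬ (∀ i j, c (x i) = c (x j))) := by
  exact Pool.Agent.MP3884c4.final_of_krep (Pool.Agent.MP3884c4.krep_of_pl
    (Pool.Agent.MP3884c4.pair Pool.Agent.MP3884c4.edge))

end Pool.Agent.S08140
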