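import Pool.Statements.S08475
import Pool.Agent.Lib.MP_45e1c4_co.Main

set_option autoImplicit false
open MeasureTheory
open Pool Pool.MP_45e1c4_co

namespace Pool.Agent.S08475

/-- There is a Borel 3-coloring of the iid-uniform labelings of the free group on two generators such that, for each generator, almost every labeling gets a different color from its shift by that generator. -/
theorem result :
    ∃ c : (FreeGroup (Fin 2) → unitInterval) → Fin 3,
      Measurable c ∧
      ∀ i : Fin 2,
        ∀ᵐ x ∂(Measure.infinitePi
                (fun _ : FreeGroup (Fin 2) => (volume : Measure unitInterval))),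
          c x ≠ c (fun δ => x (FreeGroup.of i * δ)) :=
  Pool.Agent.Lib.MP_45e1c4_co.main

end Pool.Agent.S08475
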