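import Pool.Statements.S08692
-- import your own Pool.Agent.* helpers here

set_option autoImplicit false
open Pool Pool.MP_4ee71e_co

namespace Pool.Agent.S08692

/-- Balanced ternary uniqueness: a vanishing signed sum of distinct powers of three is trivial. -/
theorem ternary (m : ℕ) : ∀ δ : ℕ → ℤ, (∀ k, |δ k| ≤ 1) →
    ∑ k ∈ Finset.range m, δ k * 3 ^ k = 0 → ∀ k < m, δ k = 0 := by
  induction m with
  | zero => intro δ _ _ k hk; omega
  | succ m ih =>
    intro δ hδ hs k hk
    rw [Finset.sum_range_succ'] at hs
    have h1 : ∑ k ∈ Finset.range m, δ (k + 1) * 3 ^ (k + 1) =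
        3 * ∑ k ∈ Finset.range m, δ (k + 1) * 3 ^ k := by
      rw [Finset.mul_sum]
      refine Finset.sum_congr rfl fun i _ => ?_
      ring
    rw [h1] at hs
    have h0 : |δ 0| ≤ 1 := hδ 0
    rw [abs_le] at h0
    have h2 : δ 0 = 0 := by
      simp only [pow_zero, mul_one] at hs
      omega
    have h3 : ∑ k ∈ Finset.range m, δ (k + 1) * 3 ^ k = 0 := by
      rw [h2] at hs
      simp only [zero_mul, add_zero] at hs
      omega
    have h4 := ih (fun k => δ (k + 1)) (fun k => hδ (k + 1)) h3
    rcases k with _ | k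
    · exact h2
    · exact h4 k (by omega)

/-- The same for sums over `Fin m`. -/
theorem ternaryFin (m : ℕ) (δ : Fin m → ℤ) (hδ : ∀ k, |δ k| ≤ 1)
    (hs : ∑ k : Fin m, δ k * 3 ^ (k : ℕ) = 0) : ∀ k, δ k = 0 := by
  intro k
  have h := ternary m (fun j => if h : j < m then δ ⟨j, h⟩ else 0)
    (by
      intro j
      by_cases h : j < m
      · simp only [h, dite_true]; exact hδ _
      · simp [h])
    (by
      rw [← Fin.sum_univ_eq_sum_range (fun j => (if h : j < m then δ ⟨j, h⟩ else 0) * 3 ^ j) m]
      rw [← hs]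
      refine Finset.sum_congr rfl fun i _ => ?_
      simp)
  have := h k k.isLt
  simpa using this

/-- Indicator of a Boolean as an integer. -/
def bi (b : Bool) : ℤ := if b then 1 else 0

theorem bi_sub (a b : Bool) : |bi a - bi b| ≤ 1 := by
  cases a <;> cases b <;> simp [bi]

theorem bi_inj {a b : Bool} (h : bi a - bi b = 0) : a = b := by
  cases a <;> cases b <;> simp_all [bi]

/-- Placement of the cube on the line: coordinate `k` has weight `s k * 3 ^ k`. -/
def place (m : ℕ) (s : Fin m → ℤ) (x : Fin m → Bool) : ℤ :=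
  ∑ k : Fin m, s k * bi (x k) * 3 ^ (k : ℕ)

theorem place_sub (m : ℕ) (s : Fin m → ℤ) (x y : Fin m → Bool) :
    place m s x - place m s y = ∑ k : Fin m, (s k * (bi (x k) - bi (y k))) * 3 ^ (k : ℕ) := by
  unfold place
  rw [← Finset.sum_sub_distrib]
  refine Finset.sum_congr rfl fun i _ => ?_
  ring

theorem place_inj (m : ℕ) (s : Fin m → ℤ) (hs : ∀ k, |s k| = 1) :
    Function.Injective (place m s) := by
  intro x y hxy
  have h : ∑ k : Fin m, (s k * (bi (x k) - bi (y k))) * 3 ^ (k : ℕ) = 0 := by
    rw [← place_sub, hxy, sub_self]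
  have h2 := ternaryFin m _ (fun k => by rw [abs_mul, hs k, one_mul]; exact bi_sub _ _) h
  funext k
  have h3 := h2 k
  have h4 : s k ≠ 0 := by
    intro h0
    have := hs k
    rw [h0] at this
    simp at this
  exact bi_inj ((mul_eq_zero.mp h3).resolve_left h4)

/-- Sign vector with a single minus sign at `i`. -/
def sg (m : ℕ) (i : Fin m) (k : Fin m) : ℤ := if k = i then -1 else 1

theorem sg_abs (m : ℕ) (i k : Fin m) : |sg m i k| = 1 := by
  unfold sg; split <;> simp

/-- If two vertices differ at `i` and at `j ≠ i`, then flipping the sign of coordinate `i`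
changes their distance. -/
theorem dist_ne (m : ℕ) (x y : Fin m → Bool) (i j : Fin m) (hij : i ≠ j)
    (hi : x i ≠ y i) (hj : x j ≠ y j) :
    |place m (fun _ => 1) x - place m (fun _ => 1) y| ≠ |place m (sg m i) x - place m (sg m i) y| := by
  intro h
  rw [place_sub, place_sub] at h
  rw [abs_eq_abs] at h
  rcases h with h | h
  · have h1 : ∑ k : Fin m, (if k = i then (bi (x k) - bi (y k)) else 0) * 3 ^ (k : ℕ) = 0 := by
      have h2 : ∑ k : Fin m, (2 * (if k = i then (bi (x k) - bi (y k)) else 0)) * 3 ^ (k : ℕ) = 0 := by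
        rw [← sub_eq_zero, ← Finset.sum_sub_distrib] at h
        refine Eq.trans (Finset.sum_congr rfl fun k _ => ?_) h
        unfold sg
        split <;> ring
      have h3 : ∑ k : Fin m, (2 * (if k = i then (bi (x k) - bi (y k)) else 0)) * 3 ^ (k : ℕ)
          = 2 * ∑ k : Fin m, (if k = i then (bi (x k) - bi (y k)) else 0) * 3 ^ (k : ℕ) := by
        rw [Finset.mul_sum]
        refine Finset.sum_congr rfl fun k _ => ?_
        ring
      omega
    have h4 := ternaryFin m _ (fun k => by
      split
      · exact bi_sub _ _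
      · simp) h1 i
    simp only [if_true] at h4
    exact hi (bi_inj h4)
  · have h1 : ∑ k : Fin m, (if k = i then 0 else (bi (x k) - bi (y k))) * 3 ^ (k : ℕ) = 0 := by
      have h2 : ∑ k : Fin m, (2 * (if k = i then 0 else (bi (x k) - bi (y k)))) * 3 ^ (k : ℕ) = 0 := by
        rw [← sub_eq_zero, sub_neg_eq_add, ← Finset.sum_add_distrib] at h
        refine Eq.trans (Finset.sum_congr rfl fun k _ => ?_) h
        unfold sg
        split <;> ring
      have h3 : ∑ k : Fin m, (2 * (if k = i then 0 else (bi (x k) - bi (y k)))) * 3 ^ (k : ℕ)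
          = 2 * ∑ k : Fin m, (if k = i then 0 else (bi (x k) - bi (y k))) * 3 ^ (k : ℕ) := by
        rw [Finset.mul_sum]
        refine Finset.sum_congr rfl fun k _ => ?_
        ring
      omega
    have h4 := ternaryFin m _ (fun k => by
      split
      · simp
      · exact bi_sub _ _) h1 j
    simp only [hij.symm, if_false] at h4
    exact hj (bi_inj h4)

/-- If two vertices differ in exactly one coordinate, their distance does not depend on signs. -/
theorem dist_eq (m : ℕ) (x y : Fin m → Bool) (i l : Fin m)
    (hl : ∀ k, k ≠ l → x k = y k) :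
    |place m (fun _ => 1) x - place m (fun _ => 1) y| = |place m (sg m i) x - place m (sg m i) y| := by
  rw [place_sub, place_sub]
  rw [Finset.sum_eq_single l, Finset.sum_eq_single l]
  · rw [abs_mul, abs_mul, abs_mul, abs_mul, sg_abs]
    simp
  · intro k _ hk
    rw [hl k hk]; simp
  · intro h; exact absurd (Finset.mem_univ _) h
  · intro k _ hk
    rw [hl k hk]; simp
  · intro h; exact absurd (Finset.mem_univ _) h

/-- A labelling of the vertices of the cube by `Fin (2 ^ m)`. -/
noncomputable def lab (m : ℕ) : Fin (2 ^ m) ≃ (Fin m → Bool) :=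
  (Fintype.equivFinOfCardEq (by simp)).symm

/-- The `m`-dimensional cube on the vertex set `Fin (2 ^ m)`: two vertices are adjacent when
they differ in exactly one coordinate. -/
noncomputable def cube (m : ℕ) : SimpleGraph (Fin (2 ^ m)) where
  Adj a b := ∃ i : Fin m, lab m a i ≠ lab m b i ∧ ∀ k, k ≠ i → lab m a k = lab m b k
  symm := ⟨by
    rintro a b ⟨i, h1, h2⟩
    exact ⟨i, fun h => h1 h.symm, fun k hk => (h2 k hk).symm⟩⟩
  loopless := ⟨by
    rintro a ⟨i, h1, _⟩
    exact h1 rfl⟩

/-- Flip one coordinate. -/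
noncomputable def flip (m : ℕ) (a : Fin (2 ^ m)) (i : Fin m) : Fin (2 ^ m) :=
  (lab m).symm (Function.update (lab m a) i (!(lab m a i)))

theorem lab_flip (m : ℕ) (a : Fin (2 ^ m)) (i : Fin m) :
    lab m (flip m a i) = Function.update (lab m a) i (!(lab m a i)) := by
  unfold flip
  simp

theorem adj_flip (m : ℕ) (a : Fin (2 ^ m)) (i : Fin m) : (cube m).Adj a (flip m a i) := by
  refine ⟨i, ?_, ?_⟩
  · rw [lab_flip]
    simp
  · intro k hk
    rw [lab_flip, Function.update_of_ne hk]

theorem flip_inj (m : ℕ) (a : Fin (2 ^ m)) : Function.Injective (flip m a) := by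
  intro i j hij
  by_contra hne
  have h := congrArg (fun b => lab m b i) hij
  simp only [lab_flip] at h
  rw [Function.update_self, Function.update_of_ne hne] at h
  simp at h

theorem two_mul_edges (m : ℕ) : m * 2 ^ m ≤ 2 * (cube m).edgeSet.ncard := by
  classical
  have h1 := (cube m).sum_degrees_eq_twice_card_edges
  have h2 : ∀ a, m ≤ (cube m).degree a := by
    intro a
    have : (Finset.univ.image (flip m a)) ⊆ (cube m).neighborFinset a := by
      intro b hb
      rw [Finset.mem_image] at hb
      obtain ⟨i, _, rfl⟩ := hb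
      rw [SimpleGraph.mem_neighborFinset]
      exact adj_flip m a i
    have h3 := Finset.card_le_card this
    rw [Finset.card_image_of_injective _ (flip_inj m a)] at h3
    simpa using h3
  have h4 : ∑ a : Fin (2 ^ m), m ≤ ∑ a : Fin (2 ^ m), (cube m).degree a :=
    Finset.sum_le_sum fun a _ => h2 a
  rw [h1] at h4
  have h5 : (cube m).edgeSet.ncard = (cube m).edgeFinset.card := by
    rw [← SimpleGraph.coe_edgeFinset, Set.ncard_coe_finset]
  rw [h5]
  simp only [Finset.sum_const, Finset.card_univ, Fintype.card_fin, smul_eq_mul] at h4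
  linarith [mul_comm m (2 ^ m)]

/-- Any two vertices of a subgraph of the cube that is globally rigid on the line agree in all
but at most one coordinate. -/
theorem rigid_close (m : ℕ) (H : (cube m).Subgraph)
    (hH : ∀ f g : Fin (2 ^ m) → ℝ, Set.InjOn f H.verts → Set.InjOn g H.verts →
            (∀ u v : Fin (2 ^ m), H.Adj u v → |f u - f v| = |g u - g v|) →
            ∀ u ∈ H.verts, ∀ v ∈ H.verts, |f u - f v| = |g u - g v|)
    (u v : Fin (2 ^ m)) (hu : u ∈ H.verts) (hv : v ∈ H.verts) (i j : Fin m)
    (hi : lab m u i ≠ lab m v i) (hj : lab m u j ≠ lab m v j) : i = j := by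
  by_contra hij
  have inj : ∀ s : Fin m → ℤ, (∀ k, |s k| = 1) →
      Set.InjOn (fun a => ((place m s (lab m a) : ℤ) : ℝ)) H.verts := by
    intro s hs a _ b _ hab
    simp only [Int.cast_inj] at hab
    exact (lab m).injective (place_inj m s hs hab)
  have key := hH (fun a => ((place m (fun _ => 1) (lab m a) : ℤ) : ℝ))
    (fun a => ((place m (sg m i) (lab m a) : ℤ) : ℝ))
    (inj _ (fun _ => by simp)) (inj _ (sg_abs m i))
    (by
      intro a b hab
      obtain ⟨l, _, h2⟩ := H.adj_sub hab
      have := dist_eq m (lab m a) (lab m b) i l h2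
      exact_mod_cast this)
    u hu v hv
  have key2 : |place m (fun _ => 1) (lab m u) - place m (fun _ => 1) (lab m v)| =
      |place m (sg m i) (lab m u) - place m (sg m i) (lab m v)| := by
    exact_mod_cast key
  exact dist_ne m _ _ i j hij hi hj key2

/-- A globally rigid subgraph of the cube has at most two vertices. -/
theorem rigid_card (m : ℕ) (H : (cube m).Subgraph)
    (hH : ∀ f g : Fin (2 ^ m) → ℝ, Set.InjOn f H.verts → Set.InjOn g H.verts →
            (∀ u v : Fin (2 ^ m), H.Adj u v → |f u - f v| = |g u - g v|) →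
            ∀ u ∈ H.verts, ∀ v ∈ H.verts, |f u - f v| = |g u - g v|) :
    H.verts.ncard ≤ 2 := by
  by_contra hcard
  push Not at hcard
  obtain ⟨u, v, w, hu, hv, hw, huv, huw, hvw⟩ :=
    (Set.two_lt_ncard_iff (Set.toFinite _)).mp hcard
  have ex : ∀ a b : Fin (2 ^ m), a ≠ b → ∃ i, lab m a i ≠ lab m b i := by
    intro a b hab
    by_contra hno
    push Not at hno
    exact hab ((lab m).injective (funext hno))
  obtain ⟨i, hi⟩ := ex u v huv
  obtain ⟨j, hj⟩ := ex v w hvw
  obtain ⟨l, hl⟩ := ex u w huw
  by_cases hij : i = j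
  · subst hij
    -- `u` and `w` agree at `i`, and everywhere else
    have e1 : lab m u i = lab m w i := by
      revert hi hj
      cases lab m u i <;> cases lab m v i <;> cases lab m w i <;> simp
    have hli : l ≠ i := by
      rintro rfl
      exact hl e1
    have e2 : lab m u l = lab m v l := by
      by_contra h
      exact hli (rigid_close m H hH u v hu hv l i h hi)
    have e3 : lab m v l = lab m w l := by
      by_contra h
      exact hli (rigid_close m H hH v w hv hw l i h hj)
    exact hl (e2.trans e3)
  · have e1 : lab m v i = lab m w i := by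
      by_contra h
      exact hij (rigid_close m H hH v w hv hw i j h hj)
    have e2 : lab m u j = lab m v j := by
      by_contra h
      exact hij (rigid_close m H hH u v hu hv i j hi h)
    exact hij (rigid_close m H hH u w hu hw i j (by rw [← e1]; exact hi) (by rw [e2]; exact hj))

/-- The negation of the preceding statement: There is c>0 such that every finite simple graph with at least one edge has a subgraph, globally rigid on the line for injective placements, with at least c times edges divided by vertices many vertices. -/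
theorem result :
    ¬ (∃ c : ℝ, 0 < c ∧
      ∀ (n : ℕ) (G : SimpleGraph (Fin n)), G.edgeSet.Nonempty →
        ∃ H : G.Subgraph,
          (∀ f g : Fin n → ℝ, Set.InjOn f H.verts → Set.InjOn g H.verts →
            (∀ u v : Fin n, H.Adj u v → |f u - f v| = |g u - g v|) →
            ∀ u ∈ H.verts, ∀ v ∈ H.verts, |f u - f v| = |g u - g v|) ∧
          c * (G.edgeSet.ncard : ℝ) / (n : ℝ) ≤ (H.verts.ncard : ℝ)) := by
  rintro ⟨c, hc, h⟩
  obtain ⟨m, hm⟩ := exists_nat_gt (4 / c)
  have hm0 : 0 < m := by
    rcases Nat.eq_zero_or_pos m with h0 | h0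
    · rw [h0] at hm
      have : 0 < 4 / c := by positivity
      simp at hm
      linarith
    · exact h0
  obtain ⟨H, hH, hle⟩ := h (2 ^ m) (cube m)
    ⟨s(0, flip m 0 ⟨0, hm0⟩), by
      rw [SimpleGraph.mem_edgeSet]
      exact adj_flip m _ _⟩
  have h1 := rigid_card m H hH
  have h2 := two_mul_edges m
  have h3 : ((m : ℝ) * 2 ^ m) ≤ 2 * ((cube m).edgeSet.ncard : ℝ) := by exact_mod_cast h2
  have h4 : (H.verts.ncard : ℝ) ≤ 2 := by exact_mod_cast h1
  have h5 : (0 : ℝ) < 2 ^ m := by positivity
  have h6 : c * ((cube m).edgeSet.ncard : ℝ) / ((2 ^ m : ℕ) : ℝ) ≤ 2 := le_trans hle h4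
  have h7 : c * ((cube m).edgeSet.ncard : ℝ) ≤ 2 * 2 ^ m := by
    have := (div_le_iff₀ (by exact_mod_cast h5)).mp h6
    push_cast at this
    exact this
  have h8 : 4 < c * m := by
    rw [div_lt_iff₀ hc] at hm
    linarith
  nlinarith

end Pool.Agent.S08692
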