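import Pool.Statements.S09181
import Pool.Agent.Lib.MP_632be6_co.Whole

set_option autoImplicit false
open Classical
open Pool Pool.MP_632be6_co

namespace Pool.Agent.S09181

/-- For all finite simple graphs G (with an edge) and G', if the chromatic index of G equals its maximum degree, then the chromatic index of the wreath product G ρ G' equals its maximum degree. -/
theorem result :
    ∀ (V W : Type) [Fintype V] [Fintype W] (G : SimpleGraph V) (G' : SimpleGraph W)
      (H : SimpleGraph (V × W)),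
      H = SimpleGraph.fromRel (fun p q : V × W =>
            (p.1 = q.1 ∧ G'.Adj p.2 q.2) ∨
            (G.Adj p.1 q.1 ∧ ∃ φ : G' ≃g G', φ p.2 = q.2)) →
      G.edgeSet.Nonempty →
      sInf {k : ℕ | ∃ c : Sym2 V → Fin k, ∀ e ∈ G.edgeSet, ∀ f ∈ G.edgeSet,
              e ≠ f → (∃ v, v ∈ e ∧ v ∈ f) → c e ≠ c f} = G.maxDegree →
      sInf {k : ℕ | ∃ c : Sym2 (V × W) → Fin k, ∀ e ∈ H.edgeSet, ∀ f ∈ H.edgeSet,
              e ≠ f → (∃ v, v ∈ e ∧ v ∈ f) → c e ≠ c f} = H.maxDegree := by
  intro V W _ _ G G' H hH hG hchi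
  have hne : {k : ℕ | ∃ c : Sym2 V → Fin k, ∀ e ∈ G.edgeSet, ∀ f ∈ G.edgeSet,
      e ≠ f → (∃ v, v ∈ e ∧ v ∈ f) → c e ≠ c f}.Nonempty := by
    by_contra h
    rw [Set.not_nonempty_iff_eq_empty] at h
    rw [h, Nat.sInf_empty] at hchi
    obtain ⟨e0, he0⟩ := hG
    induction e0 using Sym2.ind with
    | _ x y =>
      have h1 : G.Adj x y := he0
      have h2 : 0 < G.degree x := by
        rw [← SimpleGraph.card_neighborFinset_eq_degree, Finset.card_pos]
        exact ⟨y, by simpa using h1⟩
      have h3 := G.degree_le_maxDegree x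
      omega
  have hmem := Nat.sInf_mem hne
  rw [hchi] at hmem
  apply le_antisymm
  · exact Nat.sInf_le (Pool.Agent.Lib.MP_632be6_co.anderson_lipman G G' H hH hG hmem)
  · apply le_csInf
    · exact ⟨_, Pool.Agent.Lib.MP_632be6_co.anderson_lipman G G' H hH hG hmem⟩
    · intro k hk
      exact Pool.Agent.Lib.MP_632be6_co.lower H k hk

end Pool.Agent.S09181
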