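import Pool.Statements.S11067
-- import your own Pool.Agent.* helpers here
import Pool.Agent.Lib.MP_ba5def_co.Orth

set_option autoImplicit false
open Pool Pool.MP_ba5def_co

namespace Pool.Agent.S11067

open Pool.Agent.Lib.MP_ba5def_co in
/-- From a family of points indexed by `Fin n` whose mutual distances are distinct to a set. -/
lemma set_of_family {E : Type} [NormedAddCommGroup E] [InnerProductSpace ℝ E]
    [FiniteDimensional ℝ E] (n : ℕ) (hn : 3 ≤ n) (S : Finset E) (w : Fin n → E)
    (hw : ∀ i, w i ∈ S)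
    (hr : ∀ i j i' j', i < j → i' < j' → dist (w i) (w j) = dist (w i') (w j') →
      i = i' ∧ j = j') :
    ∃ T : Finset E, T ⊆ S ∧ T.card = n ∧
      ∀ a ∈ T, ∀ b ∈ T, ∀ c ∈ T, ∀ e ∈ T, a ≠ b → c ≠ e →
        dist a b = dist c e → (a = c ∧ b = e) ∨ (a = e ∧ b = c) := by
  classical
  have hinj : Function.Injective w := by
    have hlt : ∀ i j, i < j → w i ≠ w j := by
      intro i j hij heq
      -- choose a third index
      obtain ⟨l, hli, hlj⟩ : ∃ l : Fin n, l ≠ i ∧ l ≠ j := by
        by_contra hcon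
        push Not at hcon
        have hsub : (Finset.univ : Finset (Fin n)) ⊆ {i, j} := by
          intro l _
          by_cases h : l = i
          · simp [h]
          · simp [hcon l h]
        have h1 := Finset.card_le_card hsub
        have h2 : ({i, j} : Finset (Fin n)).card ≤ 2 := Finset.card_le_two
        rw [Finset.card_univ, Fintype.card_fin] at h1
        omega
      rcases lt_or_gt_of_ne hli with h1 | h1
      · -- l < i < j
        have h2 : l < j := h1.trans hij
        have := hr l i l j h1 h2 (by rw [heq])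
        exact absurd this.2 (ne_of_lt hij)
      · rcases lt_or_gt_of_ne hlj with h2 | h2
        · -- i < l < j
          have := hr i l l j h1 h2 (by rw [heq, dist_comm])
          exact absurd this.1 (ne_of_lt h1)
        · -- i < j < l
          have := hr i l j l h1 h2 (by rw [heq])
          exact absurd this.1 (ne_of_lt hij)
    intro i j hij
    rcases lt_trichotomy i j with h | h | h
    · exact absurd hij (hlt i j h)
    · exact h
    · exact absurd hij.symm (hlt j i h)
  refine ⟨Finset.univ.image w, ?_, ?_, ?_⟩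
  · intro x hx
    obtain ⟨i, -, rfl⟩ := Finset.mem_image.1 hx
    exact hw i
  · rw [Finset.card_image_of_injective _ hinj, Finset.card_univ, Fintype.card_fin]
  · intro a ha b hb c hc e he hab hce hd
    obtain ⟨i, -, rfl⟩ := Finset.mem_image.1 ha
    obtain ⟨j, -, rfl⟩ := Finset.mem_image.1 hb
    obtain ⟨i', -, rfl⟩ := Finset.mem_image.1 hc
    obtain ⟨j', -, rfl⟩ := Finset.mem_image.1 he
    have hij : i ≠ j := fun h => hab (by rw [h])
    have hij' : i' ≠ j' := fun h => hce (by rw [h])
    rcases lt_or_gt_of_ne hij with h1 | h1 <;> rcases lt_or_gt_of_ne hij' with h2 | h2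
    · obtain ⟨h3, h4⟩ := hr i j i' j' h1 h2 hd
      left; rw [h3, h4]; exact ⟨rfl, rfl⟩
    · obtain ⟨h3, h4⟩ := hr i j j' i' h1 h2 (by rw [hd, dist_comm])
      right; rw [h3, h4]; exact ⟨rfl, rfl⟩
    · obtain ⟨h3, h4⟩ := hr j i i' j' h1 h2 (by rw [dist_comm, hd])
      right; rw [h3, h4]; exact ⟨rfl, rfl⟩
    · obtain ⟨h3, h4⟩ := hr j i j' i' h1 h2 (by rw [dist_comm, hd, dist_comm])
      left; rw [h3, h4]; exact ⟨rfl, rfl⟩

open Pool.Agent.Lib.MP_ba5def_co in
/-- For every n ≥ 3 and ε > 0, for all large d, any finite set of at least 2^(εd) points in Euclidean d-space contains n points whose pairwise distances are all different. -/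
theorem result :
    ∀ n : ℕ, 3 ≤ n → ∀ ε : ℝ, 0 < ε → ∃ D : ℕ, ∀ d : ℕ, D ≤ d →
      ∀ S : Finset (EuclideanSpace ℝ (Fin d)),
        (2 : ℝ) ^ (ε * (d : ℝ)) ≤ (S.card : ℝ) →
        ∃ T : Finset (EuclideanSpace ℝ (Fin d)), T ⊆ S ∧ T.card = n ∧
          ∀ a ∈ T, ∀ b ∈ T, ∀ c ∈ T, ∀ e ∈ T, a ≠ b → c ≠ e →
            dist a b = dist c e → (a = c ∧ b = e) ∨ (a = e ∧ b = c) := by
  intro n hn ε hε
  have hlog : 0 < Real.log 2 := Real.log_pos (by norm_num)
  obtain ⟨B, hB⟩ := main_bound n (ε * Real.log 2 / 4) (by positivity)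
  obtain ⟨D, hD⟩ := exists_nat_gt (B / (ε * Real.log 2 / 2))
  refine ⟨D, fun d hd S hS => ?_⟩
  by_contra hno
  have hnr : NoRainbow n S := by
    rintro ⟨w, hw, hr⟩
    exact hno (set_of_family n hn S w hw hr)
  have h1 := hB (EuclideanSpace ℝ (Fin d)) d S
    ((Submodule.finrank_le _).trans (by simp)) hnr
  have h2 := hS.trans h1
  rw [Real.rpow_def_of_pos (by norm_num), Real.exp_le_exp] at h2
  rw [div_lt_iff₀ (by positivity)] at hD
  have hd' : (D : ℝ) ≤ d := by exact_mod_cast hd
  have h3 := mul_le_mul_of_nonneg_right hd' (by positivity : 0 ≤ ε * Real.log 2 / 2)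
  nlinarith

end Pool.Agent.S11067
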