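import Pool.Statements.S11086
import Pool.Agent.Lib.MP_bb0bab_co.FE22
import Pool.Agent.Lib.MP_bb0bab_co.FIN

set_option autoImplicit false
open scoped Pointwise
open Pool Pool.MP_bb0bab_co

namespace Pool.Agent.S11086

/-- The negation of the preceding statement: There exist two nonempty convex lattice sets K, L in Z^2 with equal covariograms, L not a translate of ±K, such that no finite A, B with direct sums A+B and A−B give K = A+B and L a translate of ±(A−B). -/
theorem result :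
    ¬ (∃ K L : Finset (ℤ × ℤ),
      K.Nonempty ∧ L.Nonempty ∧
      (∀ p : ℤ × ℤ,
        ((p.1 : ℝ), (p.2 : ℝ)) ∈
          convexHull ℝ ((fun q : ℤ × ℤ => ((q.1 : ℝ), (q.2 : ℝ))) '' (K : Set (ℤ × ℤ))) →
        p ∈ K) ∧
      (∀ p : ℤ × ℤ,
        ((p.1 : ℝ), (p.2 : ℝ)) ∈
          convexHull ℝ ((fun q : ℤ × ℤ => ((q.1 : ℝ), (q.2 : ℝ))) '' (L : Set (ℤ × ℤ))) →
        p ∈ L) ∧
      (∀ x : ℤ × ℤ,
        (K.filter (fun p => p - x ∈ K)).card = (L.filter (fun p => p - x ∈ L)).card) ∧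
      (¬ ∃ t : ℤ × ℤ,
        L = K.image (fun p => p + t) ∨ L = K.image (fun p => -p + t)) ∧
      (¬ ∃ A B : Finset (ℤ × ℤ),
        (A + B).card = A.card * B.card ∧
        (A - B).card = A.card * B.card ∧
        K = A + B ∧
        ∃ t : ℤ × ℤ,
          L = (A - B).image (fun p => p + t) ∨ L = (A - B).image (fun p => -p + t))) := by
  exact Pool.Agent.Lib.MP_bb0bab_co.frozen_of_germ
    (fun _ _ _ _ _ _ _ _ _ _ _ _ G => Pool.Agent.Lib.MP_bb0bab_co.germ_arises G)

end Pool.Agent.S11086
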