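import Pool.Statements.S11473
import Pool.Agent.Lib.MP_cc29fe_co.Walk

set_option autoImplicit false
open Pool Pool.MP_cc29fe_co

namespace Pool.Agent.S11473

/-- Every finite connected graph with n vertices and clique number ω, where n ≥ ω+1 ≥ 4, has a set of at most (ω−2)/(ω−1)·n vertices distinguishing every adjacent pair by distance, i.e. local metric dimension ≤ (ω−2)n/(ω−1). -/
theorem result :
    ∀ (V : Type) [Fintype V] (G : SimpleGraph V), G.Connected →
      ∀ ω : ℕ, (∃ s : Finset V, G.IsNClique ω s) → G.CliqueFree (ω + 1) →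
        4 ≤ ω + 1 → ω + 1 ≤ Fintype.card V →
        ∃ W : Finset V,
          (∀ u v : V, G.Adj u v → ∃ w ∈ W, G.dist u w ≠ G.dist v w) ∧
          (W.card : ℝ) ≤ ((ω : ℝ) - 2) / ((ω : ℝ) - 1) * (Fintype.card V : ℝ) := by
  intro V _ G hconn ω _ hfree hω hn
  classical
  obtain ⟨r, rfl⟩ : ∃ r, ω = r + 1 := ⟨ω - 1, by omega⟩
  have hr : 2 ≤ r := by omega
  obtain ⟨c, hc⟩ := Pool.Agent.Lib.MP_cc29fe_co.exists_good_coloring (G := G) (κ := Fin r)
    (by simpa using hr) hconn (by simpa using hfree) (by rw [Fintype.card_fin]; exact hn)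
  -- the largest colour class
  obtain ⟨i, hi⟩ : ∃ i : Fin r, Fintype.card V ≤ r * (Finset.univ.filter (fun v => c v = i)).card := by
    by_contra hcon
    push Not at hcon
    have h1 : ∑ i : Fin r, (Finset.univ.filter (fun v => c v = i)).card = Fintype.card V := by
      rw [← Finset.card_univ (α := V)]
      exact (Finset.card_eq_sum_card_fiberwise (fun v _ => Finset.mem_univ (c v))).symm
    have h2 : ∑ i : Fin r, r * (Finset.univ.filter (fun v => c v = i)).card
        < ∑ _i : Fin r, Fintype.card V := by
      have : Nonempty (Fin r) := ⟨⟨0, by omega⟩⟩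
      exact Finset.sum_lt_sum_of_nonempty Finset.univ_nonempty (fun i _ => hcon i)
    rw [← Finset.mul_sum, h1, Finset.sum_const, Finset.card_univ, Fintype.card_fin,
      smul_eq_mul] at h2
    exact lt_irrefl _ h2
  refine ⟨Finset.univ.filter (fun v => c v ≠ i), ?_, ?_⟩
  · intro u v huv
    by_cases hu : c u = i
    · by_cases hv : c v = i
      · -- both ends in the class: use a vertex of another colour
        have h1 := hc u v
        have h2 : ∃ w, c w ≠ c u ∧ ¬ (G.Adj w u ↔ G.Adj w v) := by
          by_contra hcon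
          push Not at hcon
          exact h1 ⟨huv, by rw [hu, hv], hcon⟩
        obtain ⟨w, hw1, hw2⟩ := h2
        refine ⟨w, by simp [← hu, hw1], fun hd => hw2 ?_⟩
        rw [G.adj_comm w u, G.adj_comm w v, ← SimpleGraph.dist_eq_one_iff_adj,
          ← SimpleGraph.dist_eq_one_iff_adj, hd]
      · refine ⟨v, by simp [hv], ?_⟩
        rw [SimpleGraph.dist_self, SimpleGraph.dist_eq_one_iff_adj.2 huv]
        exact one_ne_zero
    · refine ⟨u, by simp [hu], ?_⟩
      rw [SimpleGraph.dist_self, SimpleGraph.dist_eq_one_iff_adj.2 huv.symm]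
      exact zero_ne_one
  · have h1 : (Finset.univ.filter (fun v => c v = i)).card
        + (Finset.univ.filter (fun v => c v ≠ i)).card = Fintype.card V := by
      rw [← Finset.card_univ (α := V)]
      exact Finset.card_filter_add_card_filter_not (s := Finset.univ) (fun v => c v = i)
    have hr0 : (0 : ℝ) < (r : ℝ) := by
      have : 0 < r := by omega
      exact_mod_cast this
    have h2 : (Fintype.card V : ℝ) ≤ r * ((Finset.univ.filter (fun v => c v = i)).card : ℝ) := by
      exact_mod_cast hi
    have h3 : ((Finset.univ.filter (fun v => c v = i)).card : ℝ)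
        + ((Finset.univ.filter (fun v => c v ≠ i)).card : ℝ) = (Fintype.card V : ℝ) := by
      exact_mod_cast h1
    push_cast
    rw [show (r : ℝ) + 1 - 2 = r - 1 by ring, show (r : ℝ) + 1 - 1 = r by ring, div_mul_eq_mul_div,
      le_div_iff₀ hr0]
    nlinarith

end Pool.Agent.S11473
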