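import Pool.Statements.S11561
import Pool.Agent.Lib.MP_d0323d_co.Final

set_option autoImplicit false
open Classical Filter Topology
open Pool Pool.MP_d0323d_co

namespace Pool.Agent.S11561

/-- There are thresholds pc(n) in (0,1] such that, for every 0<ε<1, the random 2-complex on n vertices with triangle probability (1−ε)pc(n) is simply connected with probability tending to 0, and with probability min(1,(1+ε)pc(n)) with probability tending to 1. -/
theorem result :
    ∃ pc : ℕ → ℝ, (∀ n, 0 < pc n ∧ pc n ≤ 1) ∧ ∀ ε : ℝ, 0 < ε → ε < 1 →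
      Tendsto (fun n : ℕ =>
        ∑ F ∈ ((Finset.univ : Finset (Finset (Fin n))).filter
                (fun s : Finset (Fin n) => s.card = 3)).powerset,
          if (∀ x : PresentedGroup
                {r : FreeGroup (Fin n × Fin n) |
                  (∃ i : Fin n, r = FreeGroup.of (i, i)) ∨
                  (∃ i j : Fin n, r = FreeGroup.of (i, j) * FreeGroup.of (j, i)) ∨
                  (∃ i j : Fin n, i.val = 0 ∧ r = FreeGroup.of (i, j)) ∨
                  (∃ i j k : Fin n, ({i, j, k} : Finset (Fin n)) ∈ F ∧
                    r = FreeGroup.of (i, j) * FreeGroup.of (j, k) * (FreeGroup.of (i, k))⁻¹)},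
                x = 1)
          then ((1 - ε) * pc n) ^ F.card *
               (1 - (1 - ε) * pc n) ^
                 (((Finset.univ : Finset (Finset (Fin n))).filter
                    (fun s : Finset (Fin n) => s.card = 3)).card - F.card)
          else 0) atTop (𝓝 0) ∧
      Tendsto (fun n : ℕ =>
        ∑ F ∈ ((Finset.univ : Finset (Finset (Fin n))).filter
                (fun s : Finset (Fin n) => s.card = 3)).powerset,
          if (∀ x : PresentedGroup
                {r : FreeGroup (Fin n × Fin n) |
                  (∃ i : Fin n, r = FreeGroup.of (i, i)) ∨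
                  (∃ i j : Fin n, r = FreeGroup.of (i, j) * FreeGroup.of (j, i)) ∨
                  (∃ i j : Fin n, i.val = 0 ∧ r = FreeGroup.of (i, j)) ∨
                  (∃ i j k : Fin n, ({i, j, k} : Finset (Fin n)) ∈ F ∧
                    r = FreeGroup.of (i, j) * FreeGroup.of (j, k) * (FreeGroup.of (i, k))⁻¹)},
                x = 1)
          then (min 1 ((1 + ε) * pc n)) ^ F.card *
               (1 - min 1 ((1 + ε) * pc n)) ^
                 (((Finset.univ : Finset (Finset (Fin n))).filter
                    (fun s : Finset (Fin n) => s.card = 3)).card - F.card)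
          else 0) atTop (𝓝 1) := by
  obtain ⟨pc, h1, h2⟩ := Pool.Agent.SC.final_real
  refine ⟨pc, h1, fun ε h0 h3 => ?_⟩
  obtain ⟨ha, hb⟩ := h2 ε h0 h3
  constructor
  · refine ha.congr (fun n => ?_)
    unfold Pool.Agent.SC.Pr Pool.Agent.SC.wP Pool.Agent.SC.Triv Pool.Agent.SC.FG
      Pool.Agent.SC.frels Pool.Agent.SC.tri
    refine Finset.sum_congr ?_ (fun F _ => ?_)
    · congr!
    · congr!
  · refine hb.congr (fun n => ?_)
    unfold Pool.Agent.SC.Pr Pool.Agent.SC.wP Pool.Agent.SC.Triv Pool.Agent.SC.FG
      Pool.Agent.SC.frels Pool.Agent.SC.tri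
    refine Finset.sum_congr ?_ (fun F _ => ?_)
    · congr!
    · congr!

end Pool.Agent.S11561
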