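import Pool.Statements.S11834
import Pool.Agent.Lib.MP_dbb207_co.Final

set_option autoImplicit false
open Pool Pool.MP_dbb207_co

namespace Pool.Agent.S11834

/-- The negation of the preceding statement: Take a matroid on a finite set whose bases are the invertible column sets of a matrix over a ring with unit subgroup G containing −1, where every normalized form has entries in G or 0. Then every four subsets of it satisfy Ingleton's rank inequality. -/
theorem result :
    ¬ (∀ (R : Type) [Ring R] [Nontrivial R] (G : Subgroup Rˣ), (-1 : Rˣ) ∈ G →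
    ∀ (E : Type) [Fintype E] (r : ℕ) (A : Matrix (Fin r) E R),
      (∀ (b : Fin r ↪ E) (N : Matrix (Fin r) (Fin r) R),
          N * A.submatrix id ⇑b = 1 → A.submatrix id ⇑b * N = 1 →
          ∀ (i : Fin r) (j : E), (N * A) i j = 0 ∨ ∃ g ∈ G, (g : R) = (N * A) i j) →
      ∀ M : Matroid E, M.E = Set.univ →
        (∀ B : Set E, M.IsBase B ↔
            ∃ b : Fin r ↪ E, Set.range ⇑b = B ∧ IsUnit (A.submatrix id ⇑b)) →
        ∀ P Q S T : Set E,
          M.eRk P + M.eRk Q + M.eRk (P ∪ Q ∪ S) + M.eRk (P ∪ Q ∪ T) + M.eRk (S ∪ T) ≤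
            M.eRk (P ∪ Q) + M.eRk (P ∪ S) + M.eRk (P ∪ T) + M.eRk (Q ∪ S) + M.eRk (Q ∪ T)) := by
  intro hall
  exact Pool.Agent.Lib.MP_dbb207_co.not_all False hall

end Pool.Agent.S11834
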