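import Pool.Statements.S12283
import Pool.Agent.Lib.MP_ee3a40_co.Final

set_option autoImplicit false
open Pool Pool.MP_ee3a40_co

namespace Pool.Agent.S12283

/-- If a complex number α is a root of the chromatic polynomial of some finite simple graph, then for every positive integer n, n times α is a root of the chromatic polynomial of some finite simple graph. -/
theorem result :
    ∀ α : ℂ,
      (∃ m : ℕ, ∃ G : SimpleGraph (Fin m), ∃ P : Polynomial ℤ,
        (∀ k : ℕ, P.eval (k : ℤ) = (Nat.card (G.Coloring (Fin k)) : ℤ)) ∧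
        Polynomial.aeval α P = 0) →
      ∀ n : ℕ, 0 < n →
        ∃ m : ℕ, ∃ G : SimpleGraph (Fin m), ∃ P : Polynomial ℤ,
          (∀ k : ℕ, P.eval (k : ℤ) = (Nat.card (G.Coloring (Fin k)) : ℤ)) ∧
          Polynomial.aeval ((n : ℂ) * α) P = 0 := by
  intro α h n hn
  exact Pool.Agent.Lib.MP_ee3a40_co.alpha_n α h n hn

end Pool.Agent.S12283
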