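import Pool.Statements.S12468

/-!
# A Latin square of order 256 without 128 pairwise disjoint duplexes

`L(i,j) = i + j + δ(i,j) mod 2^k`, `k = 8`, where `δ(i,j) = 1` if `i` and `j` have disjoint binary expansions,
`δ(i,j) = -2^t` if the last digit `1` of `i` and of `j` is the digit of `2^t` in both, and `i`, `j` have no other
common digit `1`, and `δ(i,j) = 0` otherwise (the Cayley table of `ℤ/2^k` with the trade given by the dissection of
an equilateral triangle of side `2^k` whose parts are the unit triangles and the holes of Sierpinski's gasket).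

* The sum of `δ` over all cells is `2^k`.
* The sum of `δ` over a duplex is divisible by `2^k` (add the symbols, the rows and the columns).
* The sum of `δ` over a duplex is at most the number of its cells with `δ = 1`. For such a cell the digits `1` of `i`,
  of `j` and of `2^k - 1 - (i + j)` partition the `k = 8` places, so one of these numbers has at most two digits `1`;
  there are `1 + 8 + 28 = 37` such rows, columns and symbols, so at most `3 * 2 * 37 = 222 < 256` such cells.

So the sum over every duplex is at most `0`, and the cells do not split into duplexes.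
-/

set_option autoImplicit false
open Pool Pool.MP_f7b195_co

namespace Pool.Agent.S12468

/-- the first `k` binary digits of `i` and `j` have no common `1` -/
def disj : ℕ → ℕ → ℕ → Prop
  | 0, _, _ => True
  | k + 1, i, j => ¬ (i % 2 = 1 ∧ j % 2 = 1) ∧ disj k (i / 2) (j / 2)

open Classical in
/-- the defect -/
noncomputable def del : ℕ → ℕ → ℕ → ℤ
  | 0, _, _ => 1
  | k + 1, i, j =>
    if disj k (i / 2) (j / 2) then (if i % 2 = 1 ∧ j % 2 = 1 then -1 else 1)
    else (if i % 2 = 0 ∧ j % 2 = 0 then 2 * del k (i / 2) (j / 2) else 0)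

theorem disj_comm (k i j : ℕ) : disj k i j ↔ disj k j i := by
  induction k generalizing i j with
  | zero => simp [disj]
  | succ k ih =>
    unfold disj
    rw [ih (i / 2) (j / 2), and_comm (a := i % 2 = 1)]

theorem del_comm (k i j : ℕ) : del k i j = del k j i := by
  induction k generalizing i j with
  | zero => simp [del]
  | succ k ih =>
    unfold del
    rw [ih (i / 2) (j / 2)]
    simp only [and_comm (a := i % 2 = 1), and_comm (a := i % 2 = 0)]
    by_cases h : disj k (i / 2) (j / 2)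
    · rw [if_pos h, if_pos ((disj_comm _ _ _).1 h)]
    · rw [if_neg h, if_neg (fun h' => h ((disj_comm _ _ _).1 h'))]

theorem del_disj (k i j : ℕ) (h : disj k i j) : del k i j = 1 := by
  cases k with
  | zero => simp [del]
  | succ k =>
    unfold disj at h
    unfold del
    rw [if_pos h.2, if_neg h.1]

theorem del_not (k i j : ℕ) (h : ¬ disj k i j) : del k i j ≤ 0 := by
  induction k generalizing i j with
  | zero => exact absurd trivial h
  | succ k ih =>
    unfold disj at h
    unfold del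
    by_cases h1 : disj k (i / 2) (j / 2)
    · rw [if_pos h1]
      have h2 : i % 2 = 1 ∧ j % 2 = 1 := by
        by_contra h3
        exact h ⟨h3, h1⟩
      rw [if_pos h2]
      norm_num
    · rw [if_neg h1]
      have := ih _ _ h1
      split_ifs
      · omega
      · exact le_refl 0

/-- the entry before reduction modulo `2^k` -/
noncomputable def V (k i j : ℕ) : ℤ := (i : ℤ) + j + del k i j

theorem V_odd (k i j : ℕ) (ha : i % 2 = 1) :
    ∃ e : ℕ, e < 2 ∧ V (k + 1) i j = 2 * (((i / 2 : ℕ) : ℤ) + ((j / 2 : ℕ) : ℤ)) + 1 + e ∧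
      (disj k (i / 2) (j / 2) → e + j % 2 = 1) ∧ (¬ disj k (i / 2) (j / 2) → e = j % 2) := by
  by_cases h : disj k (i / 2) (j / 2)
  · rcases Nat.mod_two_eq_zero_or_one j with b | b
    · refine ⟨1, by norm_num, ?_, fun _ => by omega, fun h' => absurd h h'⟩
      unfold V del
      rw [if_pos h, if_neg (by omega)]
      omega
    · refine ⟨0, by norm_num, ?_, fun _ => by omega, fun h' => absurd h h'⟩
      unfold V del
      rw [if_pos h, if_pos ⟨ha, b⟩]
      omega
  · refine ⟨j % 2, by omega, ?_, fun h' => absurd h' h, fun _ => rfl⟩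
    unfold V del
    rw [if_neg h, if_neg (by omega)]
    omega

theorem V_even (k i j : ℕ) (ha : i % 2 = 0) :
    (V (k + 1) i j = 2 * (((i / 2 : ℕ) : ℤ) + ((j / 2 : ℕ) : ℤ)) + 1 ∧
      (disj k (i / 2) (j / 2) → j % 2 = 0) ∧ (¬ disj k (i / 2) (j / 2) → j % 2 = 1)) ∨
    (V (k + 1) i j = 2 * V k (i / 2) (j / 2) ∧
      (disj k (i / 2) (j / 2) → j % 2 = 1) ∧ (¬ disj k (i / 2) (j / 2) → j % 2 = 0)) := by
  by_cases h : disj k (i / 2) (j / 2)
  · rcases Nat.mod_two_eq_zero_or_one j with b | b
    · left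
      refine ⟨?_, fun _ => b, fun h' => absurd h h'⟩
      unfold V del
      rw [if_pos h, if_neg (by omega)]
      omega
    · right
      refine ⟨?_, fun _ => b, fun h' => absurd h h'⟩
      have h1 := del_disj _ _ _ h
      unfold V
      rw [h1]
      unfold del
      rw [if_pos h, if_neg (by omega)]
      omega
  · rcases Nat.mod_two_eq_zero_or_one j with b | b
    · right
      refine ⟨?_, fun h' => absurd h' h, fun _ => b⟩
      unfold V
      rw [del, if_neg h, if_pos ⟨ha, b⟩]
      omega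
    · left
      refine ⟨?_, fun h' => absurd h' h, fun _ => b⟩
      unfold V del
      rw [if_neg h, if_neg (by omega)]
      omega

theorem eq_of_dvd (k a b : ℕ) (ha : a < 2 ^ k) (hb : b < 2 ^ k) (q : ℤ)
    (h : (a : ℤ) - b = 2 ^ k * q) : a = b := by
  have a1 : (a : ℤ) < 2 ^ k := by exact_mod_cast ha
  have a2 : (b : ℤ) < 2 ^ k := by exact_mod_cast hb
  have a5 : (0 : ℤ) < 2 ^ k := by positivity
  have c0 : q = 0 := by
    by_contra hne
    rcases lt_or_gt_of_ne hne with hlt | hgt
    · have : (2 ^ k : ℤ) * q ≤ 2 ^ k * (-1) := mul_le_mul_of_nonneg_left (by omega) a5.le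
      omega
    · have : (2 ^ k : ℤ) * 1 ≤ 2 ^ k * q := mul_le_mul_of_nonneg_left (by omega) a5.le
      omega
  rw [c0, mul_zero] at h
  omega

/-- rows are injective modulo `2^k` -/
theorem row_inj (k : ℕ) : ∀ i j₁ j₂ : ℕ, j₁ < 2 ^ k → j₂ < 2 ^ k →
    ∀ q : ℤ, V k i j₁ - V k i j₂ = 2 ^ k * q → j₁ = j₂ := by
  induction k with
  | zero => intro i j₁ j₂ h1 h2 _ _; omega
  | succ k ih =>
    intro i j₁ j₂ h1 h2 q hd
    have hpow : (2 : ℤ) ^ (k + 1) * q = 2 * (2 ^ k * q) := by ring
    have hpn : (2 : ℕ) ^ (k + 1) = 2 * 2 ^ k := by ring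
    rw [hpow] at hd
    rw [hpn] at h1 h2
    have hj1 : j₁ / 2 < 2 ^ k := by omega
    have hj2 : j₂ / 2 < 2 ^ k := by omega
    rcases Nat.mod_two_eq_zero_or_one i with ha | ha
    · rcases V_even k i j₁ ha with ⟨e1, f1, g1⟩ | ⟨e1, f1, g1⟩ <;>
      rcases V_even k i j₂ ha with ⟨e2, f2, g2⟩ | ⟨e2, f2, g2⟩ <;>
      rw [e1, e2] at hd
      · have h3 : j₁ / 2 = j₂ / 2 := eq_of_dvd k _ _ hj1 hj2 q (by omega)
        rw [h3] at f1 g1
        by_cases h4 : disj k (i / 2) (j₂ / 2)
        · have := f1 h4; have := f2 h4; omega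
        · have := g1 h4; have := g2 h4; omega
      · omega
      · omega
      · have h3 : j₁ / 2 = j₂ / 2 := ih (i / 2) _ _ hj1 hj2 q (by omega)
        rw [h3] at f1 g1
        by_cases h4 : disj k (i / 2) (j₂ / 2)
        · have := f1 h4; have := f2 h4; omega
        · have := g1 h4; have := g2 h4; omega
    · obtain ⟨x1, b1, e1, f1, g1⟩ := V_odd k i j₁ ha
      obtain ⟨x2, b2, e2, f2, g2⟩ := V_odd k i j₂ ha
      rw [e1, e2] at hd
      have h3 : j₁ / 2 = j₂ / 2 := eq_of_dvd k _ _ hj1 hj2 q (by omega)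
      have h5 : x1 = x2 := by omega
      rw [h3] at f1 g1
      by_cases h4 : disj k (i / 2) (j₂ / 2)
      · have := f1 h4; have := f2 h4; omega
      · have := g1 h4; have := g2 h4; omega

/-- sum over the even and the odd numbers -/
theorem sum_two (f : ℕ → ℤ) (m : ℕ) :
    ∑ x ∈ Finset.range (2 * m), f x = ∑ x ∈ Finset.range m, (f (2 * x) + f (2 * x + 1)) := by
  induction m with
  | zero => simp
  | succ m ih =>
    rw [show 2 * (m + 1) = 2 * m + 1 + 1 by ring, Finset.sum_range_succ, Finset.sum_range_succ, ih,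
      Finset.sum_range_succ]
    ring

theorem del_pos (k i j x y : ℕ) (hx : x / 2 = i) (hy : y / 2 = j) (h : disj k i j) :
    del (k + 1) x y = if x % 2 = 1 ∧ y % 2 = 1 then -1 else 1 := by
  subst hx hy
  unfold del
  rw [if_pos h]

theorem del_neg (k i j x y : ℕ) (hx : x / 2 = i) (hy : y / 2 = j) (h : ¬ disj k i j) :
    del (k + 1) x y = if x % 2 = 0 ∧ y % 2 = 0 then 2 * del k i j else 0 := by
  subst hx hy
  rw [del, if_neg h]

theorem del_four (k i j : ℕ) : del (k + 1) (2 * i) (2 * j) + del (k + 1) (2 * i) (2 * j + 1) +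
    (del (k + 1) (2 * i + 1) (2 * j) + del (k + 1) (2 * i + 1) (2 * j + 1)) = 2 * del k i j := by
  have a1 : 2 * i / 2 = i := by omega
  have a2 : (2 * i + 1) / 2 = i := by omega
  have a3 : 2 * j / 2 = j := by omega
  have a4 : (2 * j + 1) / 2 = j := by omega
  by_cases h : disj k i j
  · rw [del_pos k i j _ _ a1 a3 h, del_pos k i j _ _ a1 a4 h, del_pos k i j _ _ a2 a3 h,
      del_pos k i j _ _ a2 a4 h, del_disj k i j h, if_neg (by omega), if_neg (by omega),
      if_neg (by omega), if_pos (by omega)]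
    norm_num
  · rw [del_neg k i j _ _ a1 a3 h, del_neg k i j _ _ a1 a4 h, del_neg k i j _ _ a2 a3 h,
      del_neg k i j _ _ a2 a4 h, if_pos (by omega), if_neg (by omega),
      if_neg (by omega), if_neg (by omega)]
    ring

theorem del_sum (k : ℕ) :
    ∑ i ∈ Finset.range (2 ^ k), ∑ j ∈ Finset.range (2 ^ k), del k i j = 2 ^ k := by
  induction k with
  | zero => simp [del]
  | succ k ih =>
    rw [show (2 : ℕ) ^ (k + 1) = 2 * 2 ^ k by ring, sum_two]
    have h1 : ∀ i ∈ Finset.range (2 ^ k),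
        ∑ j ∈ Finset.range (2 * 2 ^ k), del (k + 1) (2 * i) j +
          ∑ j ∈ Finset.range (2 * 2 ^ k), del (k + 1) (2 * i + 1) j =
        2 * ∑ j ∈ Finset.range (2 ^ k), del k i j := by
      intro i _
      rw [sum_two, sum_two, ← Finset.sum_add_distrib, Finset.mul_sum]
      refine Finset.sum_congr rfl (fun j _ => ?_)
      exact del_four k i j
    rw [Finset.sum_congr rfl h1, ← Finset.mul_sum, ih]
    ring

/-- number of digits `1` among the first `k` -/
def pc : ℕ → ℕ → ℕ
  | 0, _ => 0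
  | k + 1, x => x % 2 + pc k (x / 2)

theorem pc_disj (k : ℕ) : ∀ i j : ℕ, i < 2 ^ k → j < 2 ^ k → disj k i j →
    i + j < 2 ^ k ∧ pc k i + pc k j + pc k (2 ^ k - 1 - (i + j)) = k := by
  induction k with
  | zero => intro i j h1 h2 _; simp only [pow_zero] at h1 h2; simp [pc]; omega
  | succ k ih =>
    intro i j h1 h2 hd
    have hpn : (2 : ℕ) ^ (k + 1) = 2 * 2 ^ k := by ring
    rw [hpn] at h1 h2 ⊢
    unfold disj at hd
    obtain ⟨h3, h4⟩ := ih (i / 2) (j / 2) (by omega) (by omega) hd.2
    refine ⟨by omega, ?_⟩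
    have h5 : (2 * 2 ^ k - 1 - (i + j)) / 2 = 2 ^ k - 1 - (i / 2 + j / 2) := by omega
    simp only [pc]
    rw [h5]
    omega

/-- the Latin square of order 256 -/
noncomputable def L (i j : Fin 256) : Fin 256 :=
  ⟨(V 8 i.1 j.1 % 256).toNat, by
    have h1 := Int.emod_nonneg (V 8 i.1 j.1) (by norm_num : (256 : ℤ) ≠ 0)
    have h2 := Int.emod_lt_of_pos (V 8 i.1 j.1) (by norm_num : (0 : ℤ) < 256)
    omega⟩

theorem L_val (i j : Fin 256) : ((L i j).1 : ℤ) = V 8 i.1 j.1 % 256 := by
  have h1 := Int.emod_nonneg (V 8 i.1 j.1) (by norm_num : (256 : ℤ) ≠ 0)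
  show (((V 8 i.1 j.1 % 256).toNat : ℕ) : ℤ) = V 8 i.1 j.1 % 256
  omega

theorem L_row (i : Fin 256) : Function.Injective (L i) := by
  intro j₁ j₂ h
  have h1 := L_val i j₁
  have h2 := L_val i j₂
  rw [h] at h1
  have h3 : V 8 i.1 j₁.1 - V 8 i.1 j₂.1 = 2 ^ 8 * (V 8 i.1 j₁.1 / 256 - V 8 i.1 j₂.1 / 256) := by
    norm_num
    omega
  exact Fin.ext (row_inj 8 i.1 j₁.1 j₂.1 (by norm_num) (by norm_num) _ h3)

theorem L_comm (i j : Fin 256) : L i j = L j i := by
  apply Fin.ext
  have h1 := L_val i j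
  have h2 := L_val j i
  have h3 : V 8 i.1 j.1 = V 8 j.1 i.1 := by
    unfold V
    rw [del_comm]
    ring
  rw [h3] at h1
  omega

theorem L_col (j : Fin 256) : Function.Injective (fun i : Fin 256 => L i j) := by
  have h : (fun i : Fin 256 => L i j) = L j := by
    funext i
    exact L_comm i j
  rw [h]
  exact L_row j

/-- at most two binary digits `1` -/
def wN (x : ℕ) : ℕ := if pc 8 x ≤ 2 then 1 else 0

/-- the weight of a symbol -/
def vN (s : ℕ) : ℕ := wN (255 - (s + 255) % 256)

/-- the defect `δ(i,j)` -/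
noncomputable def dZ (c : Fin 256 × Fin 256) : ℤ := del 8 c.1.1 c.2.1

theorem dZ_le (c : Fin 256 × Fin 256) :
    dZ c ≤ (wN c.1.1 : ℤ) + wN c.2.1 + vN (L c.1 c.2).1 := by
  unfold dZ
  by_cases h : disj 8 c.1.1 c.2.1
  · obtain ⟨h1, h2⟩ := pc_disj 8 c.1.1 c.2.1 (by norm_num) (by norm_num) h
    rw [del_disj _ _ _ h]
    have h3 := L_val c.1 c.2
    unfold V at h3
    rw [del_disj _ _ _ h] at h3
    norm_num at h1 h2
    have h4 : ((L c.1 c.2).1 + 255) % 256 = c.1.1 + c.2.1 := by omega
    have h5 : (L c.1 c.2).1 + 255 = (L c.1 c.2).1 + 255 := rfl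
    unfold vN
    rw [h4]
    unfold wN
    split_ifs <;> omega
  · have h1 := del_not _ _ _ h
    omega

theorem dZ_mod (c : Fin 256 × Fin 256) :
    ∃ q : ℤ, dZ c = ((L c.1 c.2).1 : ℤ) - c.1.1 - c.2.1 + 256 * q := by
  refine ⟨V 8 c.1.1 c.2.1 / 256, ?_⟩
  have h1 := L_val c.1 c.2
  have h2 : dZ c = V 8 c.1.1 c.2.1 - c.1.1 - c.2.1 := by
    unfold dZ V
    ring
  omega

theorem dZ_sum : ∑ c : Fin 256 × Fin 256, dZ c = 256 := by
  have h := del_sum 8
  norm_num at h
  rw [Fintype.sum_prod_type, ← h, Finset.sum_range]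
  refine Finset.sum_congr rfl (fun i _ => ?_)
  rw [Finset.sum_range]
  rfl

theorem sum_fib (D : Finset (Fin 256 × Fin 256)) (π : Fin 256 × Fin 256 → Fin 256)
    (h : ∀ r : Fin 256, (D.filter (fun c => π c = r)).card = 2) (w : Fin 256 → ℤ) :
    ∑ c ∈ D, w (π c) = 2 * ∑ r, w r := by
  rw [← Finset.sum_fiberwise_of_maps_to (s := D) (t := Finset.univ) (g := π)
    (fun _ _ => Finset.mem_univ _), Finset.mul_sum]
  refine Finset.sum_congr rfl (fun r _ => ?_)
  have h1 : ∀ c ∈ D.filter (fun c => π c = r), w (π c) = w r := fun c hc => by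
    rw [(Finset.mem_filter.1 hc).2]
  rw [Finset.sum_congr rfl h1, Finset.sum_const, h r]
  ring

theorem check_w : (∑ r : Fin 256, (wN r.1 : ℤ)) = 37 := by
  have h : ∑ r ∈ Finset.range 256, wN r = 37 := by decide +kernel
  rw [Finset.sum_range] at h
  exact_mod_cast h

theorem check_v : (∑ r : Fin 256, (vN r.1 : ℤ)) = 37 := by
  have h : ∑ r ∈ Finset.range 256, vN r = 37 := by decide +kernel
  rw [Finset.sum_range] at h
  exact_mod_cast h

theorem sum_id : ∑ i : Fin 256, ((i.1 : ℕ) : ℤ) = 32640 := by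
  have h6 : ∑ i : Fin 256, i.1 = 32640 := by
    rw [← Finset.sum_range (fun i => i), Finset.sum_range_id]
  exact_mod_cast h6

/-- the sum of `δ` over a duplex is at most zero -/
theorem duplex_le (D : Finset (Fin 256 × Fin 256))
    (hr : ∀ r : Fin 256, (D.filter (fun c : Fin 256 × Fin 256 => c.1 = r)).card = 2)
    (hc : ∀ s : Fin 256, (D.filter (fun c : Fin 256 × Fin 256 => c.2 = s)).card = 2)
    (hs : ∀ v : Fin 256, (D.filter (fun c : Fin 256 × Fin 256 => L c.1 c.2 = v)).card = 2) :
    ∑ c ∈ D, dZ c ≤ 0 := by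
  have hle : ∑ c ∈ D, dZ c ≤ 222 := by
    calc ∑ c ∈ D, dZ c ≤ ∑ c ∈ D, ((wN c.1.1 : ℤ) + wN c.2.1 + vN (L c.1 c.2).1) :=
          Finset.sum_le_sum (fun c _ => dZ_le c)
      _ = 222 := by
          rw [Finset.sum_add_distrib, Finset.sum_add_distrib,
            sum_fib D (fun c => c.1) hr (fun r => (wN r.1 : ℤ)),
            sum_fib D (fun c => c.2) hc (fun r => (wN r.1 : ℤ)),
            sum_fib D (fun c => L c.1 c.2) hs (fun r => (vN r.1 : ℤ)), check_w, check_v]
          norm_num
  choose q hq using dZ_mod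
  have hmod : ∑ c ∈ D, dZ c = -65280 + 256 * ∑ c ∈ D, q c := by
    calc ∑ c ∈ D, dZ c = ∑ c ∈ D, (((L c.1 c.2).1 : ℤ) - c.1.1 - c.2.1 + 256 * q c) :=
          Finset.sum_congr rfl (fun c _ => hq c)
      _ = -65280 + 256 * ∑ c ∈ D, q c := by
          rw [Finset.sum_add_distrib, Finset.sum_sub_distrib, Finset.sum_sub_distrib,
            sum_fib D (fun c => c.1) hr (fun r => ((r.1 : ℕ) : ℤ)),
            sum_fib D (fun c => c.2) hc (fun r => ((r.1 : ℕ) : ℤ)),
            sum_fib D (fun c => L c.1 c.2) hs (fun r => ((r.1 : ℕ) : ℤ)), sum_id, Finset.mul_sum]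
          norm_num
  omega

/-- The negation of the preceding statement: Every Latin square of order n contains ⌊n/2⌋ pairwise disjoint duplexes: cell sets with exactly two cells in each row, two in each column, and two carrying each symbol. -/
theorem result :
    ¬ (∀ (n : ℕ) (L : Fin n → Fin n → Fin n),
      (∀ i : Fin n, Function.Injective (L i)) →
      (∀ j : Fin n, Function.Injective (fun i : Fin n => L i j)) →
      ∃ D : Fin (n / 2) → Finset (Fin n × Fin n),
        (∀ k : Fin (n / 2),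
          (∀ r : Fin n, ((D k).filter (fun c : Fin n × Fin n => c.1 = r)).card = 2) ∧
          (∀ s : Fin n, ((D k).filter (fun c : Fin n × Fin n => c.2 = s)).card = 2) ∧
          (∀ v : Fin n, ((D k).filter (fun c : Fin n × Fin n => L c.1 c.2 = v)).card = 2)) ∧
        (∀ a b : Fin (n / 2), a ≠ b → Disjoint (D a) (D b))) := by
  intro h
  obtain ⟨D, hD, hdisj⟩ := h 256 L L_row L_col
  have hcard : ∀ k, (D k).card = 512 := by
    intro k
    have h1 := sum_fib (D k) (fun c => c.1) (hD k).1 (fun _ => 1)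
    simp only [Finset.sum_const, Finset.card_univ, Fintype.card_fin] at h1
    have h2 : ((D k).card : ℤ) = 512 := by
      simpa using h1
    exact_mod_cast h2
  have hpd : ((Finset.univ : Finset (Fin (256 / 2))) : Set (Fin (256 / 2))).PairwiseDisjoint D := by
    intro a _ b _ hab
    exact hdisj a b hab
  have huniv : Finset.univ.biUnion D = Finset.univ := by
    apply Finset.eq_univ_of_card
    rw [Finset.card_biUnion (fun a _ b _ hab => hdisj a b hab)]
    simp only [hcard, Finset.sum_const, Finset.card_univ, Fintype.card_fin, Fintype.card_prod]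
    norm_num
  have h1 : ∑ c : Fin 256 × Fin 256, dZ c = ∑ k, ∑ c ∈ D k, dZ c := by
    rw [← huniv, Finset.sum_biUnion hpd]
  have h2 : ∑ k, ∑ c ∈ D k, dZ c ≤ 0 :=
    Finset.sum_nonpos (fun k _ => duplex_le (D k) (hD k).1 (hD k).2.1 (hD k).2.2)
  rw [dZ_sum] at h1
  omega

end Pool.Agent.S12468
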