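import Pool.Statements.S12920
-- import your own Pool.Agent.* helpers here

set_option autoImplicit false
open Pool Pool.MP_28bdbe_gt

namespace Pool.Agent.S12920

/-- The square `|3x + y| ≤ 10`, `|3y - x| ≤ 10`. -/
def sq : Set (ℝ × ℝ) := {p | (-10 ≤ 3 * p.1 + p.2 ∧ 3 * p.1 + p.2 ≤ 10) ∧
  (-10 ≤ -p.1 + 3 * p.2 ∧ -p.1 + 3 * p.2 ≤ 10)}

lemma sq_convex : Convex ℝ sq := by
  rintro ⟨x, y⟩ ⟨⟨h1, h2⟩, h3, h4⟩ ⟨x', y'⟩ ⟨⟨h5, h6⟩, h7, h8⟩ a b ha hb hab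
  simp only at h1 h2 h3 h4 h5 h6 h7 h8
  have hb' : b = 1 - a := by linarith
  subst hb'
  refine ⟨⟨?_, ?_⟩, ?_, ?_⟩ <;>
    simp only [Prod.smul_mk, Prod.mk_add_mk, smul_eq_mul] <;> nlinarith

lemma cont1 : Continuous fun p : ℝ × ℝ => 3 * p.1 + p.2 := by fun_prop

lemma cont2 : Continuous fun p : ℝ × ℝ => -p.1 + 3 * p.2 := by fun_prop

lemma sq_closed : IsClosed sq := by
  apply IsClosed.inter
  · exact (isClosed_le continuous_const cont1).inter (isClosed_le cont1 continuous_const)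
  · exact (isClosed_le continuous_const cont2).inter (isClosed_le cont2 continuous_const)

lemma sq_compact : IsCompact sq := by
  apply IsCompact.of_isClosed_subset (isCompact_Icc (a := ((-4, -4) : ℝ × ℝ)) (b := (4, 4)))
    sq_closed
  rintro ⟨x, y⟩ ⟨⟨h1, h2⟩, h3, h4⟩
  simp only at h1 h2 h3 h4
  rw [Set.mem_Icc, Prod.mk_le_mk, Prod.mk_le_mk]
  refine ⟨⟨?_, ?_⟩, ?_, ?_⟩ <;> linarith

lemma sq_interior : (interior sq).Nonempty := by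
  refine ⟨(0, 0), ?_⟩
  rw [mem_interior]
  refine ⟨{p | (-10 < 3 * p.1 + p.2 ∧ 3 * p.1 + p.2 < 10) ∧
    (-10 < -p.1 + 3 * p.2 ∧ -p.1 + 3 * p.2 < 10)}, ?_, ?_, ?_⟩
  · rintro p ⟨⟨h1, h2⟩, h3, h4⟩
    exact ⟨⟨h1.le, h2.le⟩, h3.le, h4.le⟩
  · apply IsOpen.inter
    · exact (isOpen_lt continuous_const cont1).inter (isOpen_lt cont1 continuous_const)
    · exact (isOpen_lt continuous_const cont2).inter (isOpen_lt cont2 continuous_const)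
  · simp

/-- The negation of the preceding statement: Every compact convex planar set with nonempty interior equals the set where f1+f2+f3+f4 ≥ 0, for some measurable ridge functions f1..f4 in directions (1,0), (0,1), (2,1), (-1,2). -/
theorem result :
    ¬ (∀ K : Set (ℝ × ℝ), Convex ℝ K → IsCompact K → (interior K).Nonempty →
      ∃ f₁ f₂ f₃ f₄ : ℝ × ℝ → ℝ,
        Measurable f₁ ∧ Measurable f₂ ∧ Measurable f₃ ∧ Measurable f₄ ∧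
        (∃ g₁ : ℝ → ℝ, ∀ x : ℝ × ℝ, f₁ x = g₁ x.1) ∧
        (∃ g₂ : ℝ → ℝ, ∀ x : ℝ × ℝ, f₂ x = g₂ x.2) ∧
        (∃ g₃ : ℝ → ℝ, ∀ x : ℝ × ℝ, f₃ x = g₃ (2 * x.1 + x.2)) ∧
        (∃ g₄ : ℝ → ℝ, ∀ x : ℝ × ℝ, f₄ x = g₄ (-x.1 + 2 * x.2)) ∧
        K = {x : ℝ × ℝ | 0 ≤ f₁ x + f₂ x + f₃ x + f₄ x}) := by
  intro h
  obtain ⟨f₁, f₂, f₃, f₄, -, -, -, -, ⟨g₁, h₁⟩, ⟨g₂, h₂⟩, ⟨g₃, h₃⟩, ⟨g₄, h₄⟩, hK⟩ :=
    h sq sq_convex sq_compact sq_interior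
  have key : ∀ x y : ℝ, ((-10 ≤ 3 * x + y ∧ 3 * x + y ≤ 10) ∧
      (-10 ≤ -x + 3 * y ∧ -x + 3 * y ≤ 10)) ↔
      0 ≤ g₁ x + g₂ y + g₃ (2 * x + y) + g₄ (-x + 2 * y) := by
    intro x y
    have h5 : ((x, y) : ℝ × ℝ) ∈ sq ↔
        ((x, y) : ℝ × ℝ) ∈ {x : ℝ × ℝ | 0 ≤ f₁ x + f₂ x + f₃ x + f₄ x} := by rw [← hK]
    change ((x, y) : ℝ × ℝ) ∈ sq ↔ 0 ≤ f₁ (x, y) + f₂ (x, y) + f₃ (x, y) + f₄ (x, y) at h5
    rw [h₁, h₂, h₃, h₄] at h5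
    exact h5
  have a1 := (key (-4) 2).1 (by norm_num)
  have a2 := (key (-3) (-1)).1 (by norm_num)
  have a3 := (key (-2) (-4)).1 (by norm_num)
  have a4 := (key (-1) 3).1 (by norm_num)
  have a5 := (key 1 (-3)).1 (by norm_num)
  have a6 := (key 2 4).1 (by norm_num)
  have a7 := (key 3 1).1 (by norm_num)
  have a8 := (key 4 (-2)).1 (by norm_num)
  have b1 := mt (key (-4) 1).2 (by norm_num)
  have b2 := mt (key (-3) (-2)).2 (by norm_num)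
  have b3 := mt (key (-2) 3).2 (by norm_num)
  have b4 := mt (key (-1) (-4)).2 (by norm_num)
  have b5 := mt (key 1 4).2 (by norm_num)
  have b6 := mt (key 2 (-3)).2 (by norm_num)
  have b7 := mt (key 3 2).2 (by norm_num)
  have b8 := mt (key 4 (-1)).2 (by norm_num)
  rw [not_le] at b1 b2 b3 b4 b5 b6 b7 b8
  norm_num at a1 a2 a3 a4 a5 a6 a7 a8 b1 b2 b3 b4 b5 b6 b7 b8
  linarith

end Pool.Agent.S12920
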