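import Pool.Statements.S13288
import Pool.Agent.Lib.MP_64b69f_gt.Main

set_option autoImplicit false
open Pool Pool.MP_64b69f_gt

namespace Pool.Agent.S13288

/-- The negation of the preceding statement: Take any compact Hausdorff space in which the closure of every subset A has a network of size at most ∣A∣+aleph0. Then its continuous real functions, with pointwise topology, map continuously and injectively into some product of real lines with every image of countable support. -/
theorem result :
    ¬ (∀ (X : Type) [TopologicalSpace X] [CompactSpace X] [T2Space X],
      (∀ A : Set X, ∃ N : Set (Set X),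
          (∀ n ∈ N, n ⊆ closure A) ∧
          (∀ x ∈ closure A, ∀ U : Set X, IsOpen U → x ∈ U → ∃ n ∈ N, x ∈ n ∧ n ⊆ U) ∧
          Cardinal.mk N ≤ max (Cardinal.mk A) Cardinal.aleph0) →
      ∃ (ι : Type) (f : {h : X → ℝ // Continuous h} → (ι → ℝ)),
        Continuous f ∧ Function.Injective f ∧
        ∀ g : {h : X → ℝ // Continuous h}, Set.Countable {i : ι | f g i ≠ 0}) := by
  intro H
  exact Pool.Agent.Lib.MP_64b69f.main H

end Pool.Agent.S13288
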