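import Pool.Statements.S13448
import Pool.Agent.Lib.MP_7dfaf1_gt.Space

set_option autoImplicit false
open TopologicalSpace
open Pool Pool.MP_7dfaf1_gt

namespace Pool.Agent.S13448

/-- The negation of the preceding statement: Every T1 compact separable space with a base of clopen sets that is monotonically normal (has a monotone normality operator) has a linear order whose order topology is exactly its topology. -/
theorem result :
    ¬ (∀ (X : Type) [t : TopologicalSpace X],
      T1Space X → CompactSpace X → SeparableSpace X →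
      IsTopologicalBasis {s : Set X | IsClopen s} →
      (∃ H : X → Set X → Set X,
        (∀ (x : X) (U : Set X), IsOpen U → x ∈ U →
            IsOpen (H x U) ∧ x ∈ H x U ∧ H x U ⊆ U) ∧
        (∀ (x y : X) (U V : Set X), IsOpen U → IsOpen V → x ∈ U → y ∈ V →
            (H x U ∩ H y V).Nonempty → x ∈ V ∨ y ∈ U)) →
      ∃ o : LinearOrder X, t = @Preorder.topology X o.toPartialOrder.toPreorder) := by
  intro hall
  obtain ⟨o, ho⟩ := hall Pool.Agent.Lib.MP_7dfaf1_gt.Sp inferInstance inferInstance inferInstance
    isTopologicalBasis_isClopen ⟨Pool.Agent.Lib.MP_7dfaf1_gt.HH, Pool.Agent.Lib.MP_7dfaf1_gt.HH_spec⟩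
  let _ := o
  have : OrderTopology Pool.Agent.Lib.MP_7dfaf1_gt.Sp := ⟨ho⟩
  exact Pool.Agent.Lib.MP_7dfaf1_gt.not_orderable

end Pool.Agent.S13448
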