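import Pool.Statements.S13540
import Pool.Agent.Lib.MP_8bbda9_gt.Homeo

set_option autoImplicit false
universe u
open Pool Pool.MP_8bbda9_gt

namespace Pool.Agent.S13540

/-- There is a Tychonoff space `Pt` with all countable subsets closed such that `C_p(Pt)` is (even
linearly) homeomorphic with `C_p(Pt ⊕ S)`, `S` a convergent sequence.
The negation of the preceding statement: For Tychonoff spaces X and Y whose spaces of continuous real functions with the pointwise topology are homeomorphic, if every countable subset of X is closed, then every countable subset of Y is closed. -/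
theorem result :
    ¬ (∀ (X Y : Type u) [TopologicalSpace X] [TopologicalSpace Y] [T35Space X] [T35Space Y],
      Nonempty ({f : X → ℝ // Continuous f} ≃ₜ {g : Y → ℝ // Continuous g}) →
      (∀ s : Set X, s.Countable → IsClosed s) →
      ∀ t : Set Y, t.Countable → IsClosed t) := by
  intro h
  have h1 := h Pool.Agent.Lib.MP_8bbda9_gt.Pt.{u}
    (Pool.Agent.Lib.MP_8bbda9_gt.Pt.{u} ⊕ Pool.Agent.Lib.MP_8bbda9_gt.Sq.{u})
    ⟨Pool.Agent.Lib.MP_8bbda9_gt.homeo⟩
    (fun s hs => Pool.Agent.Lib.MP_8bbda9_gt.isClosed_of_countable hs)
  exact Pool.Agent.Lib.MP_8bbda9_gt.not_isClosed_range (h1 _ (Set.countable_range _))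

end Pool.Agent.S13540
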