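import Pool.Statements.S13839
import Pool.Agent.Lib.MP_bd1dbb_gt.Final

set_option autoImplicit false
open Pool Pool.MP_bd1dbb_gt

namespace Pool.Agent.S13839

/-- Every compact connected metric space that, for each ε>0, maps continuously onto the closed unit disk with all fibers of diameter less than ε has the property that every homeomorphism of it with some iterate equal to the identity has a fixed point. -/
theorem result :
    ∀ (X : Type) [MetricSpace X] [CompactSpace X] [ConnectedSpace X],
      (∀ ε : ℝ, 0 < ε → ∃ f : X → EuclideanSpace ℝ (Fin 2), Continuous f ∧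
          Set.range f = Metric.closedBall (0 : EuclideanSpace ℝ (Fin 2)) 1 ∧
          ∀ y : EuclideanSpace ℝ (Fin 2), Metric.diam (f ⁻¹' {y}) < ε) →
      ∀ h : X ≃ₜ X, (∃ n : ℕ, 0 < n ∧ ∀ x : X, (⇑h)^[n] x = x) → ∃ x : X, h x = x := by
  intro X _ _ _ H h hn
  obtain ⟨n, hn, hper⟩ := hn
  exact Pool.Agent.MPbd.main (X := X) H n hn h h.continuous hper

end Pool.Agent.S13839
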