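import Pool.Statements.S14985
import Pool.Agent.Lib.MP_84734f_lc.Final

set_option autoImplicit false
open MeasureTheory ProbabilityTheory
open Pool Pool.MP_84734f_lc

namespace Pool.Agent.S14985

open Pool.Agent.Lib.MP_84734f_lc in
theorem entry_le {m n : ℕ} (A₀ : Matrix (Fin m) (Fin n) ℝ) (b₀ : Fin m → ℝ) (c₀ : Fin n → ℝ)
    (i : Ix m n) :
    |(Sum.elim (fun p : Fin m × Fin n => A₀ p.1 p.2) (Sum.elim b₀ c₀) : Ix m n → ℝ) i|
      ≤ Real.sqrt ((∑ i : Fin m, ∑ j : Fin n, A₀ i j ^ 2)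
        + (∑ i : Fin m, b₀ i ^ 2) + (∑ j : Fin n, c₀ j ^ 2)) := by
  apply Real.abs_le_sqrt
  have hA : 0 ≤ ∑ i : Fin m, ∑ j : Fin n, A₀ i j ^ 2 :=
    Finset.sum_nonneg fun _ _ => Finset.sum_nonneg fun _ _ => sq_nonneg _
  have hb : 0 ≤ ∑ i : Fin m, b₀ i ^ 2 := Finset.sum_nonneg fun _ _ => sq_nonneg _
  have hc : 0 ≤ ∑ j : Fin n, c₀ j ^ 2 := Finset.sum_nonneg fun _ _ => sq_nonneg _
  rcases i with p | i | j
  · have h1 : A₀ p.1 p.2 ^ 2 ≤ ∑ j : Fin n, A₀ p.1 j ^ 2 :=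
      Finset.single_le_sum (f := fun j => A₀ p.1 j ^ 2) (fun _ _ => sq_nonneg _)
        (Finset.mem_univ p.2)
    have h2 : ∑ j : Fin n, A₀ p.1 j ^ 2 ≤ ∑ i : Fin m, ∑ j : Fin n, A₀ i j ^ 2 :=
      Finset.single_le_sum (f := fun i => ∑ j : Fin n, A₀ i j ^ 2)
        (fun _ _ => Finset.sum_nonneg fun _ _ => sq_nonneg _) (Finset.mem_univ p.1)
    simp only [Sum.elim_inl]
    linarith
  · have h1 : b₀ i ^ 2 ≤ ∑ i : Fin m, b₀ i ^ 2 :=
      Finset.single_le_sum (f := fun i => b₀ i ^ 2) (fun _ _ => sq_nonneg _) (Finset.mem_univ i)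
    simp only [Sum.elim_inl, Sum.elim_inr]
    linarith
  · have h1 : c₀ j ^ 2 ≤ ∑ j : Fin n, c₀ j ^ 2 :=
      Finset.single_le_sum (f := fun j => c₀ j ^ 2) (fun _ _ => sq_nonneg _) (Finset.mem_univ j)
    simp only [Sum.elim_inr]
    linarith

open Pool.Agent.Lib.MP_84734f_lc in
/-- The statement for the set `FS`. -/
theorem main_bound (m n : ℕ) (σ : ℝ) (hσ : 0 < σ) (hσ1 : σ ≤ 1)
    (A₀ : Matrix (Fin m) (Fin n) ℝ) (b₀ : Fin m → ℝ) (c₀ : Fin n → ℝ) (N : ℝ)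
    (hN : N = Real.sqrt ((∑ i : Fin m, ∑ j : Fin n, A₀ i j ^ 2)
      + (∑ i : Fin m, b₀ i ^ 2) + (∑ j : Fin n, c₀ j ^ 2))) :
    MeasureTheory.lintegral
      (Measure.pi (fun _ : (Fin m × Fin n) ⊕ (Fin m ⊕ Fin n) => gaussianReal 0 1))
      (fun ω : ((Fin m × Fin n) ⊕ (Fin m ⊕ Fin n)) → ℝ =>
        ((FS (A₀ + (σ * N) • Matrix.of (fun (i : Fin m) (j : Fin n) => ω (Sum.inl (i, j))))
          (b₀ + (σ * N) • (fun i : Fin m => ω (Sum.inr (Sum.inl i))))
          (c₀ + (σ * N) • (fun j : Fin n => ω (Sum.inr (Sum.inr j))))).ncard : ENNReal))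
      ≤ ENNReal.ofReal (Cf * ((m : ℝ) + n + 1 / σ) ^ 28) := by
  have hent := entry_le A₀ b₀ c₀
  rw [← hN] at hent
  have hN0 : 0 ≤ N := by
    rw [hN]
    exact Real.sqrt_nonneg _
  rcases hN0.eq_or_lt with h0 | hpos
  · -- zero data
    have hA0 : A₀ = 0 := by
      ext i j
      have := hent (Sum.inl (i, j))
      rw [← h0] at this
      exact abs_nonpos_iff.1 this
    have h1 : ∀ ω : ((Fin m × Fin n) ⊕ (Fin m ⊕ Fin n)) → ℝ,
        ((FS (A₀ + (σ * N) • Matrix.of (fun (i : Fin m) (j : Fin n) => ω (Sum.inl (i, j))))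
          (b₀ + (σ * N) • (fun i : Fin m => ω (Sum.inr (Sum.inl i))))
          (c₀ + (σ * N) • (fun j : Fin n => ω (Sum.inr (Sum.inr j))))).ncard : ENNReal) ≤ 1 := by
      intro ω
      have h2 := ncard_FS_zero
        (A₀ + (σ * N) • Matrix.of (fun (i : Fin m) (j : Fin n) => ω (Sum.inl (i, j))))
        (by rw [hA0, ← h0, mul_zero, zero_smul, add_zero])
        (b₀ + (σ * N) • (fun i : Fin m => ω (Sum.inr (Sum.inl i))))
        (c₀ + (σ * N) • (fun j : Fin n => ω (Sum.inr (Sum.inr j))))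
      exact_mod_cast h2
    refine (MeasureTheory.lintegral_mono h1).trans ?_
    rw [MeasureTheory.lintegral_const, measure_univ, mul_one, ← ENNReal.ofReal_one]
    apply ENNReal.ofReal_le_ofReal
    have hs : 1 ≤ 1 / σ := by
      rw [le_div_iff₀ hσ]
      linarith
    have hD : 1 ≤ (m : ℝ) + n + 1 / σ := by
      have hm : (0 : ℝ) ≤ m := Nat.cast_nonneg m
      have hn : (0 : ℝ) ≤ n := Nat.cast_nonneg n
      linarith
    have h3 : 1 ≤ ((m : ℝ) + n + 1 / σ) ^ 28 := one_le_pow₀ hD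
    have h4 := one_le_Cf
    calc (1 : ℝ) = 1 * 1 := by norm_num
      _ ≤ _ := mul_le_mul h4 h3 zero_le_one (by linarith)
  · -- positive norm
    obtain ⟨x₀, hx₀⟩ : ∃ x₀ : Ix m n → ℝ, x₀ = fun i => N⁻¹ *
        (Sum.elim (fun p : Fin m × Fin n => A₀ p.1 p.2) (Sum.elim b₀ c₀) : Ix m n → ℝ) i :=
      ⟨_, rfl⟩
    have hx1 : ∀ i, |x₀ i| ≤ 1 := by
      intro i
      rw [hx₀]
      simp only
      rw [abs_mul, abs_of_pos (inv_pos.2 hpos), inv_mul_le_iff₀ hpos, mul_one]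
      exact hent i
    refine le_trans (MeasureTheory.lintegral_mono fun ω => ?_)
      ((expected_le (K := (Fintype.card (Ix m n) : ℝ) + 1) hσ hσ1 hx1 le_rfl).trans
        (ENNReal.ofReal_le_ofReal (Tb_le hσ hσ1)))
    have hsub := FS_scale (inv_pos.2 hpos)
      (A₀ + (σ * N) • Matrix.of (fun (i : Fin m) (j : Fin n) => ω (Sum.inl (i, j))))
      (b₀ + (σ * N) • (fun i : Fin m => ω (Sum.inr (Sum.inl i))))
      (c₀ + (σ * N) • (fun j : Fin n => ω (Sum.inr (Sum.inr j))))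
    have hcard := Set.ncard_le_ncard hsub (Set.toFinite _)
    have hbound := ncard_FS_le
      (N⁻¹ • (A₀ + (σ * N) • Matrix.of (fun (i : Fin m) (j : Fin n) => ω (Sum.inl (i, j)))))
      (N⁻¹ • (b₀ + (σ * N) • (fun i : Fin m => ω (Sum.inr (Sum.inl i)))))
      (N⁻¹ • (c₀ + (σ * N) • (fun j : Fin n => ω (Sum.inr (Sum.inr j)))))
    have hx : (((fun p => (N⁻¹ • (A₀ + (σ * N) •
          Matrix.of (fun (i : Fin m) (j : Fin n) => ω (Sum.inl (i, j))))) p.1 p.2),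
        N⁻¹ • (b₀ + (σ * N) • (fun i : Fin m => ω (Sum.inr (Sum.inl i)))),
        N⁻¹ • (c₀ + (σ * N) • (fun j : Fin n => ω (Sum.inr (Sum.inr j))))) : X m n)
        = toX (x₀ + σ • ω) := by
      have hNN : ∀ a w : ℝ, N⁻¹ * (a + σ * N * w) = N⁻¹ * a + σ * w := by
        intro a w
        field_simp
      rw [hx₀]
      refine Prod.ext ?_ (Prod.ext ?_ ?_)
      · funext p
        exact hNN _ _
      · funext i
        exact hNN _ _
      · funext j
        exact hNN _ _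
    rw [hx] at hbound
    refine le_trans ?_ hbound
    exact_mod_cast hcard

/-- Some σ₀>0, C, k exist so that for all m, n, σ in (0,σ₀] and data, the expected number of bases optimal for LP(t) at some t≥0 (the self-dual parametric path), under entrywise Gaussian noise of size σ times the Frobenius norm, is at most C(m+n+1/σ)^k. -/
theorem result :
    ∃ σ₀ : ℝ, 0 < σ₀ ∧ ∃ C : ℝ, ∃ k : ℕ, ∀ m n : ℕ, ∀ σ : ℝ, 0 < σ → σ ≤ σ₀ →
      ∀ (A₀ : Matrix (Fin m) (Fin n) ℝ) (b₀ : Fin m → ℝ) (c₀ : Fin n → ℝ),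
        MeasureTheory.lintegral
          (Measure.pi (fun _ : (Fin m × Fin n) ⊕ (Fin m ⊕ Fin n) => gaussianReal 0 1))
          (fun ω : ((Fin m × Fin n) ⊕ (Fin m ⊕ Fin n)) → ℝ =>
            (fun (A : Matrix (Fin m) (Fin n) ℝ) (b : Fin m → ℝ) (c : Fin n → ℝ) =>
              ((Set.ncard {B : Finset (Fin n ⊕ Fin m) | B.card = m ∧
                  LinearIndependent ℝ
                    (fun q : B => (Matrix.transpose
                      (Matrix.fromCols A (1 : Matrix (Fin m) (Fin m) ℝ))) q.1) ∧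
                  ∃ t : ℝ, 0 ≤ t ∧
                    (∃ x : Fin n → ℝ, ∃ w : Fin m → ℝ,
                      (∀ j : Fin n, 0 ≤ x j) ∧ (∀ i : Fin m, 0 ≤ w i) ∧
                      (∀ i : Fin m, (∑ j : Fin n, A i j * x j) + w i = b i + t) ∧
                      (∀ j : Fin n, (Sum.inl j : Fin n ⊕ Fin m) ∉ B → x j = 0) ∧
                      (∀ i : Fin m, (Sum.inr i : Fin n ⊕ Fin m) ∉ B → w i = 0)) ∧
                    (∃ y : Fin m → ℝ,
                      (∀ i : Fin m, 0 ≤ y i) ∧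
                      (∀ j : Fin n, c j - t ≤ ∑ i : Fin m, A i j * y i) ∧
                      (∀ j : Fin n, (Sum.inl j : Fin n ⊕ Fin m) ∈ B →
                        ∑ i : Fin m, A i j * y i = c j - t) ∧
                      (∀ i : Fin m, (Sum.inr i : Fin n ⊕ Fin m) ∈ B → y i = 0))} : ℕ)
                : ENNReal))
            (A₀ + (σ * Real.sqrt ((∑ i : Fin m, ∑ j : Fin n, A₀ i j ^ 2)
                + (∑ i : Fin m, b₀ i ^ 2) + (∑ j : Fin n, c₀ j ^ 2))) •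
              Matrix.of (fun (i : Fin m) (j : Fin n) => ω (Sum.inl (i, j))))
            (b₀ + (σ * Real.sqrt ((∑ i : Fin m, ∑ j : Fin n, A₀ i j ^ 2)
                + (∑ i : Fin m, b₀ i ^ 2) + (∑ j : Fin n, c₀ j ^ 2))) •
              (fun i : Fin m => ω (Sum.inr (Sum.inl i))))
            (c₀ + (σ * Real.sqrt ((∑ i : Fin m, ∑ j : Fin n, A₀ i j ^ 2)
                + (∑ i : Fin m, b₀ i ^ 2) + (∑ j : Fin n, c₀ j ^ 2))) •
              (fun j : Fin n => ω (Sum.inr (Sum.inr j)))))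
        ≤ ENNReal.ofReal (C * ((m : ℝ) + n + 1 / σ) ^ k) := by
  refine ⟨1, one_pos, Pool.Agent.Lib.MP_84734f_lc.Cf, 28, fun m n σ hσ hσ1 A₀ b₀ c₀ => ?_⟩
  exact main_bound m n σ hσ hσ1 A₀ b₀ c₀ _ rfl

end Pool.Agent.S14985
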