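import Pool.Statements.S15393
import Pool.Agent.Lib.MP_d255c3_lc.ValRing

set_option autoImplicit false
open FirstOrder
open Pool Pool.MP_d255c3_lc

namespace Pool.Agent.S15393

/-- There is an algebraically closed field K and a finite extension L of K(Z), possibly K(Z) itself, carrying a valuation ring other than L itself that is definable with parameters in L in the language of rings. -/
theorem result :
    ∃ (K : Type) (_ : Field K) (_ : IsAlgClosed K) (L : Type) (_ : Field L)
      (_ : Algebra (RatFunc K) L) (_ : FiniteDimensional (RatFunc K) L)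
      (_ : FirstOrder.Ring.CompatibleRing L) (R : ValuationSubring L),
      R ≠ ⊤ ∧ Set.Definable (Set.univ : Set L) FirstOrder.Language.ring
        {x : Fin 1 → L | x 0 ∈ R} := by
  letI : FirstOrder.Ring.CompatibleRing (RatFunc Pool.Agent.Lib.MP_d255c3_lc.KK) :=
    FirstOrder.Ring.compatibleRingOfRing _
  exact ⟨Pool.Agent.Lib.MP_d255c3_lc.KK, inferInstance, inferInstance,
    RatFunc Pool.Agent.Lib.MP_d255c3_lc.KK, inferInstance, Algebra.id _,
    Module.Finite.self _, inferInstance, Pool.Agent.Lib.MP_d255c3_lc.R0 _,
    Pool.Agent.Lib.MP_d255c3_lc.R0_ne_top, Pool.Agent.Lib.MP_d255c3_lc.definable_R0⟩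

end Pool.Agent.S15393
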