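import Pool.Statements.S15477
import Pool.Agent.Lib.MP_dd05d9_lc.HE.EFin
import Pool.Agent.Lib.MP_dd05d9_lc.MW.ThmA

set_option autoImplicit false
open Pool Pool.MP_dd05d9_lc

namespace Pool.Agent.S15477

/-- For any two abstract numeration systems (infinite regular languages over ordered finite alphabets, radix order), whether two DFAO-coded words, one automatic in each system, are equal is a computable predicate. -/
theorem result :
    ∀ (k1 k2 : ℕ) (L1 : Language (Fin k1)) (L2 : Language (Fin k2)),
      (∃ (σ : Type) (_ : Fintype σ) (M : DFA (Fin k1) σ), M.accepts = L1) →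
      (∃ (σ : Type) (_ : Fintype σ) (M : DFA (Fin k2) σ), M.accepts = L2) →
      {w : List (Fin k1) | w ∈ L1}.Infinite →
      {w : List (Fin k2) | w ∈ L2}.Infinite →
      ComputablePred (fun (p : (List ℕ × List ℕ) × (List ℕ × List ℕ)) =>
        ∀ w1 ∈ L1, ∀ w2 ∈ L2,
          Set.ncard {v : List (Fin k1) | v ∈ L1 ∧
              (v.length < w1.length ∨ (v.length = w1.length ∧ List.Lex (· < ·) v w1))} =
            Set.ncard {v : List (Fin k2) | v ∈ L2 ∧
              (v.length < w2.length ∨ (v.length = w2.length ∧ List.Lex (· < ·) v w2))} →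
          p.1.2.getD (List.foldl (fun q a => p.1.1.getD (q * k1 + a.val) 0) 0 w1) 0 =
            p.2.2.getD (List.foldl (fun q a => p.2.1.getD (q * k2 + a.val) 0) 0 w2) 0) := by
  intro k1 k2 L1 L2 h1 h2 i1 i2
  obtain ⟨σ1, f1, M1, rfl⟩ := h1
  obtain ⟨σ2, f2, M2, rfl⟩ := h2
  exact AW.HE.he_core MW.thmA M1 M2 i1 i2

end Pool.Agent.S15477
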