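import Pool.Statements.S16206

set_option autoImplicit false
open Pool Pool.MP_1bbd34_nt

namespace Pool.Agent.S16206

/-- Auxiliary: there is no prime strictly between 11859187 and 11859233. -/
theorem no_prime_between (r : ℕ) (hr : r.Prime) (h1 : 11859187 < r) (h2 : r < 11859233) :
    False := by
  interval_cases r <;> revert hr <;> norm_num

/-- The negation of the preceding statement: For every n with consecutive primes p < n ≤ q, some prime dividing n(n+1) exceeds min(n − p, q − n); equivalently, the largest prime factor of n(n+1) exceeds that minimum. -/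
theorem result :
    ¬ (∀ n p q : ℕ, p.Prime → q.Prime → p < n → n ≤ q →
      (∀ r : ℕ, r.Prime → p < r → r < q → False) →
      ∃ r : ℕ, r.Prime ∧ r ∣ n * (n + 1) ∧ min (n - p) (q - n) < r) := by
  intro h
  obtain ⟨r, hr, hdvd, hlt⟩ := h 11859210 11859187 11859233 (by norm_num) (by norm_num)
    (by norm_num) (by norm_num) no_prime_between
  have hmin : min (11859210 - 11859187) (11859233 - 11859210) = 23 := by norm_num
  rw [hmin] at hlt
  have hfac : 11859210 * (11859210 + 1) = 2 * 3 ^ 4 * 5 * 11 ^ 4 * (7 * 13 * 19 ^ 4) := by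
    norm_num
  rw [hfac] at hdvd
  have key : ∀ s : ℕ, s.Prime → s ≤ 23 → r ∣ s → False := by
    intro s hs hs23 hrs
    have := (Nat.prime_dvd_prime_iff_eq hr hs).mp hrs
    omega
  have p2 : Nat.Prime 2 := by norm_num
  have p3 : Nat.Prime 3 := by norm_num
  have p5 : Nat.Prime 5 := by norm_num
  have p11 : Nat.Prime 11 := by norm_num
  have p7 : Nat.Prime 7 := by norm_num
  have p13 : Nat.Prime 13 := by norm_num
  have p19 : Nat.Prime 19 := by norm_num
  rcases (Nat.Prime.dvd_mul hr).mp hdvd with h1 | h1
  · rcases (Nat.Prime.dvd_mul hr).mp h1 with h2 | h2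
    · rcases (Nat.Prime.dvd_mul hr).mp h2 with h3 | h3
      · rcases (Nat.Prime.dvd_mul hr).mp h3 with h4 | h4
        · exact key 2 p2 (by norm_num) h4
        · exact key 3 p3 (by norm_num) (hr.dvd_of_dvd_pow h4)
      · exact key 5 p5 (by norm_num) h3
    · exact key 11 p11 (by norm_num) (hr.dvd_of_dvd_pow h2)
  · rcases (Nat.Prime.dvd_mul hr).mp h1 with h2 | h2
    · rcases (Nat.Prime.dvd_mul hr).mp h2 with h3 | h3
      · exact key 7 p7 (by norm_num) h3
      · exact key 13 p13 (by norm_num) h3
    · exact key 19 p19 (by norm_num) (hr.dvd_of_dvd_pow h2)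

end Pool.Agent.S16206
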