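import Pool.Statements.S19216

set_option autoImplicit false
open MeasureTheory ProbabilityTheory Matrix
open Pool Pool.MP_25279b_pr

namespace Pool.Agent.S19216

section linalg

variable {α β : Type*} [Fintype α] [Fintype β]

/-- Weighted Schur type bound: if `B` has nonnegative entries with row sums at most `1`, then
`|B v|^2` is at most the column-sum weighted norm of `v`. -/
lemma sum_sq_mulVec_le (B : Matrix α β ℝ) (h0 : ∀ a b, 0 ≤ B a b)
    (hr : ∀ a, ∑ b, B a b ≤ 1) (v : β → ℝ) :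
    ∑ a, (B *ᵥ v) a ^ 2 ≤ ∑ b, (∑ a, B a b) * v b ^ 2 := by
  have h1 : ∀ a, (B *ᵥ v) a ^ 2 ≤ ∑ b, B a b * v b ^ 2 := by
    intro a
    have h2 : (∑ b, B a b * v b) ^ 2 ≤ (∑ b, B a b) * ∑ b, B a b * v b ^ 2 := by
      apply Finset.sum_sq_le_sum_mul_sum_of_sq_le_mul
      · intro b _; exact h0 a b
      · intro b _; exact mul_nonneg (h0 a b) (sq_nonneg _)
      · intro b _; exact le_of_eq (by ring)
    calc (B *ᵥ v) a ^ 2 = (∑ b, B a b * v b) ^ 2 := by rfl
      _ ≤ (∑ b, B a b) * ∑ b, B a b * v b ^ 2 := h2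
      _ ≤ 1 * ∑ b, B a b * v b ^ 2 := by
          apply mul_le_mul_of_nonneg_right (hr a)
          exact Finset.sum_nonneg fun b _ => mul_nonneg (h0 a b) (sq_nonneg _)
      _ = _ := one_mul _
  calc ∑ a, (B *ᵥ v) a ^ 2 ≤ ∑ a, ∑ b, B a b * v b ^ 2 := Finset.sum_le_sum fun a _ => h1 a
    _ = ∑ b, (∑ a, B a b) * v b ^ 2 := by
      rw [Finset.sum_comm]
      simp_rw [Finset.sum_mul]

end linalg

/-- The lowering matrix: it moves the `j`-th letter of a word from `k+1` to `0`. -/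
def low (m N : ℕ) (j : Fin m) (k : Fin N) :
    Matrix (Fin m → Fin (N + 1)) (Fin m → Fin (N + 1)) ℝ :=
  fun f h => if f j = 0 ∧ h = Function.update f j k.succ then 1 else 0

lemma low_nonneg (m N : ℕ) (j : Fin m) (k : Fin N) (f h) : 0 ≤ low m N j k f h := by
  unfold low; split_ifs <;> norm_num

lemma low_row (m N : ℕ) (j : Fin m) (k : Fin N) (f) : ∑ h, low m N j k f h ≤ 1 := by
  unfold low
  by_cases hf : f j = 0
  · simp [hf]
  · simp [hf]

lemma low_col (m N : ℕ) (j : Fin m) (h) : ∑ k, ∑ f, low m N j k f h ≤ 1 := by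
  unfold low
  have key : ∀ (k : Fin N) (f : Fin m → Fin (N + 1)),
      (if f j = 0 ∧ h = Function.update f j k.succ then (1 : ℝ) else 0)
        ≤ if f = Function.update h j 0 then (if k.succ = h j then 1 else 0) else 0 := by
    intro k f
    by_cases hc : f j = 0 ∧ h = Function.update f j k.succ
    · obtain ⟨h1, h2⟩ := hc
      have h3 : f = Function.update h j 0 := by
        rw [h2]; simp [← h1]
      have h4 : k.succ = h j := by rw [h2]; simp
      rw [if_pos ⟨h1, h2⟩, if_pos h3, if_pos h4]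
    · rw [if_neg hc]
      split_ifs <;> norm_num
  calc _ ≤ ∑ k : Fin N, ∑ f : Fin m → Fin (N + 1),
        (if f = Function.update h j 0 then (if k.succ = h j then (1 : ℝ) else 0) else 0) :=
        Finset.sum_le_sum fun k _ => Finset.sum_le_sum fun f _ => key k f
    _ = ∑ k : Fin N, (if k.succ = h j then (1 : ℝ) else 0) := by
        simp
    _ ≤ 1 := by
        by_cases hj : h j = 0
        · have : ∀ k : Fin N, ¬ (k.succ = h j) := fun k => by rw [hj]; exact Fin.succ_ne_zero k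
          simp [this]
        · obtain ⟨k0, hk0⟩ := Fin.exists_succ_eq.2 hj
          have : ∀ k : Fin N, (k.succ = h j) ↔ k = k0 := fun k => by
            rw [← hk0]; exact Fin.succ_inj
          simp [this]

lemma low_col' (m N : ℕ) (j : Fin m) (k : Fin N) (h) : ∑ f, low m N j k f h ≤ 1 := by
  refine le_trans ?_ (low_col m N j h)
  exact Finset.single_le_sum (f := fun k => ∑ f, low m N j k f h)
    (fun k _ => Finset.sum_nonneg fun f _ => low_nonneg m N j k f h) (Finset.mem_univ k)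


/-- The coefficient matrices of the counterexample, indexed by `Fin (m * N)` and of size
`(N + 1) ^ m`. -/
def cA (m N : ℕ) (i : Fin (m * N)) :
    Matrix (Fin ((N + 1) ^ m)) (Fin ((N + 1) ^ m)) ℝ :=
  (low m N (finProdFinEquiv.symm i).1 (finProdFinEquiv.symm i).2).submatrix
    finFunctionFinEquiv.symm finFunctionFinEquiv.symm

lemma cA_nonneg (m N : ℕ) (i : Fin (m * N)) (a b) : 0 ≤ cA m N i a b :=
  low_nonneg _ _ _ _ _ _

lemma cA_row (m N : ℕ) (i : Fin (m * N)) (a) : ∑ b, cA m N i a b ≤ 1 := by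
  unfold cA
  simp only [submatrix_apply]
  rw [Equiv.sum_comp finFunctionFinEquiv.symm
    (fun h => low m N (finProdFinEquiv.symm i).1 (finProdFinEquiv.symm i).2 
      (finFunctionFinEquiv.symm a) h)]
  exact low_row _ _ _ _ _

lemma cA_col' (m N : ℕ) (i : Fin (m * N)) (b) : ∑ a, cA m N i a b ≤ 1 := by
  unfold cA
  simp only [submatrix_apply]
  rw [Equiv.sum_comp finFunctionFinEquiv.symm
    (fun f => low m N (finProdFinEquiv.symm i).1 (finProdFinEquiv.symm i).2 f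
      (finFunctionFinEquiv.symm b))]
  exact low_col' _ _ _ _ _

lemma cA_col (m N : ℕ) (b) : ∑ i, ∑ a, cA m N i a b ≤ m := by
  unfold cA
  simp only [submatrix_apply]
  have h1 : ∀ i : Fin (m * N), ∑ a, low m N (finProdFinEquiv.symm i).1 (finProdFinEquiv.symm i).2
      (finFunctionFinEquiv.symm a) (finFunctionFinEquiv.symm b) = 
      ∑ f, low m N (finProdFinEquiv.symm i).1 (finProdFinEquiv.symm i).2 f
        (finFunctionFinEquiv.symm b) := by
    intro i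
    rw [Equiv.sum_comp finFunctionFinEquiv.symm
      (fun f => low m N (finProdFinEquiv.symm i).1 (finProdFinEquiv.symm i).2 f
        (finFunctionFinEquiv.symm b))]
  simp_rw [h1]
  rw [Equiv.sum_comp finProdFinEquiv.symm
    (fun p : Fin m × Fin N => ∑ f, low m N p.1 p.2 f (finFunctionFinEquiv.symm b))]
  rw [Fintype.sum_prod_type]
  calc _ ≤ ∑ j : Fin m, (1 : ℝ) := Finset.sum_le_sum fun j _ => low_col m N j _
    _ = m := by simp

lemma sum_cA_sq (m N : ℕ) (v : Fin ((N + 1) ^ m) → ℝ) :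
    ∑ i, ∑ a, (cA m N i *ᵥ v) a ^ 2 ≤ m * ∑ b, v b ^ 2 := by
  calc ∑ i, ∑ a, (cA m N i *ᵥ v) a ^ 2 ≤ ∑ i, ∑ b, (∑ a, cA m N i a b) * v b ^ 2 :=
        Finset.sum_le_sum fun i _ => sum_sq_mulVec_le _ (cA_nonneg m N i) (cA_row m N i) v
    _ = ∑ b, (∑ i, ∑ a, cA m N i a b) * v b ^ 2 := by
        rw [Finset.sum_comm]; simp_rw [Finset.sum_mul]
    _ ≤ ∑ b, (m : ℝ) * v b ^ 2 := Finset.sum_le_sum fun b _ =>
        mul_le_mul_of_nonneg_right (cA_col m N b) (sq_nonneg _)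
    _ = _ := by rw [Finset.mul_sum]

lemma sum_cA_transpose_sq (m N : ℕ) (v : Fin ((N + 1) ^ m) → ℝ) :
    ∑ i, ∑ a, ((cA m N i)ᵀ *ᵥ v) a ^ 2 ≤ (m * N : ℕ) * ∑ b, v b ^ 2 := by
  calc ∑ i, ∑ a, ((cA m N i)ᵀ *ᵥ v) a ^ 2 ≤ ∑ i, ∑ b, (∑ a, (cA m N i)ᵀ a b) * v b ^ 2 :=
        Finset.sum_le_sum fun i _ => sum_sq_mulVec_le _ (fun a b => cA_nonneg m N i b a) 
          (fun a => cA_col' m N i a) v
    _ ≤ ∑ i : Fin (m * N), ∑ b, v b ^ 2 := by
        refine Finset.sum_le_sum fun i _ => Finset.sum_le_sum fun b _ => ?_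
        have := mul_le_mul_of_nonneg_right (cA_row m N i b) (sq_nonneg (v b))
        simpa using this
    _ = _ := by simp

/-- The one-site test vector. -/
noncomputable def site (N : ℕ) (g : Fin N → ℝ) : Fin (N + 1) → ℝ :=
  Fin.cons (√(1 / 2)) (fun k => (if 0 ≤ g k then 1 else -1) * √(1 / (2 * N)))

lemma site_sq (N : ℕ) (hN : 0 < N) (g : Fin N → ℝ) : ∑ a, site N g a ^ 2 = 1 := by
  rw [Fin.sum_univ_succ]
  have h1 : ∀ k : Fin N, site N g k.succ ^ 2 = 1 / (2 * N) := by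
    intro k
    simp only [site, Fin.cons_succ, mul_pow]
    rw [Real.sq_sqrt (by positivity)]
    split_ifs <;> norm_num
  simp_rw [h1]
  simp only [site, Fin.cons_zero]
  rw [Real.sq_sqrt (by positivity)]
  have : (N : ℝ) ≠ 0 := by positivity
  simp
  field_simp
  norm_num

/-- The product test vector. -/
noncomputable def prodVec (m N : ℕ) (u : Fin m → Fin (N + 1) → ℝ) : (Fin m → Fin (N + 1)) → ℝ :=
  fun f => ∏ i, u i (f i)

lemma sum_prod_eq (m N : ℕ) (F : Fin m → Fin (N + 1) → ℝ) :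
    ∑ f : Fin m → Fin (N + 1), ∏ i, F i (f i) = ∏ i, ∑ a, F i a := by
  rw [Finset.prod_univ_sum]
  simp

lemma prodVec_sq (m N : ℕ) (u : Fin m → Fin (N + 1) → ℝ) (hu : ∀ i, ∑ a, u i a ^ 2 = 1) :
    ∑ f, prodVec m N u f * prodVec m N u f = 1 := by
  have : ∀ f, prodVec m N u f * prodVec m N u f = ∏ i, u i (f i) ^ 2 := by
    intro f
    simp only [prodVec, ← Finset.prod_mul_distrib, pow_two]
  simp_rw [this]
  rw [sum_prod_eq m N (fun i a => u i a ^ 2)]
  simp [hu]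

lemma prodVec_low (m N : ℕ) (u : Fin m → Fin (N + 1) → ℝ) (hu : ∀ i, ∑ a, u i a ^ 2 = 1)
    (j : Fin m) (k : Fin N) :
    ∑ f, prodVec m N u f * (low m N j k *ᵥ prodVec m N u) f = u j 0 * u j k.succ := by
  have h1 : ∀ f, prodVec m N u f * (low m N j k *ᵥ prodVec m N u) f =
      ∏ i, (fun (i : Fin m) (a : Fin (N + 1)) => if i = j then (if a = 0 then u j 0 * u j k.succ else 0) 
        else u i a ^ 2) i (f i) := by
    intro f
    have h2 : (low m N j k *ᵥ prodVec m N u) f = 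
        if f j = 0 then prodVec m N u (Function.update f j k.succ) else 0 := by
      simp only [mulVec, dotProduct, low]
      by_cases hf : f j = 0 <;> simp [hf]
    rw [h2]
    by_cases hf : f j = 0
    · rw [if_pos hf]
      simp only [prodVec, ← Finset.prod_mul_distrib]
      refine Finset.prod_congr rfl fun i _ => ?_
      by_cases hi : i = j
      · subst hi
        simp [hf]
      · simp [hi, pow_two]
    · rw [if_neg hf, mul_zero]
      symm
      apply Finset.prod_eq_zero (Finset.mem_univ j)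
      simp [hf]
  simp_rw [h1]
  rw [sum_prod_eq m N (fun i a => if i = j then (if a = 0 then u j 0 * u j k.succ else 0) 
        else u i a ^ 2)]
  rw [Finset.prod_eq_single j]
  · simp
  · intro i _ hi
    simp [hi, hu]
  · simp

lemma exists_test (m N : ℕ) (hN : 0 < N) (g : Fin (m * N) → ℝ) :
    ∃ v : Fin ((N + 1) ^ m) → ℝ, v ⬝ᵥ v = 1 ∧
      ∑ i, |g i| / (2 * √N) = v ⬝ᵥ ((∑ i, g i • cA m N i) *ᵥ v) := by
  set u : Fin m → Fin (N + 1) → ℝ := fun j => site N (fun k => g (finProdFinEquiv (j, k))) with hu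
  have hu1 : ∀ i, ∑ a, u i a ^ 2 = 1 := fun i => site_sq N hN _
  refine ⟨fun a => prodVec m N u (finFunctionFinEquiv.symm a), ?_, ?_⟩
  · simp only [dotProduct]
    rw [Equiv.sum_comp finFunctionFinEquiv.symm (fun f => prodVec m N u f * prodVec m N u f)]
    exact prodVec_sq m N u hu1
  · have h1 : ∀ i : Fin (m * N), (fun a => prodVec m N u (finFunctionFinEquiv.symm a)) ⬝ᵥ
        (cA m N i *ᵥ (fun a => prodVec m N u (finFunctionFinEquiv.symm a))) =
        u (finProdFinEquiv.symm i).1 0 * u (finProdFinEquiv.symm i).1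
          (finProdFinEquiv.symm i).2.succ := by
      intro i
      rw [← prodVec_low m N u hu1]
      rw [← Equiv.sum_comp finFunctionFinEquiv.symm (fun f => prodVec m N u f * 
        (low m N (finProdFinEquiv.symm i).1 (finProdFinEquiv.symm i).2 *ᵥ prodVec m N u) f)]
      simp only [dotProduct, mulVec, cA, submatrix_apply]
      refine Finset.sum_congr rfl fun a _ => ?_
      rw [Equiv.sum_comp finFunctionFinEquiv.symm (fun h =>
        low m N (finProdFinEquiv.symm i).1 (finProdFinEquiv.symm i).2 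
          (finFunctionFinEquiv.symm a) h * prodVec m N u h)]
    rw [sum_mulVec, dotProduct_sum]
    refine Finset.sum_congr rfl fun i _ => ?_
    rw [smul_mulVec, dotProduct_smul, h1 i]
    have h2 : u (finProdFinEquiv.symm i).1 0 = √(1 / 2) := by
      simp [hu, site]
    have h3 : u (finProdFinEquiv.symm i).1 (finProdFinEquiv.symm i).2.succ = 
        (if 0 ≤ g i then 1 else -1) * √(1 / (2 * N)) := by
      simp only [hu, site, Fin.cons_succ]
      have hi : finProdFinEquiv ((finProdFinEquiv.symm i).1, (finProdFinEquiv.symm i).2) = i :=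
        Equiv.apply_symm_apply _ _
      simp only [hi]
    rw [h2, h3]
    have h4 : √(1 / 2 : ℝ) * √(1 / (2 * (N : ℝ))) = 1 / (2 * √N) := by
      rw [← Real.sqrt_mul (by norm_num)]
      have : (1 / 2 : ℝ) * (1 / (2 * N)) = (1 / (2 * √N)) ^ 2 := by
        rw [div_pow, mul_pow, Real.sq_sqrt (by positivity)]
        ring
      rw [this, Real.sqrt_sq (by positivity)]
    have h5 : g i • (√(1 / 2 : ℝ) * ((if 0 ≤ g i then 1 else -1) * √(1 / (2 * (N : ℝ))))) =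
        (g i * (if 0 ≤ g i then 1 else -1)) * (√(1 / 2 : ℝ) * √(1 / (2 * (N : ℝ)))) := by
      rw [smul_eq_mul]; ring
    rw [h5, h4]
    have h6 : g i * (if 0 ≤ g i then 1 else -1) = |g i| := by
      split_ifs with hg
      · rw [abs_of_nonneg hg, mul_one]
      · rw [abs_of_neg (not_le.1 hg)]; ring
    rw [h6]
    ring

section general

variable {d n : ℕ} (A : Fin n → Matrix (Fin d) (Fin d) ℝ)

/-- The supremum defining the norm. -/
noncomputable def S (g : Fin n → ℝ) : ℝ :=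
  sSup {x : ℝ | ∃ v w : Fin d → ℝ, v ⬝ᵥ v = 1 ∧ w ⬝ᵥ w = 1 ∧ x = w ⬝ᵥ ((∑ i, g i • A i) *ᵥ v)}

/-- a crude bound for the bilinear form of each coefficient -/
noncomputable def Kb (i : Fin n) : ℝ := ∑ a, ∑ b, |A i a b|

lemma Kb_nonneg (i : Fin n) : 0 ≤ Kb A i :=
  Finset.sum_nonneg fun _ _ => Finset.sum_nonneg fun _ _ => abs_nonneg _

lemma abs_le_one_of_unit (v : Fin d → ℝ) (hv : v ⬝ᵥ v = 1) (a : Fin d) : |v a| ≤ 1 := by
  have h1 : v a * v a ≤ v ⬝ᵥ v :=
    Finset.single_le_sum (f := fun a => v a * v a) (fun _ _ => mul_self_nonneg _) 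
      (Finset.mem_univ a)
  rw [hv] at h1
  rw [abs_le_one_iff_mul_self_le_one]
  exact h1

lemma abs_bil_le (v w : Fin d → ℝ) (hv : v ⬝ᵥ v = 1) (hw : w ⬝ᵥ w = 1) (i : Fin n) :
    |w ⬝ᵥ (A i *ᵥ v)| ≤ Kb A i := by
  unfold Kb dotProduct mulVec
  refine (Finset.abs_sum_le_sum_abs _ _).trans (Finset.sum_le_sum fun a _ => ?_)
  rw [abs_mul]
  calc |w a| * |(fun j => A i a j) ⬝ᵥ v| ≤ 1 * |(fun j => A i a j) ⬝ᵥ v| :=
        mul_le_mul_of_nonneg_right (abs_le_one_of_unit w hw a) (abs_nonneg _)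
    _ = |∑ b, A i a b * v b| := by rw [one_mul]; rfl
    _ ≤ ∑ b, |A i a b * v b| := Finset.abs_sum_le_sum_abs _ _
    _ ≤ ∑ b, |A i a b| := Finset.sum_le_sum fun b _ => by
        rw [abs_mul]
        exact mul_le_of_le_one_right (abs_nonneg _) (abs_le_one_of_unit v hv b)

lemma bil_eq (g : Fin n → ℝ) (v w : Fin d → ℝ) :
    w ⬝ᵥ ((∑ i, g i • A i) *ᵥ v) = ∑ i, g i * (w ⬝ᵥ (A i *ᵥ v)) := by
  rw [sum_mulVec, dotProduct_sum]
  refine Finset.sum_congr rfl fun i _ => ?_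
  rw [smul_mulVec, dotProduct_smul, smul_eq_mul]

lemma bil_le (g : Fin n → ℝ) (v w : Fin d → ℝ) (hv : v ⬝ᵥ v = 1) (hw : w ⬝ᵥ w = 1) :
    |w ⬝ᵥ ((∑ i, g i • A i) *ᵥ v)| ≤ ∑ i, |g i| * Kb A i := by
  rw [bil_eq]
  refine (Finset.abs_sum_le_sum_abs _ _).trans (Finset.sum_le_sum fun i _ => ?_)
  rw [abs_mul]
  exact mul_le_mul_of_nonneg_left (abs_bil_le A v w hv hw i) (abs_nonneg _)

lemma bddAbove_S (g : Fin n → ℝ) : BddAbove {x : ℝ | ∃ v w : Fin d → ℝ, v ⬝ᵥ v = 1 ∧ w ⬝ᵥ w = 1 ∧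
    x = w ⬝ᵥ ((∑ i, g i • A i) *ᵥ v)} := by
  refine ⟨∑ i, |g i| * Kb A i, ?_⟩
  rintro x ⟨v, w, hv, hw, rfl⟩
  exact (le_abs_self _).trans (bil_le A g v w hv hw)

lemma le_S (g : Fin n → ℝ) (v w : Fin d → ℝ) (hv : v ⬝ᵥ v = 1) (hw : w ⬝ᵥ w = 1) :
    w ⬝ᵥ ((∑ i, g i • A i) *ᵥ v) ≤ S A g :=
  le_csSup (bddAbove_S A g) ⟨v, w, hv, hw, rfl⟩

lemma S_nonneg (g : Fin n → ℝ) : 0 ≤ S A g := by
  by_cases h : ∃ v : Fin d → ℝ, v ⬝ᵥ v = 1
  · obtain ⟨v, hv⟩ := h
    have h1 := le_S A g v v hv hv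
    have h2 := le_S A g v (-v) hv (by simpa using hv)
    rw [neg_dotProduct] at h2
    linarith
  · have : {x : ℝ | ∃ v w : Fin d → ℝ, v ⬝ᵥ v = 1 ∧ w ⬝ᵥ w = 1 ∧
        x = w ⬝ᵥ ((∑ i, g i • A i) *ᵥ v)} = ∅ := by
      ext x
      simp only [Set.mem_ofPred_eq, Set.mem_empty_iff_false, iff_false]
      rintro ⟨v, w, hv, _⟩
      exact h ⟨v, hv⟩
    unfold S
    rw [this, Real.sSup_empty]

lemma S_le (g : Fin n → ℝ) : S A g ≤ ∑ i, |g i| * Kb A i := by
  apply Real.sSup_le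
  · rintro x ⟨v, w, hv, hw, rfl⟩
    exact (le_abs_self _).trans (bil_le A g v w hv hw)
  · exact Finset.sum_nonneg fun i _ => mul_nonneg (abs_nonneg _) (Kb_nonneg A i)

lemma S_lip (g g' : Fin n → ℝ) : S A g ≤ S A g' + (∑ i, Kb A i) * dist g g' := by
  have h0 : 0 ≤ S A g' + (∑ i, Kb A i) * dist g g' :=
    add_nonneg (S_nonneg A g') (mul_nonneg (Finset.sum_nonneg fun i _ => Kb_nonneg A i) 
      dist_nonneg)
  apply Real.sSup_le _ h0
  rintro x ⟨v, w, hv, hw, rfl⟩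
  have h1 : w ⬝ᵥ ((∑ i, g i • A i) *ᵥ v) = w ⬝ᵥ ((∑ i, g' i • A i) *ᵥ v) + 
      w ⬝ᵥ ((∑ i, (g - g') i • A i) *ᵥ v) := by
    rw [bil_eq, bil_eq, bil_eq, ← Finset.sum_add_distrib]
    refine Finset.sum_congr rfl fun i _ => ?_
    simp only [Pi.sub_apply]; ring
  rw [h1]
  apply add_le_add (le_S A g' v w hv hw)
  refine (le_abs_self _).trans ((bil_le A (g - g') v w hv hw).trans ?_)
  rw [Finset.sum_mul]
  refine Finset.sum_le_sum fun i _ => ?_
  rw [mul_comm]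
  apply mul_le_mul_of_nonneg_left _ (Kb_nonneg A i)
  rw [Pi.sub_apply, ← Real.dist_eq]
  exact dist_le_pi_dist g g' i

lemma continuous_S : Continuous (S A) := by
  have : LipschitzWith (Real.toNNReal (∑ i, Kb A i)) (S A) := by
    apply LipschitzWith.of_dist_le_mul
    intro g g'
    rw [Real.coe_toNNReal _ (Finset.sum_nonneg fun i _ => Kb_nonneg A i), Real.dist_eq, abs_le]
    have h1 := S_lip A g g'
    have h2 := S_lip A g' g
    rw [dist_comm g' g] at h2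
    constructor <;> linarith
  exact this.continuous

lemma integrable_abs_eval (i : Fin n) :
    Integrable (fun g : Fin n → ℝ => |g i|) (Measure.pi fun _ : Fin n => gaussianReal 0 1) := by
  have h : Integrable (fun x : ℝ => |x|) (gaussianReal 0 1) := by
    have := (memLp_id_gaussianReal (μ := 0) (v := 1) 1)
    rw [ENNReal.coe_one, memLp_one_iff_integrable] at this
    exact this.abs
  exact integrable_comp_eval (μ := fun _ : Fin n => gaussianReal 0 1) (i := i) h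

lemma integrable_S : Integrable (S A) (Measure.pi fun _ : Fin n => gaussianReal 0 1) := by
  refine Integrable.mono' (g := fun g => ∑ i, |g i| * Kb A i) ?_ 
    (continuous_S A).aestronglyMeasurable ?_
  · exact integrable_finsetSum _ fun i _ => (integrable_abs_eval i).mul_const _
  · refine Filter.Eventually.of_forall fun g => ?_
    rw [Real.norm_of_nonneg (S_nonneg A g)]
    exact S_le A g

end general

/-- First absolute moment of the standard Gaussian. -/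
noncomputable def c0 : ℝ := ∫ x, |x| ∂(gaussianReal 0 1)

lemma c0_pos : 0 < c0 := by
  have hint : Integrable (fun x : ℝ => |x|) (gaussianReal 0 1) := by
    have := (memLp_id_gaussianReal (μ := 0) (v := 1) 1)
    rw [ENNReal.coe_one, memLp_one_iff_integrable] at this
    exact this.abs
  have h0 : 0 ≤ c0 := integral_nonneg fun x => abs_nonneg x
  rcases h0.lt_or_eq with h | h
  · exact h
  · exfalso
    have h1 : (fun x : ℝ => |x|) =ᵐ[gaussianReal 0 1] 0 :=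
      (integral_eq_zero_iff_of_nonneg (fun x => abs_nonneg x) hint).1 h.symm
    have h2 : Var[id; gaussianReal 0 1] = 0 := by
      rw [variance_eq_integral (by fun_prop)]
      rw [integral_eq_zero_iff_of_nonneg (fun x => sq_nonneg _)]
      · have : ∫ x, id x ∂(gaussianReal 0 1) = 0 := by simp
        filter_upwards [h1] with x hx
        have hx' : x = 0 := by simpa using hx
        rw [this]
        simp [hx']
      · have : ∫ x, id x ∂(gaussianReal 0 1) = 0 := by simp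
        rw [this]
        simp only [id_eq, sub_zero]
        exact (memLp_id_gaussianReal (μ := 0) (v := 1) 2).integrable_sq
    rw [variance_id_gaussianReal] at h2
    norm_num at h2

lemma integral_S_ge (m N : ℕ) (hN : 0 < N) :
    (m * N : ℕ) * (c0 / (2 * √N)) ≤ 
      ∫ g, S (cA m N) g ∂(Measure.pi fun _ : Fin (m * N) => gaussianReal 0 1) := by
  have h1 : ∫ g : Fin (m * N) → ℝ, ∑ i, |g i| / (2 * √N) 
      ∂(Measure.pi fun _ : Fin (m * N) => gaussianReal 0 1) = (m * N : ℕ) * (c0 / (2 * √N)) := by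
    rw [integral_finsetSum]
    · have : ∀ i : Fin (m * N), ∫ g : Fin (m * N) → ℝ, |g i| / (2 * √N) 
          ∂(Measure.pi fun _ : Fin (m * N) => gaussianReal 0 1) = c0 / (2 * √N) := by
        intro i
        rw [integral_div]
        congr 1
        exact integral_comp_eval (μ := fun _ : Fin (m * N) => gaussianReal 0 1) (i := i)
          (f := fun x : ℝ => |x|) (by fun_prop)
      simp [this]
    · intro i _
      exact (integrable_abs_eval i).div_const _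
  rw [← h1]
  apply integral_mono
  · exact integrable_finsetSum _ fun i _ => (integrable_abs_eval i).div_const _
  · exact integrable_S _
  · intro g
    obtain ⟨v, hv, hv2⟩ := exists_test m N hN g
    show ∑ i, |g i| / (2 * √N) ≤ S (cA m N) g
    rw [hv2]
    exact le_S _ g v v hv hv

/-- bound for the variance proxies: bilinear form of a sum of Gram matrices. -/
lemma gram_le {d n : ℕ} (B : Fin n → Matrix (Fin d) (Fin d) ℝ) (K : ℝ)
    (hB : ∀ v : Fin d → ℝ, ∑ i, ∑ a, (B i *ᵥ v) a ^ 2 ≤ K * ∑ b, v b ^ 2)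
    (v w : Fin d → ℝ) (hv : v ⬝ᵥ v = 1) (hw : w ⬝ᵥ w = 1) :
    w ⬝ᵥ ((∑ i, (B i)ᵀ * B i) *ᵥ v) ≤ K := by
  have hv' : ∑ b, v b ^ 2 = 1 := by rw [← hv]; simp [dotProduct, pow_two]
  have hw' : ∑ b, w b ^ 2 = 1 := by rw [← hw]; simp [dotProduct, pow_two]
  have h1 : w ⬝ᵥ ((∑ i, (B i)ᵀ * B i) *ᵥ v) = ∑ i, ∑ a, (B i *ᵥ w) a * (B i *ᵥ v) a := by
    rw [sum_mulVec, dotProduct_sum]
    refine Finset.sum_congr rfl fun i _ => ?_
    rw [← mulVec_mulVec, dotProduct_mulVec, vecMul_transpose]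
    rfl
  rw [h1]
  calc ∑ i, ∑ a, (B i *ᵥ w) a * (B i *ᵥ v) a
      ≤ ∑ i, ∑ a, ((B i *ᵥ w) a ^ 2 + (B i *ᵥ v) a ^ 2) / 2 := by
        refine Finset.sum_le_sum fun i _ => Finset.sum_le_sum fun a _ => ?_
        nlinarith [sq_nonneg ((B i *ᵥ w) a - (B i *ᵥ v) a)]
    _ = ((∑ i, ∑ a, (B i *ᵥ w) a ^ 2) + (∑ i, ∑ a, (B i *ᵥ v) a ^ 2)) / 2 := by
        simp_rw [← Finset.sum_div, Finset.sum_add_distrib]
    _ ≤ (K * 1 + K * 1) / 2 := by
        have h2 := hB v
        have h3 := hB w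
        rw [hv'] at h2
        rw [hw'] at h3
        linarith
    _ = K := by ring

lemma weak_le {d n : ℕ} (B : Fin n → Matrix (Fin d) (Fin d) ℝ) (K : ℝ)
    (hB : ∀ v : Fin d → ℝ, ∑ i, ∑ a, (B i *ᵥ v) a ^ 2 ≤ K * ∑ b, v b ^ 2)
    (v w : Fin d → ℝ) (hv : v ⬝ᵥ v = 1) (hw : w ⬝ᵥ w = 1) :
    ∑ i, (w ⬝ᵥ (B i *ᵥ v)) ^ 2 ≤ K := by
  have hv' : ∑ b, v b ^ 2 = 1 := by rw [← hv]; simp [dotProduct, pow_two]
  have hw' : ∑ b, w b ^ 2 = 1 := by rw [← hw]; simp [dotProduct, pow_two]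
  calc ∑ i, (w ⬝ᵥ (B i *ᵥ v)) ^ 2 ≤ ∑ i, ∑ a, (B i *ᵥ v) a ^ 2 := by
        refine Finset.sum_le_sum fun i _ => ?_
        have := Finset.sum_mul_sq_le_sq_mul_sq Finset.univ w (B i *ᵥ v)
        rw [hw', one_mul] at this
        exact this
    _ ≤ K * ∑ b, v b ^ 2 := hB v
    _ = K := by rw [hv', mul_one]

/-- Growth comparison used at the end. -/
lemma exists_scale (C c : ℝ) (hc : 0 < c) : ∃ s : ℕ, C * (2 * s + 3) < 2 ^ s * c := by
  have h1 : Filter.Tendsto (fun s : ℕ => (s : ℝ) / 2 ^ s) Filter.atTop (nhds 0) := by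
    have := tendsto_pow_const_div_const_pow_of_one_lt 1 (r := (2 : ℝ)) (by norm_num)
    simpa using this
  have h2 : Filter.Tendsto (fun s : ℕ => (1 : ℝ) / 2 ^ s) Filter.atTop (nhds 0) := by
    have := tendsto_pow_const_div_const_pow_of_one_lt 0 (r := (2 : ℝ)) (by norm_num)
    simpa using this
  have h3 : Filter.Tendsto (fun s : ℕ => C * (2 * ((s : ℝ) / 2 ^ s) + 3 * (1 / 2 ^ s))) Filter.atTop 
      (nhds (C * (2 * 0 + 3 * 0))) :=
    ((h1.const_mul 2).add (h2.const_mul 3)).const_mul C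
  have h4 : C * (2 * 0 + 3 * 0) < c := by simpa using hc
  obtain ⟨s, hs⟩ := (h3.eventually_lt_const h4).exists
  refine ⟨s, ?_⟩
  have h5 : (0 : ℝ) < 2 ^ s := by positivity
  have h6 : C * (2 * s + 3) = 2 ^ s * (C * (2 * ((s : ℝ) / 2 ^ s) + 3 * (1 / 2 ^ s))) := by
    field_simp
  rw [h6]
  exact mul_lt_mul_of_pos_left hs h5

/-- The negation of the preceding statement: There is a constant C such that for every real Gaussian matrix X = Σ gᵢAᵢ of size d, E‖X‖ ≤ C(‖ΣAᵢᵀAᵢ‖^{1/2} + ‖ΣAᵢAᵢᵀ‖^{1/2} + √(log d)·σ_*), with σ_*² the sup over unit v,w of Σ⟨Aᵢv,w⟩². -/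
theorem result :
    ¬ (∃ C : ℝ, ∀ (d n : ℕ) (A : Fin n → Matrix (Fin d) (Fin d) ℝ),
      ∫ g, sSup {x : ℝ | ∃ v w : Fin d → ℝ, v ⬝ᵥ v = 1 ∧ w ⬝ᵥ w = 1 ∧
              x = w ⬝ᵥ ((∑ i, g i • A i) *ᵥ v)}
          ∂(Measure.pi fun _ : Fin n => gaussianReal 0 1)
        ≤ C * (Real.sqrt (sSup {x : ℝ | ∃ v w : Fin d → ℝ, v ⬝ᵥ v = 1 ∧ w ⬝ᵥ w = 1 ∧
                  x = w ⬝ᵥ ((∑ i, (A i)ᵀ * A i) *ᵥ v)})
              + Real.sqrt (sSup {x : ℝ | ∃ v w : Fin d → ℝ, v ⬝ᵥ v = 1 ∧ w ⬝ᵥ w = 1 ∧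
                  x = w ⬝ᵥ ((∑ i, A i * (A i)ᵀ) *ᵥ v)})
              + Real.sqrt (Real.log d) *
                  Real.sqrt (sSup {x : ℝ | ∃ v w : Fin d → ℝ, v ⬝ᵥ v = 1 ∧ w ⬝ᵥ w = 1 ∧
                    x = ∑ i, (w ⬝ᵥ (A i *ᵥ v)) ^ 2}))) := by
  rintro ⟨C, hC⟩
  obtain ⟨s, hs⟩ := exists_scale (max C 0) (c0 / 2) (by have := c0_pos; linarith)
  obtain ⟨N, hNdef⟩ : ∃ N : ℕ, N = 4 ^ s := ⟨_, rfl⟩
  have hNpos : 0 < N := by rw [hNdef]; positivity
  have hN1 : (1 : ℝ) ≤ N := by exact_mod_cast hNpos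
  have hsqrtN : √(N : ℝ) = 2 ^ s := by
    rw [hNdef]; push_cast
    rw [show (4 : ℝ) ^ s = (2 ^ s) ^ 2 by rw [← pow_mul, mul_comm, pow_mul]; norm_num]
    exact Real.sqrt_sq (by positivity)
  have h := hC ((N + 1) ^ N) (N * N) (cA N N)
  change ∫ g, S (cA N N) g ∂(Measure.pi fun _ : Fin (N * N) => gaussianReal 0 1) ≤ _ at h
  have hlow := integral_S_ge N N hNpos
  generalize ∫ g, S (cA N N) g ∂(Measure.pi fun _ : Fin (N * N) => gaussianReal 0 1) = I at h hlow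
  have h1 : Real.sqrt (sSup {x : ℝ | ∃ v w : Fin ((N + 1) ^ N) → ℝ, v ⬝ᵥ v = 1 ∧ w ⬝ᵥ w = 1 ∧
      x = w ⬝ᵥ ((∑ i, (cA N N i)ᵀ * cA N N i) *ᵥ v)}) ≤ √(N : ℝ) := by
    apply Real.sqrt_le_sqrt
    apply Real.sSup_le _ (by positivity)
    rintro x ⟨v, w, hv, hw, rfl⟩
    exact gram_le (cA N N) N (sum_cA_sq N N) v w hv hw
  have h2 : Real.sqrt (sSup {x : ℝ | ∃ v w : Fin ((N + 1) ^ N) → ℝ, v ⬝ᵥ v = 1 ∧ w ⬝ᵥ w = 1 ∧
      x = w ⬝ᵥ ((∑ i, cA N N i * (cA N N i)ᵀ) *ᵥ v)}) ≤ N := by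
    rw [Real.sqrt_le_left (by positivity)]
    apply Real.sSup_le _ (by positivity)
    rintro x ⟨v, w, hv, hw, rfl⟩
    have := gram_le (fun i => (cA N N i)ᵀ) ((N * N : ℕ) : ℝ) (sum_cA_transpose_sq N N) v w hv hw
    simp only [transpose_transpose] at this
    refine this.trans (le_of_eq ?_)
    push_cast; ring
  have h3 : Real.sqrt (sSup {x : ℝ | ∃ v w : Fin ((N + 1) ^ N) → ℝ, v ⬝ᵥ v = 1 ∧ w ⬝ᵥ w = 1 ∧
      x = ∑ i, (w ⬝ᵥ (cA N N i *ᵥ v)) ^ 2}) ≤ √(N : ℝ) := by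
    apply Real.sqrt_le_sqrt
    apply Real.sSup_le _ (by positivity)
    rintro x ⟨v, w, hv, hw, rfl⟩
    exact weak_le (cA N N) N (sum_cA_sq N N) v w hv hw
  have hlog : Real.sqrt (Real.log (((N + 1) ^ N : ℕ) : ℝ)) ≤ √(N : ℝ) * (2 * s + 1) := by
    have e1 : Real.log (((N + 1) ^ N : ℕ) : ℝ) = N * Real.log (N + 1) := by
      push_cast
      rw [Real.log_pow]
    have e2 : Real.log ((N : ℝ) + 1) ≤ 2 * s + 1 := by
      have e3 : ((N : ℝ) + 1) ≤ 2 ^ (2 * s + 1) := by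
        have : (2 : ℝ) ^ (2 * s + 1) = 2 * N := by
          rw [hNdef]; push_cast; rw [pow_succ, pow_mul]; norm_num; ring
        rw [this]; linarith
      calc Real.log ((N : ℝ) + 1) ≤ Real.log (2 ^ (2 * s + 1)) :=
            Real.log_le_log (by positivity) e3
        _ = (2 * s + 1 : ℕ) * Real.log 2 := by rw [Real.log_pow]
        _ ≤ (2 * s + 1 : ℕ) * 1 := by
            apply mul_le_mul_of_nonneg_left _ (by positivity)
            have := Real.log_two_lt_d9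
            linarith
        _ = 2 * s + 1 := by push_cast; ring
    rw [e1, Real.sqrt_mul (by positivity)]
    apply mul_le_mul_of_nonneg_left _ (by positivity)
    calc √(Real.log ((N : ℝ) + 1)) ≤ √((2 * s + 1) ^ 2) := by
          apply Real.sqrt_le_sqrt
          refine e2.trans ?_
          nlinarith [(Nat.cast_nonneg s : (0 : ℝ) ≤ s)]
      _ = 2 * s + 1 := Real.sqrt_sq (by positivity)
  set a := Real.sqrt (sSup {x : ℝ | ∃ v w : Fin ((N + 1) ^ N) → ℝ, v ⬝ᵥ v = 1 ∧ w ⬝ᵥ w = 1 ∧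
      x = w ⬝ᵥ ((∑ i, (cA N N i)ᵀ * cA N N i) *ᵥ v)}) with ha
  set b := Real.sqrt (sSup {x : ℝ | ∃ v w : Fin ((N + 1) ^ N) → ℝ, v ⬝ᵥ v = 1 ∧ w ⬝ᵥ w = 1 ∧
      x = w ⬝ᵥ ((∑ i, cA N N i * (cA N N i)ᵀ) *ᵥ v)}) with hb
  set c := Real.sqrt (sSup {x : ℝ | ∃ v w : Fin ((N + 1) ^ N) → ℝ, v ⬝ᵥ v = 1 ∧ w ⬝ᵥ w = 1 ∧
      x = ∑ i, (w ⬝ᵥ (cA N N i *ᵥ v)) ^ 2}) with hc
  set l := Real.sqrt (Real.log (((N + 1) ^ N : ℕ) : ℝ)) with hl
  have ha0 : 0 ≤ a := Real.sqrt_nonneg _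
  have hb0 : 0 ≤ b := Real.sqrt_nonneg _
  have hc0 : 0 ≤ c := Real.sqrt_nonneg _
  have hl0 : 0 ≤ l := Real.sqrt_nonneg _
  have hsq : √(N : ℝ) * √(N : ℝ) = N := Real.mul_self_sqrt (by positivity)
  have hsN : √(N : ℝ) ≤ N := by
    rw [hsqrtN]
    rw [hsqrtN] at hsq
    have : (1 : ℝ) ≤ 2 ^ s := one_le_pow₀ (by norm_num)
    nlinarith
  have hlc : l * c ≤ N * (2 * s + 1) := by
    calc l * c ≤ (√(N : ℝ) * (2 * s + 1)) * √(N : ℝ) := mul_le_mul hlog h3 hc0 (by positivity)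
      _ = N * (2 * s + 1) := by rw [mul_right_comm, hsq]
  have hR : C * (a + b + l * c) ≤ (max C 0) * (N * (2 * s + 3)) := by
    calc C * (a + b + l * c) ≤ (max C 0) * (a + b + l * c) := by
          apply mul_le_mul_of_nonneg_right (le_max_left _ _)
          positivity
      _ ≤ (max C 0) * (N * (2 * s + 3)) := by
          apply mul_le_mul_of_nonneg_left _ (le_max_right _ _)
          nlinarith
  have hL : (N * N : ℕ) * (c0 / (2 * √(N : ℝ))) = N * (2 ^ s * (c0 / 2)) := by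
    push_cast
    rw [hsqrtN]
    rw [hsqrtN] at hsq
    rw [← hsq]
    field_simp
  have hfin : (N : ℝ) * (2 ^ s * (c0 / 2)) ≤ N * ((max C 0) * (2 * s + 3)) := by
    rw [← hL]
    refine hlow.trans (le_trans h (hR.trans (le_of_eq ?_)))
    ring
  have hNr : (0 : ℝ) < N := by positivity
  have := le_of_mul_le_mul_left hfin hNr
  linarith

end Pool.Agent.S19216
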